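import Mathlib

/-!
Burkholder type function and the tree inequality (dyadic martingale transforms).
-/

open scoped BigOperators

namespace H12Haar

/-- Model function for large exponents. -/
noncomputable def U2 (x y : ℝ) : ℝ := if |x| + |y| ≤ 1 then 0 else (|y| - 1) ^ 2 - x ^ 2

/-- Model function for small exponents. -/
noncomputable def U1 (x y : ℝ) : ℝ := if |x| + |y| ≤ 1 then y ^ 2 - x ^ 2 else 1 - 2 * |x|

lemma U2_le (x y : ℝ) : U2 x y ≤ (|y| - 1) ^ 2 - x ^ 2 := by
  unfold U2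
  split_ifs with h
  · have h1 : |x| ≤ 1 - |y| := by linarith
    have h2 : |x| ^ 2 ≤ (1 - |y|) ^ 2 := pow_le_pow_left₀ (abs_nonneg _) h1 2
    rw [sq_abs] at h2
    nlinarith
  · exact le_rfl

lemma U2_nonpos {x y h k : ℝ} (hk : |k| ≤ |h|) (hxy : |x| + |y| ≤ 1) :
    U2 (x + h) (y + k) ≤ 0 := by
  unfold U2
  split_ifs with h1
  · exact le_rfl
  · push Not at h1
    have e1 : |h| ≤ |x + h| + |x| := by
      have := abs_sub (x + h) x
      simpa using this
    have e2 : |y + k| ≤ |y| + |k| := abs_add_le _ _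
    have e3 : |y + k| - 1 ≤ |x + h| := by linarith
    have e4 : -|x + h| ≤ |y + k| - 1 := by linarith
    have := sq_le_sq' e4 e3
    rw [sq_abs] at this
    linarith

lemma zig2 {x y h k : ℝ} (hk : |k| ≤ |h|) :
    U2 (x + h) (y + k) + U2 (x - h) (y - k) ≤ 2 * U2 x y := by
  by_cases hxy : |x| + |y| ≤ 1
  · have h1 := U2_nonpos (x := x) (y := y) hk hxy
    have h2 := U2_nonpos (x := x) (y := y) (h := -h) (k := -k) (by rwa [abs_neg, abs_neg]) hxy
    rw [← sub_eq_add_neg, ← sub_eq_add_neg] at h2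
    have h3 : U2 x y = 0 := by unfold U2; rw [if_pos hxy]
    linarith
  · have h3 : U2 x y = (|y| - 1) ^ 2 - x ^ 2 := by unfold U2; rw [if_neg hxy]
    have h1 := U2_le (x + h) (y + k)
    have h2 := U2_le (x - h) (y - k)
    have h4 : k ^ 2 ≤ h ^ 2 := sq_le_sq.2 hk
    have h5 : 2 * |y| ≤ |y + k| + |y - k| := by
      have := abs_add_le (y + k) (y - k)
      have e : (y + k) + (y - k) = 2 * y := by ring
      rw [e, abs_mul, abs_two] at this
      exact this
    have e1 : |y + k| ^ 2 = (y + k) ^ 2 := sq_abs _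
    have e2 : |y - k| ^ 2 = (y - k) ^ 2 := sq_abs _
    have e3 : |y| ^ 2 = y ^ 2 := sq_abs _
    nlinarith

lemma U1_le (x y : ℝ) : U1 x y ≤ 1 - 2 * |x| := by
  unfold U1
  split_ifs with h
  · have h1 : |y| ≤ 1 - |x| := by linarith
    have h2 : |y| ^ 2 ≤ (1 - |x|) ^ 2 := pow_le_pow_left₀ (abs_nonneg _) h1 2
    rw [sq_abs] at h2
    have h3 : |x| ^ 2 = x ^ 2 := sq_abs x
    nlinarith
  · exact le_rfl

/-- Either the value is at most the quadratic, or the point is far out in the first variable. -/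
lemma U1_alt (x y : ℝ) : U1 x y ≤ y ^ 2 - x ^ 2 ∨ (U1 x y = 1 - 2 * |x| ∧ 1 + |y| < |x|) := by
  unfold U1
  split_ifs with h
  · left; exact le_rfl
  · push Not at h
    by_cases h1 : 1 + |y| < |x|
    · right; exact ⟨rfl, h1⟩
    · left
      push Not at h1
      have h2 : abs (1 - |x|) ≤ |y| := by
        rw [abs_le]
        constructor <;> linarith
      have h3 : (1 - |x|) ^ 2 ≤ y ^ 2 := sq_le_sq.2 h2
      have h4 : |x| ^ 2 = x ^ 2 := sq_abs x
      nlinarith

lemma zig1_aux {x y h k : ℝ} (hxy : |x| + |y| ≤ 1)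
    (hfar : 1 + |y + k| < x + h) :
    1 - 2 * (x + h) + ((y - k) ^ 2 - (x - h) ^ 2) ≤ 2 * (y ^ 2 - x ^ 2) := by
  set a : ℝ := 1 - x with ha
  set q : ℝ := |y + k| with hq
  have hq0 : 0 ≤ q := abs_nonneg _
  have hya : |y| ≤ a := by
    have := le_abs_self x
    linarith
  have ha0 : 0 ≤ a := (abs_nonneg y).trans hya
  have h1 : a + q < h := by
    have : x = 1 - a := by rw [ha]; ring
    linarith
  have hk2 : |k| ≤ a + q := by
    have : |k| ≤ |y + k| + |y| := by
      have := abs_sub (y + k) y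
      simpa using this
    linarith
  have hk3 : k ^ 2 ≤ (a + q) ^ 2 := by
    have := pow_le_pow_left₀ (abs_nonneg k) hk2 2
    rwa [sq_abs] at this
  have hq2 : q ^ 2 = (y + k) ^ 2 := sq_abs _
  have hx : x = 1 - a := by rw [ha]; ring
  have h5 : (a + q) ^ 2 ≤ h ^ 2 := pow_le_pow_left₀ (by linarith) h1.le 2
  have h6 : a * (a + q) ≤ a * h := mul_le_mul_of_nonneg_left h1.le ha0
  rw [hx]
  nlinarith

lemma zig1_h {x y h k : ℝ} (hh : 0 ≤ h) (hk : |k| ≤ h) (hxy : |x| + |y| ≤ 1) :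
    U1 (x + h) (y + k) + U1 (x - h) (y - k) ≤ 2 * (y ^ 2 - x ^ 2) := by
  have hk2 : k ^ 2 ≤ h ^ 2 := by
    have := pow_le_pow_left₀ (abs_nonneg k) hk 2
    rwa [sq_abs] at this
  have hx1 : |x| ≤ 1 := by have := abs_nonneg y; linarith
  have hxa := abs_le.1 hx1
  rcases U1_alt (x + h) (y + k) with hp | ⟨hp, hpf⟩
  · rcases U1_alt (x - h) (y - k) with hm | ⟨hm, hmf⟩
    · nlinarith
    · -- minus point far
      have hxh : x - h ≤ 0 := by
        by_contra hcon
        push Not at hcon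
        rw [abs_of_pos hcon] at hmf
        have := abs_nonneg (y - k)
        linarith
      rw [abs_of_nonpos hxh] at hm hmf
      have key := zig1_aux (x := -x) (y := -y) (h := h) (k := k) (by rwa [abs_neg, abs_neg])
        (by
          have e : |(-y) + k| = |y - k| := by rw [← abs_neg]; congr 1; ring
          rw [e]; linarith)
      nlinarith
  · rcases U1_alt (x - h) (y - k) with hm | ⟨hm, hmf⟩
    · have hxh : 0 ≤ x + h := by
        by_contra hcon
        push Not at hcon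
        rw [abs_of_neg hcon] at hpf
        have := abs_nonneg (y + k)
        linarith
      rw [abs_of_nonneg hxh] at hp hpf
      have key := zig1_aux hxy hpf
      nlinarith
    · -- both far
      rw [hp, hm]
      have h1 : 2 * |y| ≤ |y + k| + |y - k| := by
        have := abs_add_le (y + k) (y - k)
        have e : (y + k) + (y - k) = 2 * y := by ring
        rw [e, abs_mul, abs_two] at this
        exact this
      have hx2 : x ^ 2 ≤ 1 := by
        rw [← sq_abs]; exact pow_le_one₀ (abs_nonneg _) hx1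
      have := abs_nonneg y
      nlinarith [sq_nonneg y]

lemma zig1 {x y h k : ℝ} (hk : |k| ≤ |h|) :
    U1 (x + h) (y + k) + U1 (x - h) (y - k) ≤ 2 * U1 x y := by
  by_cases hxy : |x| + |y| ≤ 1
  · have h3 : U1 x y = y ^ 2 - x ^ 2 := by unfold U1; rw [if_pos hxy]
    rw [h3]
    rcases le_total 0 h with hh | hh
    · exact zig1_h hh (by rwa [abs_of_nonneg hh] at hk) hxy
    · have := zig1_h (x := x) (y := y) (h := -h) (k := -k) (by linarith)
        (by rwa [abs_neg, ← abs_of_nonpos hh]) hxy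
      rw [← sub_eq_add_neg, ← sub_eq_add_neg, sub_neg_eq_add, sub_neg_eq_add] at this
      linarith
  · have h3 : U1 x y = 1 - 2 * |x| := by unfold U1; rw [if_neg hxy]
    rw [h3]
    have h1 := U1_le (x + h) (y + k)
    have h2 := U1_le (x - h) (y - k)
    have h4 : 2 * |x| ≤ |x + h| + |x - h| := by
      have := abs_add_le (x + h) (x - h)
      have e : (x + h) + (x - h) = 2 * x := by ring
      rw [e, abs_mul, abs_two] at this
      exact this
    linarith

open MeasureTheory intervalIntegral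

/-- Burkholder type function. -/
noncomputable def B (p κ x y : ℝ) : ℝ := (|x| + |y|) ^ (p - 1) * (|y| - κ * |x|)

lemma scale_cond {x y t : ℝ} (ht : 0 < t) : |x / t| + |y / t| ≤ 1 ↔ |x| + |y| ≤ t := by
  rw [abs_div, abs_div, abs_of_pos ht, ← add_div, div_le_one ht]

lemma rpow_sub_two {p t : ℝ} (ht : 0 < t) : t ^ (p - 1) = t ^ (p - 3) * t ^ 2 := by
  rw [← Real.rpow_natCast t 2, ← Real.rpow_add ht]; congr 1; push_cast; ring

lemma rpow_sub_one' {p t : ℝ} (ht : 0 < t) : t ^ (p - 2) = t ^ (p - 3) * t := by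
  nth_rewrite 3 [← Real.rpow_one t]
  rw [← Real.rpow_add ht]; congr 1; ring

lemma phi2_eq {p x y t : ℝ} (ht : 0 < t) (htr : t ≤ |x| + |y|) :
    t ^ (p - 1) * U2 (x / t) (y / t)
      = t ^ (p - 1) - 2 * |y| * t ^ (p - 2) + (y ^ 2 - x ^ 2) * t ^ (p - 3) := by
  have h1 := rpow_sub_two (p := p) ht
  have h2 := rpow_sub_one' (p := p) ht
  have hy : |y| ^ 2 = y ^ 2 := sq_abs y
  have hx : |x| ^ 2 = x ^ 2 := sq_abs x
  unfold U2
  split_ifs with h
  · rw [scale_cond ht] at h
    have e : t = |x| + |y| := le_antisymm htr h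
    rw [mul_zero, h1, h2]
    have : (t ^ 2 - 2 * |y| * t + (y ^ 2 - x ^ 2)) = 0 := by
      rw [e, ← hy, ← hx]; ring
    calc (0 : ℝ) = t ^ (p - 3) * (t ^ 2 - 2 * |y| * t + (y ^ 2 - x ^ 2)) := by rw [this, mul_zero]
      _ = _ := by ring
  · rw [h1, h2, abs_div, abs_of_pos ht, ← hy]
    field_simp
    ring

lemma phi2_zero {p x y t : ℝ} (ht : 0 < t) (htr : |x| + |y| ≤ t) :
    t ^ (p - 1) * U2 (x / t) (y / t) = 0 := by
  unfold U2
  rw [if_pos ((scale_cond ht).2 htr), mul_zero]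

lemma int2 {p x y R : ℝ} (hp : 2 < p) (hR : |x| + |y| ≤ R) :
    IntervalIntegrable (fun t => t ^ (p - 1) * U2 (x / t) (y / t)) volume 0 R ∧
    ∫ t in (0 : ℝ)..R, t ^ (p - 1) * U2 (x / t) (y / t)
      = 2 / (p * (p - 1) * (p - 2)) * B p (p - 1) x y := by
  set r : ℝ := |x| + |y| with hr
  have hr0 : 0 ≤ r := by positivity
  have hR0 : 0 ≤ R := hr0.trans hR
  have i1 : IntervalIntegrable (fun t : ℝ => t ^ (p - 1)) volume 0 r :=
    intervalIntegrable_rpow' (by linarith)
  have i2 : IntervalIntegrable (fun t : ℝ => t ^ (p - 2)) volume 0 r :=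
    intervalIntegrable_rpow' (by linarith)
  have i3 : IntervalIntegrable (fun t : ℝ => t ^ (p - 3)) volume 0 r :=
    intervalIntegrable_rpow' (by linarith)
  have ig : IntervalIntegrable
      (fun t : ℝ => t ^ (p - 1) - 2 * |y| * t ^ (p - 2) + (y ^ 2 - x ^ 2) * t ^ (p - 3))
      volume 0 r := (i1.sub (i2.const_mul _)).add (i3.const_mul _)
  have hc1 : Set.EqOn
      (fun t : ℝ => t ^ (p - 1) - 2 * |y| * t ^ (p - 2) + (y ^ 2 - x ^ 2) * t ^ (p - 3))
      (fun t => t ^ (p - 1) * U2 (x / t) (y / t)) (Set.uIoc 0 r) := by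
    intro t ht
    rw [Set.uIoc_of_le hr0] at ht
    exact (phi2_eq ht.1 ht.2).symm
  have hc2 : Set.EqOn (fun _ : ℝ => (0 : ℝ))
      (fun t => t ^ (p - 1) * U2 (x / t) (y / t)) (Set.uIoc r R) := by
    intro t ht
    rw [Set.uIoc_of_le hR] at ht
    exact (phi2_zero (hr0.trans_lt ht.1) ht.1.le).symm
  have j1 : IntervalIntegrable (fun t => t ^ (p - 1) * U2 (x / t) (y / t)) volume 0 r :=
    ig.congr hc1
  have j2 : IntervalIntegrable (fun t => t ^ (p - 1) * U2 (x / t) (y / t)) volume r R :=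
    (_root_.intervalIntegrable_const).congr hc2
  refine ⟨j1.trans j2, ?_⟩
  rw [← integral_add_adjacent_intervals j1 j2]
  have k1 : ∫ t in (0 : ℝ)..r, t ^ (p - 1) * U2 (x / t) (y / t)
      = r ^ p / p - 2 * |y| * (r ^ (p - 1) / (p - 1)) + (y ^ 2 - x ^ 2) * (r ^ (p - 2) / (p - 2)) := by
    rw [← integral_congr_ae (Filter.Eventually.of_forall fun t ht => hc1 ht)]
    rw [integral_add (i1.sub (i2.const_mul _)) (i3.const_mul _),
      integral_sub i1 (i2.const_mul _), intervalIntegral.integral_const_mul,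
      intervalIntegral.integral_const_mul,
      integral_rpow (Or.inl (by linarith)), integral_rpow (Or.inl (by linarith)),
      integral_rpow (Or.inl (by linarith))]
    rw [Real.zero_rpow (by linarith), Real.zero_rpow (by linarith), Real.zero_rpow (by linarith)]
    have e1 : p - 1 + 1 = p := by ring
    have e2 : p - 2 + 1 = p - 1 := by ring
    have e3 : p - 3 + 1 = p - 2 := by ring
    rw [e1, e2, e3, sub_zero, sub_zero, sub_zero]
  have k2 : ∫ t in r..R, t ^ (p - 1) * U2 (x / t) (y / t) = 0 := by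
    rw [← integral_congr_ae (Filter.Eventually.of_forall fun t ht => hc2 ht)]
    simp
  rw [k1, k2, add_zero]
  unfold B
  rw [← hr]
  have hy : |y| ^ 2 = y ^ 2 := sq_abs y
  have hx : |x| ^ 2 = x ^ 2 := sq_abs x
  have hp1 : p ≠ 0 := by linarith
  have hp2 : p - 1 ≠ 0 := by linarith
  have hp3 : p - 2 ≠ 0 := by linarith
  rcases eq_or_lt_of_le hr0 with h0 | h0
  · rw [← h0, Real.zero_rpow hp1, Real.zero_rpow hp2, Real.zero_rpow hp3]
    simp
  · have f1 : r ^ p = r ^ (p - 1) * r := by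
      nth_rewrite 3 [← Real.rpow_one r]
      rw [← Real.rpow_add h0]; congr 1; ring
    have f2 : (y ^ 2 - x ^ 2) * r ^ (p - 2) = (|y| - |x|) * r ^ (p - 1) := by
      have : r ^ (p - 1) = r ^ (p - 2) * r := by
        nth_rewrite 3 [← Real.rpow_one r]
        rw [← Real.rpow_add h0]; congr 1; ring
      rw [this, hr, ← hy, ← hx]; ring
    have f3 : (y ^ 2 - x ^ 2) * (r ^ (p - 2) / (p - 2)) = (|y| - |x|) * r ^ (p - 1) / (p - 2) := by
      rw [← mul_div_assoc, f2]
    rw [f1, f3]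
    have hrr : r = |x| + |y| := hr
    field_simp
    rw [hrr]
    ring

lemma phi1_in {p x y t : ℝ} (ht : 0 < t) (htr : t ≤ |x| + |y|) :
    t ^ (p - 1) * U1 (x / t) (y / t) = t ^ (p - 1) - 2 * |x| * t ^ (p - 2) := by
  have h1 := rpow_sub_two (p := p) ht
  have h2 := rpow_sub_one' (p := p) ht
  have hy : |y| ^ 2 = y ^ 2 := sq_abs y
  have hx : |x| ^ 2 = x ^ 2 := sq_abs x
  unfold U1
  split_ifs with h
  · rw [scale_cond ht] at h
    have e : |y| = t - |x| := by linarith
    rw [h1, h2]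
    have : (y / t) ^ 2 - (x / t) ^ 2 = (t ^ 2 - 2 * |x| * t) / t ^ 2 := by
      rw [div_pow, div_pow, ← sub_div, ← hy, e, ← hx]; congr 1; ring
    rw [this]
    field_simp
  · rw [h1, h2, abs_div, abs_of_pos ht]
    field_simp

lemma phi1_out {p x y t : ℝ} (ht : 0 < t) (htr : |x| + |y| ≤ t) :
    t ^ (p - 1) * U1 (x / t) (y / t) = (y ^ 2 - x ^ 2) * t ^ (p - 3) := by
  unfold U1
  rw [if_pos ((scale_cond ht).2 htr), rpow_sub_two ht]
  field_simp

lemma int1 {p x y R : ℝ} (hp1 : 1 < p) (hp2 : p < 2) (hR : |x| + |y| ≤ R) :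
    IntervalIntegrable (fun t => t ^ (p - 1) * U1 (x / t) (y / t)) volume 0 R ∧
    ∫ t in (0 : ℝ)..R, t ^ (p - 1) * U1 (x / t) (y / t)
      = 2 / (p * (2 - p)) * B p (1 / (p - 1)) x y - (y ^ 2 - x ^ 2) * (R ^ (p - 2) / (2 - p)) := by
  set r : ℝ := |x| + |y| with hr
  have hr0 : 0 ≤ r := by positivity
  rcases eq_or_lt_of_le hr0 with h0 | h0
  · -- r = 0
    have hx : x = 0 := by
      have := abs_nonneg x; have := abs_nonneg y
      exact abs_eq_zero.1 (by linarith)
    have hy : y = 0 := by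
      have := abs_nonneg x; have := abs_nonneg y
      exact abs_eq_zero.1 (by linarith)
    subst hx hy
    have hU : ∀ t : ℝ, t ^ (p - 1) * U1 (0 / t) (0 / t) = 0 := by
      intro t
      simp [U1]
    constructor
    · refine (_root_.intervalIntegrable_const (c := (0 : ℝ))).congr ?_
      intro t _
      exact (hU t).symm
    · rw [show (fun t : ℝ => t ^ (p - 1) * U1 (0 / t) (0 / t)) = fun _ => 0 from funext hU]
      simp [B]
  have i1 : IntervalIntegrable (fun t : ℝ => t ^ (p - 1)) volume 0 r :=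
    intervalIntegrable_rpow' (by linarith)
  have i2 : IntervalIntegrable (fun t : ℝ => t ^ (p - 2)) volume 0 r :=
    intervalIntegrable_rpow' (by linarith)
  have hnot : (0 : ℝ) ∉ Set.uIcc r R := by
    rw [Set.uIcc_of_le hR]
    intro h
    exact absurd h.1 (not_le.2 h0)
  have i3 : IntervalIntegrable (fun t : ℝ => t ^ (p - 3)) volume r R :=
    intervalIntegrable_rpow (Or.inr hnot)
  have ig : IntervalIntegrable (fun t : ℝ => t ^ (p - 1) - 2 * |x| * t ^ (p - 2)) volume 0 r :=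
    i1.sub (i2.const_mul _)
  have ig2 : IntervalIntegrable (fun t : ℝ => (y ^ 2 - x ^ 2) * t ^ (p - 3)) volume r R :=
    i3.const_mul _
  have hc1 : Set.EqOn (fun t : ℝ => t ^ (p - 1) - 2 * |x| * t ^ (p - 2))
      (fun t => t ^ (p - 1) * U1 (x / t) (y / t)) (Set.uIoc 0 r) := by
    intro t ht
    rw [Set.uIoc_of_le hr0] at ht
    exact (phi1_in ht.1 ht.2).symm
  have hc2 : Set.EqOn (fun t : ℝ => (y ^ 2 - x ^ 2) * t ^ (p - 3))
      (fun t => t ^ (p - 1) * U1 (x / t) (y / t)) (Set.uIoc r R) := by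
    intro t ht
    rw [Set.uIoc_of_le hR] at ht
    exact (phi1_out (hr0.trans_lt ht.1) ht.1.le).symm
  have j1 : IntervalIntegrable (fun t => t ^ (p - 1) * U1 (x / t) (y / t)) volume 0 r :=
    ig.congr hc1
  have j2 : IntervalIntegrable (fun t => t ^ (p - 1) * U1 (x / t) (y / t)) volume r R :=
    ig2.congr hc2
  refine ⟨j1.trans j2, ?_⟩
  rw [← integral_add_adjacent_intervals j1 j2]
  have k1 : ∫ t in (0 : ℝ)..r, t ^ (p - 1) * U1 (x / t) (y / t)
      = r ^ p / p - 2 * |x| * (r ^ (p - 1) / (p - 1)) := by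
    rw [← integral_congr_ae (Filter.Eventually.of_forall fun t ht => hc1 ht)]
    rw [integral_sub i1 (i2.const_mul _), intervalIntegral.integral_const_mul,
      integral_rpow (Or.inl (by linarith)), integral_rpow (Or.inl (by linarith))]
    rw [Real.zero_rpow (by linarith), Real.zero_rpow (by linarith)]
    have e1 : p - 1 + 1 = p := by ring
    have e2 : p - 2 + 1 = p - 1 := by ring
    rw [e1, e2, sub_zero, sub_zero]
  have k2 : ∫ t in r..R, t ^ (p - 1) * U1 (x / t) (y / t)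
      = (y ^ 2 - x ^ 2) * ((R ^ (p - 2) - r ^ (p - 2)) / (p - 2)) := by
    rw [← integral_congr_ae (Filter.Eventually.of_forall fun t ht => hc2 ht)]
    rw [intervalIntegral.integral_const_mul, integral_rpow (Or.inr ⟨by linarith, hnot⟩)]
    have e3 : p - 3 + 1 = p - 2 := by ring
    rw [e3]
  rw [k1, k2]
  unfold B
  rw [← hr]
  have hy : |y| ^ 2 = y ^ 2 := sq_abs y
  have hx : |x| ^ 2 = x ^ 2 := sq_abs x
  have hq1 : p ≠ 0 := by linarith
  have hq2 : p - 1 ≠ 0 := by linarith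
  have hq3 : p - 2 ≠ 0 := by linarith
  have hq4 : 2 - p ≠ 0 := by linarith
  have f1 : r ^ p = r ^ (p - 1) * r := by
    nth_rewrite 3 [← Real.rpow_one r]
    rw [← Real.rpow_add h0]; congr 1; ring
  have f2 : (y ^ 2 - x ^ 2) * r ^ (p - 2) = (|y| - |x|) * r ^ (p - 1) := by
    have : r ^ (p - 1) = r ^ (p - 2) * r := by
      nth_rewrite 3 [← Real.rpow_one r]
      rw [← Real.rpow_add h0]; congr 1; ring
    rw [this, hr, ← hy, ← hx]; ring
  have f3 : (y ^ 2 - x ^ 2) * ((R ^ (p - 2) - r ^ (p - 2)) / (p - 2))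
      = ((|y| - |x|) * r ^ (p - 1)) / (2 - p) - (y ^ 2 - x ^ 2) * (R ^ (p - 2) / (2 - p)) := by
    rw [← f2]
    have : p - 2 = -(2 - p) := by ring
    rw [this, div_neg]
    field_simp
    ring
  rw [f1, f3]
  have hrr : r = |x| + |y| := hr
  have key : r ^ (p - 1) * r / p - 2 * |x| * (r ^ (p - 1) / (p - 1))
      + (|y| - |x|) * r ^ (p - 1) / (2 - p)
      = 2 / (p * (2 - p)) * (r ^ (p - 1) * (|y| - 1 / (p - 1) * |x|)) := by
    field_simp
    rw [hrr]
    ring
  rw [← key]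
  ring

lemma zigB {p : ℝ} (hp : 1 < p) : ∃ κ : ℝ, 1 ≤ κ ∧ ∀ x y h k : ℝ, |k| ≤ |h| →
    B p κ (x + h) (y + k) + B p κ (x - h) (y - k) ≤ 2 * B p κ x y := by
  rcases lt_trichotomy p 2 with hp2 | hp2 | hp2
  · refine ⟨1 / (p - 1), ?_, ?_⟩
    · rw [le_div_iff₀ (by linarith)]; linarith
    intro x y h k hk
    set R : ℝ := max (|x + h| + |y + k|) (max (|x - h| + |y - k|) (|x| + |y|)) with hR
    have hR1 : |x + h| + |y + k| ≤ R := le_max_left _ _
    have hR2 : |x - h| + |y - k| ≤ R := (le_max_left _ _).trans (le_max_right _ _)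
    have hR3 : |x| + |y| ≤ R := (le_max_right _ _).trans (le_max_right _ _)
    have hR0 : 0 ≤ R := le_trans (by positivity) hR3
    obtain ⟨i1, e1⟩ := int1 hp hp2 hR1
    obtain ⟨i2, e2⟩ := int1 hp hp2 hR2
    obtain ⟨i3, e3⟩ := int1 hp hp2 hR3
    have hmono : ∫ t in (0 : ℝ)..R, (t ^ (p - 1) * U1 ((x + h) / t) ((y + k) / t)
          + t ^ (p - 1) * U1 ((x - h) / t) ((y - k) / t))
        ≤ ∫ t in (0 : ℝ)..R, 2 * (t ^ (p - 1) * U1 (x / t) (y / t)) := by
      apply integral_mono_on hR0 (i1.add i2) (i3.const_mul 2)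
      intro t ht
      have h1 : |k / t| ≤ |h / t| := by
        rw [abs_div, abs_div]
        exact div_le_div_of_nonneg_right hk (abs_nonneg t)
      have h2 := zig1 (x := x / t) (y := y / t) h1
      rw [← add_div, ← add_div, ← sub_div, ← sub_div] at h2
      have h3 : 0 ≤ t ^ (p - 1) := Real.rpow_nonneg ht.1 _
      calc _ = t ^ (p - 1) * (U1 ((x + h) / t) ((y + k) / t) + U1 ((x - h) / t) ((y - k) / t)) := by
            ring
        _ ≤ t ^ (p - 1) * (2 * U1 (x / t) (y / t)) := mul_le_mul_of_nonneg_left h2 h3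
        _ = _ := by ring
    rw [integral_add i1 i2, intervalIntegral.integral_const_mul, e1, e2, e3] at hmono
    have hk2 : k ^ 2 ≤ h ^ 2 := sq_le_sq.2 hk
    have hc : 0 ≤ R ^ (p - 2) / (2 - p) := div_nonneg (Real.rpow_nonneg hR0 _) (by linarith)
    have hcc : 0 < 2 / (p * (2 - p)) := by
      apply div_pos two_pos (mul_pos (by linarith) (by linarith))
    have hq : ((y + k) ^ 2 - (x + h) ^ 2) + ((y - k) ^ 2 - (x - h) ^ 2)
        = 2 * (y ^ 2 - x ^ 2) + 2 * (k ^ 2 - h ^ 2) := by ring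
    have h5 : 2 / (p * (2 - p)) * (B p (1 / (p - 1)) (x + h) (y + k)
        + B p (1 / (p - 1)) (x - h) (y - k))
        ≤ 2 / (p * (2 - p)) * (2 * B p (1 / (p - 1)) x y) := by
      have h6 : (k ^ 2 - h ^ 2) * (R ^ (p - 2) / (2 - p)) ≤ 0 :=
        mul_nonpos_of_nonpos_of_nonneg (by linarith) hc
      nlinarith
    exact le_of_mul_le_mul_left h5 hcc
  · refine ⟨1, le_rfl, ?_⟩
    intro x y h k hk
    have hB : ∀ a b : ℝ, B p 1 a b = b ^ 2 - a ^ 2 := by
      intro a b
      unfold B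
      rw [hp2, show (2 : ℝ) - 1 = 1 by norm_num, Real.rpow_one, ← sq_abs a, ← sq_abs b]
      ring
    rw [hB, hB, hB]
    have hk2 : k ^ 2 ≤ h ^ 2 := sq_le_sq.2 hk
    nlinarith
  · refine ⟨p - 1, by linarith, ?_⟩
    intro x y h k hk
    set R : ℝ := max (|x + h| + |y + k|) (max (|x - h| + |y - k|) (|x| + |y|)) with hR
    have hR1 : |x + h| + |y + k| ≤ R := le_max_left _ _
    have hR2 : |x - h| + |y - k| ≤ R := (le_max_left _ _).trans (le_max_right _ _)
    have hR3 : |x| + |y| ≤ R := (le_max_right _ _).trans (le_max_right _ _)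
    have hR0 : 0 ≤ R := le_trans (by positivity) hR3
    obtain ⟨i1, e1⟩ := int2 hp2 hR1
    obtain ⟨i2, e2⟩ := int2 hp2 hR2
    obtain ⟨i3, e3⟩ := int2 hp2 hR3
    have hmono : ∫ t in (0 : ℝ)..R, (t ^ (p - 1) * U2 ((x + h) / t) ((y + k) / t)
          + t ^ (p - 1) * U2 ((x - h) / t) ((y - k) / t))
        ≤ ∫ t in (0 : ℝ)..R, 2 * (t ^ (p - 1) * U2 (x / t) (y / t)) := by
      apply integral_mono_on hR0 (i1.add i2) (i3.const_mul 2)
      intro t ht
      have h1 : |k / t| ≤ |h / t| := by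
        rw [abs_div, abs_div]
        exact div_le_div_of_nonneg_right hk (abs_nonneg t)
      have h2 := zig2 (x := x / t) (y := y / t) h1
      rw [← add_div, ← add_div, ← sub_div, ← sub_div] at h2
      have h3 : 0 ≤ t ^ (p - 1) := Real.rpow_nonneg ht.1 _
      calc _ = t ^ (p - 1) * (U2 ((x + h) / t) ((y + k) / t) + U2 ((x - h) / t) ((y - k) / t)) := by
            ring
        _ ≤ t ^ (p - 1) * (2 * U2 (x / t) (y / t)) := mul_le_mul_of_nonneg_left h2 h3
        _ = _ := by ring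
    rw [integral_add i1 i2, intervalIntegral.integral_const_mul, e1, e2, e3] at hmono
    have hcc : 0 < 2 / (p * (p - 1) * (p - 2)) := by
      apply div_pos two_pos (mul_pos (mul_pos (by linarith) (by linarith)) (by linarith))
    have h5 : 2 / (p * (p - 1) * (p - 2)) * (B p (p - 1) (x + h) (y + k)
        + B p (p - 1) (x - h) (y - k))
        ≤ 2 / (p * (p - 1) * (p - 2)) * (2 * B p (p - 1) x y) := by
      linarith
    exact le_of_mul_le_mul_left h5 hcc

lemma B_nonpos {p κ x y : ℝ} (hκ : 1 ≤ κ) (h : |y| ≤ |x|) : B p κ x y ≤ 0 := by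
  unfold B
  apply mul_nonpos_of_nonneg_of_nonpos
  · positivity
  · have := abs_nonneg x
    nlinarith

lemma B_lower {p κ : ℝ} (hp : 1 < p) (hκ : 1 ≤ κ) (x y : ℝ) :
    |y| ^ p / 2 - (κ * (1 + 2 * κ) ^ (p - 1) + (2 * κ) ^ p) * |x| ^ p ≤ B p κ x y := by
  unfold B
  have hx := abs_nonneg x
  have hy := abs_nonneg y
  set X := |x| with hX
  set Y := |y| with hY
  have hp1 : 0 < p - 1 := by linarith
  rcases eq_or_lt_of_le hx with h0 | h0
  · rw [← h0, Real.zero_rpow (by linarith)]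
    simp only [mul_zero, sub_zero, zero_add]
    rcases eq_or_lt_of_le hy with h1 | h1
    · rw [← h1, Real.zero_rpow (by linarith)]; simp
    · have : Y ^ (p - 1) * Y = Y ^ p := by
        nth_rewrite 2 [← Real.rpow_one Y]
        rw [← Real.rpow_add h1]; congr 1; ring
      rw [this]
      have := Real.rpow_pos_of_pos h1 p
      linarith
  · have hXp : X ^ (p - 1) * X = X ^ p := by
      nth_rewrite 2 [← Real.rpow_one X]
      rw [← Real.rpow_add h0]; congr 1; ring
    have hXp0 : 0 ≤ X ^ p := Real.rpow_nonneg hx _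
    have c1 : 0 ≤ κ * (1 + 2 * κ) ^ (p - 1) := by positivity
    have c2 : 0 ≤ (2 * κ) ^ p := by positivity
    by_cases hc : 2 * κ * X ≤ Y
    · have hY0 : 0 < Y := lt_of_lt_of_le (by positivity) hc
      have h1 : Y ^ (p - 1) ≤ (X + Y) ^ (p - 1) :=
        Real.rpow_le_rpow hy (by linarith) hp1.le
      have h2 : Y / 2 ≤ Y - κ * X := by linarith
      have h3 : Y ^ (p - 1) * Y = Y ^ p := by
        nth_rewrite 2 [← Real.rpow_one Y]
        rw [← Real.rpow_add hY0]; congr 1; ring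
      calc Y ^ p / 2 - (κ * (1 + 2 * κ) ^ (p - 1) + (2 * κ) ^ p) * X ^ p ≤ Y ^ p / 2 := by
            have : 0 ≤ (κ * (1 + 2 * κ) ^ (p - 1) + (2 * κ) ^ p) * X ^ p := by positivity
            linarith
        _ = Y ^ (p - 1) * (Y / 2) := by rw [← h3]; ring
        _ ≤ (X + Y) ^ (p - 1) * (Y - κ * X) :=
            mul_le_mul h1 h2 (by positivity) (by positivity)
    · push Not at hc
      have h1 : (X + Y) ^ (p - 1) ≤ ((1 + 2 * κ) * X) ^ (p - 1) :=
        Real.rpow_le_rpow (by positivity) (by linarith) hp1.le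
      rw [Real.mul_rpow (by positivity) hx] at h1
      have h2 : -(κ * X) ≤ Y - κ * X := by linarith
      have h3 : Y ^ p ≤ (2 * κ) ^ p * X ^ p := by
        rw [← Real.mul_rpow (by positivity) hx]
        exact Real.rpow_le_rpow hy hc.le (by linarith)
      have h4 : 0 ≤ Y ^ p := Real.rpow_nonneg hy _
      calc Y ^ p / 2 - (κ * (1 + 2 * κ) ^ (p - 1) + (2 * κ) ^ p) * X ^ p
          ≤ -(κ * (1 + 2 * κ) ^ (p - 1) * X ^ p) := by nlinarith
        _ = -(((1 + 2 * κ) ^ (p - 1) * X ^ (p - 1)) * (κ * X)) := by rw [← hXp]; ring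
        _ ≤ -((X + Y) ^ (p - 1) * (κ * X)) := by
            apply neg_le_neg
            exact mul_le_mul_of_nonneg_right h1 (by positivity)
        _ = (X + Y) ^ (p - 1) * (-(κ * X)) := by ring
        _ ≤ (X + Y) ^ (p - 1) * (Y - κ * X) :=
            mul_le_mul_of_nonneg_left h2 (by positivity)

/-- Splitting a dyadic block of indices into children. -/
lemma sum_children (n : ℕ) (f : ℕ → ℝ) :
    ∑ j ∈ Finset.Ico (2 ^ (n + 1)) (2 ^ (n + 2)), f j
      = ∑ j ∈ Finset.Ico (2 ^ n) (2 ^ (n + 1)), (f (2 * j) + f (2 * j + 1)) := by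
  have h : ∀ a b : ℕ, a ≤ b → ∑ j ∈ Finset.Ico (2 * a) (2 * b), f j
      = ∑ j ∈ Finset.Ico a b, (f (2 * j) + f (2 * j + 1)) := by
    intro a b hab
    induction b, hab using Nat.le_induction with
    | base => simp
    | succ m hm ih =>
      rw [Finset.sum_Ico_succ_top hm, ← ih, show 2 * (m + 1) = 2 * m + 1 + 1 by ring,
        Finset.sum_Ico_succ_top (by omega), Finset.sum_Ico_succ_top (by omega)]
      ring
  have := h (2 ^ n) (2 ^ (n + 1)) (Nat.pow_le_pow_right (by norm_num) (by omega))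
  rw [← this]
  congr 2 <;> ring

/-- The tree inequality. -/
theorem tree_ineq {p : ℝ} (hp : 1 < p) : ∃ C : ℝ, 0 < C ∧ ∀ X Y : ℕ → ℝ, |Y 1| ≤ |X 1| →
    (∀ j, 1 ≤ j → X (2 * j) + X (2 * j + 1) = 2 * X j) →
    (∀ j, 1 ≤ j → Y (2 * j) + Y (2 * j + 1) = 2 * Y j) →
    (∀ j, 1 ≤ j → |Y (2 * j) - Y (2 * j + 1)| ≤ |X (2 * j) - X (2 * j + 1)|) →
    ∀ n, ∑ j ∈ Finset.Ico (2 ^ n) (2 ^ (n + 1)), |Y j| ^ p
      ≤ C * ∑ j ∈ Finset.Ico (2 ^ n) (2 ^ (n + 1)), |X j| ^ p := by
  obtain ⟨κ, hκ, hz⟩ := zigB hp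
  refine ⟨2 * (κ * (1 + 2 * κ) ^ (p - 1) + (2 * κ) ^ p), by positivity, ?_⟩
  intro X Y h1 hX hY hXY n
  have key : ∀ n, ∑ j ∈ Finset.Ico (2 ^ n) (2 ^ (n + 1)), B p κ (X j) (Y j) ≤ 0 := by
    intro n
    induction n with
    | zero =>
      simp only [pow_zero, zero_add, pow_one]
      rw [Finset.sum_Ico_succ_top (by norm_num)]
      simpa using B_nonpos hκ h1
    | succ n ih =>
      rw [sum_children]
      have : ∀ j ∈ Finset.Ico (2 ^ n) (2 ^ (n + 1)),
          B p κ (X (2 * j)) (Y (2 * j)) + B p κ (X (2 * j + 1)) (Y (2 * j + 1))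
            ≤ 2 * B p κ (X j) (Y j) := by
        intro j hj
        have hj1 : 1 ≤ j := le_trans (Nat.one_le_two_pow) (Finset.mem_Ico.1 hj).1
        have a1 := hX j hj1
        have a2 := hY j hj1
        have a3 := hXY j hj1
        have := hz (X j) (Y j) ((X (2 * j) - X (2 * j + 1)) / 2)
          ((Y (2 * j) - Y (2 * j + 1)) / 2) (by
            rw [abs_div, abs_div]
            exact div_le_div_of_nonneg_right a3 (abs_nonneg _))
        have e1 : X j + (X (2 * j) - X (2 * j + 1)) / 2 = X (2 * j) := by linarith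
        have e2 : X j - (X (2 * j) - X (2 * j + 1)) / 2 = X (2 * j + 1) := by linarith
        have e3 : Y j + (Y (2 * j) - Y (2 * j + 1)) / 2 = Y (2 * j) := by linarith
        have e4 : Y j - (Y (2 * j) - Y (2 * j + 1)) / 2 = Y (2 * j + 1) := by linarith
        rwa [e1, e2, e3, e4] at this
      calc _ ≤ ∑ j ∈ Finset.Ico (2 ^ n) (2 ^ (n + 1)), 2 * B p κ (X j) (Y j) :=
            Finset.sum_le_sum this
        _ = 2 * ∑ j ∈ Finset.Ico (2 ^ n) (2 ^ (n + 1)), B p κ (X j) (Y j) := by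
            rw [Finset.mul_sum]
        _ ≤ 0 := by linarith
  have hl : ∑ j ∈ Finset.Ico (2 ^ n) (2 ^ (n + 1)),
      (|Y j| ^ p / 2 - (κ * (1 + 2 * κ) ^ (p - 1) + (2 * κ) ^ p) * |X j| ^ p)
      ≤ ∑ j ∈ Finset.Ico (2 ^ n) (2 ^ (n + 1)), B p κ (X j) (Y j) :=
    Finset.sum_le_sum fun j _ => B_lower hp hκ (X j) (Y j)
  rw [Finset.sum_sub_distrib, ← Finset.mul_sum, ← Finset.sum_div] at hl
  have := key n
  linarith

end H12Haar
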