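import Pool.Agent.H12Haar.Tree

/-!
The tree inequality for real or complex scalars.
-/

open scoped BigOperators ENNReal NNReal

namespace H12Haar

lemma real_split {r u v : ℝ} (hu : 0 ≤ u) (hv : 0 ≤ v) (h : |r| ≤ u + v) :
    ∃ a b : ℝ, r = a + b ∧ |a| ≤ u ∧ |b| ≤ v := by
  rw [abs_le] at h
  refine ⟨max (-u) (min r u), r - max (-u) (min r u), by ring, ?_, ?_⟩
  · rw [abs_le]
    refine ⟨le_max_left _ _, max_le (by linarith) (min_le_right _ _)⟩
  · rw [abs_le]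
    rcases le_total r u with h1 | h1
    · rw [min_eq_left h1]
      rcases le_total (-u) r with h2 | h2
      · rw [max_eq_right h2]; constructor <;> linarith
      · rw [max_eq_left h2]; constructor <;> linarith
    · rw [min_eq_right h1, max_eq_right (by linarith)]
      constructor <;> linarith

lemma tree_rel (c : ℕ → ℝ) :
    (∀ j, 1 ≤ j → tree c (2 * j) + tree c (2 * j + 1) = 2 * tree c j) ∧
    (∀ j, 1 ≤ j → tree c (2 * j) - tree c (2 * j + 1) = 2 * c j) := by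
  constructor
  · intro j hj
    rw [tree_even _ hj, tree_odd _ hj]; ring
  · intro j hj
    rw [tree_even _ hj, tree_odd _ hj]; ring

lemma add_rpow_le' {p a b : ℝ} (hp : 0 ≤ p) (ha : 0 ≤ a) (hb : 0 ≤ b) :
    (a + b) ^ p ≤ 2 ^ p * (a ^ p + b ^ p) := by
  rcases le_total a b with h | h
  · calc (a + b) ^ p ≤ (2 * b) ^ p := Real.rpow_le_rpow (by positivity) (by linarith) hp
      _ = 2 ^ p * b ^ p := Real.mul_rpow (by norm_num) hb
      _ ≤ _ := by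
        apply mul_le_mul_of_nonneg_left _ (by positivity)
        have := Real.rpow_nonneg ha p
        linarith
  · calc (a + b) ^ p ≤ (2 * a) ^ p := Real.rpow_le_rpow (by positivity) (by linarith) hp
      _ = 2 ^ p * a ^ p := Real.mul_rpow (by norm_num) ha
      _ ≤ _ := by
        apply mul_le_mul_of_nonneg_left _ (by positivity)
        have := Real.rpow_nonneg hb p
        linarith

lemma norm_le_re_im {𝕜 : Type*} [RCLike 𝕜] (z : 𝕜) :
    ‖z‖ ≤ |RCLike.re z| + |RCLike.im z| := by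
  have h : ‖z‖ ^ 2 = RCLike.re z * RCLike.re z + RCLike.im z * RCLike.im z :=
    RCLike.norm_sq_eq_def
  have h1 : |RCLike.re z| ^ 2 = RCLike.re z ^ 2 := sq_abs _
  have h2 : |RCLike.im z| ^ 2 = RCLike.im z ^ 2 := sq_abs _
  have h3 := abs_nonneg (RCLike.re z)
  have h4 := abs_nonneg (RCLike.im z)
  apply le_of_sq_le_sq _ (by positivity)
  nlinarith [mul_nonneg h3 h4]

/-- One real component. -/
lemma tree_comp {𝕜 : Type*} [RCLike 𝕜] {p C : ℝ} (hp : 0 < p) (hC : 0 < C)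
    (hreal : ∀ X Y : ℕ → ℝ, |Y 1| ≤ |X 1| →
      (∀ j, 1 ≤ j → X (2 * j) + X (2 * j + 1) = 2 * X j) →
      (∀ j, 1 ≤ j → Y (2 * j) + Y (2 * j + 1) = 2 * Y j) →
      (∀ j, 1 ≤ j → |Y (2 * j) - Y (2 * j + 1)| ≤ |X (2 * j) - X (2 * j + 1)|) →
      ∀ n, ∑ j ∈ Finset.Ico (2 ^ n) (2 ^ (n + 1)), |Y j| ^ p
        ≤ C * ∑ j ∈ Finset.Ico (2 ^ n) (2 ^ (n + 1)), |X j| ^ p)
    (r : ℕ → ℝ) (c : ℕ → 𝕜) (h : ∀ j, |r j| ≤ ‖c j‖) (n : ℕ) :
    ∑ j ∈ Finset.Ico (2 ^ n) (2 ^ (n + 1)), |tree r j| ^ p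
      ≤ 2 ^ p * (2 * C) * ∑ j ∈ Finset.Ico (2 ^ n) (2 ^ (n + 1)), ‖tree c j‖ ^ p := by
  have hsplit : ∀ j, ∃ a b : ℝ, r j = a + b ∧ |a| ≤ |RCLike.re (c j)| ∧ |b| ≤ |RCLike.im (c j)| := by
    intro j
    apply real_split (abs_nonneg _) (abs_nonneg _)
    exact (h j).trans (norm_le_re_im (c j))
  choose a b hab ha hb using hsplit
  have hr : ∀ (s : ℕ → ℝ) (u : ℕ → ℝ), (∀ j, |s j| ≤ |u j|) →
      ∑ j ∈ Finset.Ico (2 ^ n) (2 ^ (n + 1)), |tree s j| ^ p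
        ≤ C * ∑ j ∈ Finset.Ico (2 ^ n) (2 ^ (n + 1)), |tree u j| ^ p := by
    intro s u hsu
    apply hreal (tree u) (tree s)
    · rw [tree_one, tree_one]; exact hsu 0
    · exact (tree_rel u).1
    · exact (tree_rel s).1
    · intro j hj
      rw [(tree_rel u).2 j hj, (tree_rel s).2 j hj, abs_mul, abs_mul]
      exact mul_le_mul_of_nonneg_left (hsu j) (abs_nonneg _)
  have h1 := hr a (fun j => RCLike.re (c j)) ha
  have h2 := hr b (fun j => RCLike.im (c j)) hb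
  have hge1 : ∀ j ∈ Finset.Ico (2 ^ n) (2 ^ (n + 1)), 1 ≤ j := fun j hj =>
    le_trans Nat.one_le_two_pow (Finset.mem_Ico.1 hj).1
  have h3 : ∑ j ∈ Finset.Ico (2 ^ n) (2 ^ (n + 1)), |tree (fun j => RCLike.re (c j)) j| ^ p
      ≤ ∑ j ∈ Finset.Ico (2 ^ n) (2 ^ (n + 1)), ‖tree c j‖ ^ p := by
    apply Finset.sum_le_sum
    intro j hj
    have : tree (fun j => RCLike.re (c j)) j = RCLike.re (tree c j) :=
      tree_map (RCLike.re : 𝕜 →+ ℝ) c (hge1 j hj)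
    rw [this]
    exact Real.rpow_le_rpow (abs_nonneg _) (RCLike.abs_re_le_norm _) hp.le
  have h4 : ∑ j ∈ Finset.Ico (2 ^ n) (2 ^ (n + 1)), |tree (fun j => RCLike.im (c j)) j| ^ p
      ≤ ∑ j ∈ Finset.Ico (2 ^ n) (2 ^ (n + 1)), ‖tree c j‖ ^ p := by
    apply Finset.sum_le_sum
    intro j hj
    have : tree (fun j => RCLike.im (c j)) j = RCLike.im (tree c j) :=
      tree_map (RCLike.im : 𝕜 →+ ℝ) c (hge1 j hj)
    rw [this]
    exact Real.rpow_le_rpow (abs_nonneg _) (RCLike.abs_im_le_norm _) hp.le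
  have h5 : ∑ j ∈ Finset.Ico (2 ^ n) (2 ^ (n + 1)), |tree r j| ^ p
      ≤ ∑ j ∈ Finset.Ico (2 ^ n) (2 ^ (n + 1)), 2 ^ p * (|tree a j| ^ p + |tree b j| ^ p) := by
    apply Finset.sum_le_sum
    intro j hj
    have hrab : r = fun i => a i + b i := funext hab
    rw [hrab, tree_add _ _ (hge1 j hj)]
    exact (Real.rpow_le_rpow (abs_nonneg _) (abs_add_le _ _) hp.le).trans
      (add_rpow_le' hp.le (abs_nonneg _) (abs_nonneg _))
  refine h5.trans ?_
  rw [← Finset.mul_sum, Finset.sum_add_distrib, mul_assoc]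
  apply mul_le_mul_of_nonneg_left _ (by positivity)
  have h6 := mul_le_mul_of_nonneg_left h3 hC.le
  have h7 := mul_le_mul_of_nonneg_left h4 hC.le
  linarith

/-- The tree inequality for real or complex scalars. -/
theorem tree_ineq_k (𝕜 : Type*) [RCLike 𝕜] {p : ℝ} (hp : 1 < p) : ∃ C : ℝ, 0 < C ∧
    ∀ c c' : ℕ → 𝕜, (∀ j, ‖c' j‖ ≤ ‖c j‖) → ∀ n,
    ∑ j ∈ Finset.Ico (2 ^ n) (2 ^ (n + 1)), ‖tree c' j‖ ^ p
      ≤ C * ∑ j ∈ Finset.Ico (2 ^ n) (2 ^ (n + 1)), ‖tree c j‖ ^ p := by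
  obtain ⟨C, hC, hreal⟩ := tree_ineq hp
  have hp0 : 0 < p := by linarith
  refine ⟨2 ^ p * (2 * (2 ^ p * (2 * C))), by positivity, ?_⟩
  intro c c' hcc n
  have h1 := tree_comp hp0 hC hreal (fun j => RCLike.re (c' j)) c
    (fun j => (RCLike.abs_re_le_norm _).trans (hcc j)) n
  have h2 := tree_comp hp0 hC hreal (fun j => RCLike.im (c' j)) c
    (fun j => (RCLike.abs_im_le_norm _).trans (hcc j)) n
  have hge1 : ∀ j ∈ Finset.Ico (2 ^ n) (2 ^ (n + 1)), 1 ≤ j := fun j hj =>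
    le_trans Nat.one_le_two_pow (Finset.mem_Ico.1 hj).1
  have h3 : ∑ j ∈ Finset.Ico (2 ^ n) (2 ^ (n + 1)), ‖tree c' j‖ ^ p
      ≤ ∑ j ∈ Finset.Ico (2 ^ n) (2 ^ (n + 1)),
        2 ^ p * (|tree (fun j => RCLike.re (c' j)) j| ^ p + |tree (fun j => RCLike.im (c' j)) j| ^ p) := by
    apply Finset.sum_le_sum
    intro j hj
    have e1 : tree (fun j => RCLike.re (c' j)) j = RCLike.re (tree c' j) :=
      tree_map (RCLike.re : 𝕜 →+ ℝ) c' (hge1 j hj)
    have e2 : tree (fun j => RCLike.im (c' j)) j = RCLike.im (tree c' j) :=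
      tree_map (RCLike.im : 𝕜 →+ ℝ) c' (hge1 j hj)
    rw [e1, e2]
    exact (Real.rpow_le_rpow (norm_nonneg _) (norm_le_re_im _) hp0.le).trans
      (add_rpow_le' hp0.le (abs_nonneg _) (abs_nonneg _))
  refine h3.trans ?_
  rw [← Finset.mul_sum, Finset.sum_add_distrib, mul_assoc]
  apply mul_le_mul_of_nonneg_left _ (by positivity)
  linarith

end H12Haar
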