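import Pool.Agent.H12Haar.Integ
import Pool.Agent.H12Haar.TreeK

/-!
Democracy of the Haar system.
-/

open scoped BigOperators ENNReal NNReal
open MeasureTheory

namespace H12Haar

/-- Modulus at level `n`. -/
lemma abs_haarFun {p : ℝ} {n j : ℕ} (hj : j ∈ Finset.Ico (2 ^ n) (2 ^ (n + 1))) {x : ℝ}
    (hx : x ∈ Set.Ico (0 : ℝ) 1) :
    |haarFun p j x| = if idx n x = j then (2 : ℝ) ^ ((n : ℝ) / p) else 0 := by
  rw [haarFun_eq hj hx]
  have hdiv := idx_succ_div n (x := x)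
  have hpos : (0 : ℝ) ≤ (2 : ℝ) ^ ((n : ℝ) / p) := by positivity
  by_cases h : idx n x = j
  · rw [if_pos h]
    rcases Nat.even_or_odd' (idx (n + 1) x) with ⟨m, hm | hm⟩
    · have : m = j := by omega
      rw [hm, this, if_pos rfl, abs_of_nonneg hpos]
    · have : m = j := by omega
      rw [hm, this, if_neg (by omega), if_pos rfl, abs_neg, abs_of_nonneg hpos]
  · rw [if_neg h, if_neg (by omega), if_neg (by omega), abs_zero]

lemma abs_haarFun_zero {p : ℝ} {x : ℝ} (hx : x ∈ Set.Ico (0 : ℝ) 1) : |haarFun p 0 x| = 1 := by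
  simp [haarFun, hx.1, hx.2]

/-- Partial sums of moduli. -/
noncomputable def sA (p : ℝ) (A : Finset ℕ) (x : ℝ) (m : ℕ) : ℝ :=
  ∑ j ∈ Finset.range (2 ^ m), if j ∈ A then |haarFun p j x| else 0

/-- Partial sums of powers. -/
noncomputable def eA (p : ℝ) (A : Finset ℕ) (x : ℝ) (m : ℕ) : ℝ :=
  ∑ j ∈ Finset.range (2 ^ m), if j ∈ A then |haarFun p j x| ^ p else 0

lemma sA_succ (p : ℝ) (A : Finset ℕ) {x : ℝ} (hx : x ∈ Set.Ico (0 : ℝ) 1) (m : ℕ) :
    sA p A x (m + 1) = sA p A x m + if idx m x ∈ A then (2 : ℝ) ^ ((m : ℝ) / p) else 0 := by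
  unfold sA
  have hle : 2 ^ m ≤ 2 ^ (m + 1) := Nat.pow_le_pow_right (by norm_num) (by omega)
  rw [← Finset.sum_range_add_sum_Ico _ hle]
  congr 1
  rw [Finset.sum_eq_single (idx m x)]
  · rw [abs_haarFun (idx_mem m hx) hx, if_pos rfl]
  · intro j hj hne
    rw [abs_haarFun hj hx, if_neg (Ne.symm hne)]
    simp
  · intro h
    exact absurd (idx_mem m hx) h

lemma eA_succ {p : ℝ} (hp : 0 < p) (A : Finset ℕ) {x : ℝ} (hx : x ∈ Set.Ico (0 : ℝ) 1) (m : ℕ) :
    eA p A x (m + 1) = eA p A x m + if idx m x ∈ A then (2 : ℝ) ^ (m : ℝ) else 0 := by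
  unfold eA
  have hle : 2 ^ m ≤ 2 ^ (m + 1) := Nat.pow_le_pow_right (by norm_num) (by omega)
  rw [← Finset.sum_range_add_sum_Ico _ hle]
  congr 1
  rw [Finset.sum_eq_single (idx m x)]
  · rw [abs_haarFun (idx_mem m hx) hx, if_pos rfl, ← Real.rpow_mul (by norm_num),
      div_mul_cancel₀ _ hp.ne']
  · intro j hj hne
    rw [abs_haarFun hj hx, if_neg (Ne.symm hne), Real.zero_rpow hp.ne']
    simp
  · intro h
    exact absurd (idx_mem m hx) h

/-- Geometric sum. -/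
lemma geom_bound {p : ℝ} (hp : 0 < p) : ∃ K : ℝ, 1 ≤ K ∧ ∀ m : ℕ,
    1 + ∑ i ∈ Finset.range (m + 1), (2 : ℝ) ^ ((i : ℝ) / p) ≤ K * (2 : ℝ) ^ ((m : ℝ) / p) := by
  set q : ℝ := (2 : ℝ) ^ (1 / p) with hq
  have hq1 : 1 < q := Real.one_lt_rpow (by norm_num) (by positivity)
  have hqi : ∀ i : ℕ, (2 : ℝ) ^ ((i : ℝ) / p) = q ^ i := by
    intro i
    rw [hq, ← Real.rpow_natCast, ← Real.rpow_mul (by norm_num)]
    congr 1
    ring
  refine ⟨1 + q / (q - 1), ?_, ?_⟩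
  · have : 0 < q / (q - 1) := div_pos (by linarith) (by linarith)
    linarith
  · intro m
    simp only [hqi]
    have hgs : ∑ i ∈ Finset.range (m + 1), q ^ i = (q ^ (m + 1) - 1) / (q - 1) :=
      geom_sum_eq hq1.ne' _
    rw [hgs, add_mul, one_mul]
    have h1 : 1 ≤ q ^ m := one_le_pow₀ hq1.le
    have h2 : (q ^ (m + 1) - 1) / (q - 1) ≤ q / (q - 1) * q ^ m := by
      rw [div_mul_eq_mul_div]
      apply div_le_div_of_nonneg_right _ (by linarith)
      rw [pow_succ]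
      linarith
    linarith

lemma sA_pow_le {p K : ℝ} (hp : 0 < p) (hK : 1 ≤ K) (hg : ∀ m : ℕ,
    1 + ∑ i ∈ Finset.range (m + 1), (2 : ℝ) ^ ((i : ℝ) / p) ≤ K * (2 : ℝ) ^ ((m : ℝ) / p))
    (A : Finset ℕ) {x : ℝ} (hx : x ∈ Set.Ico (0 : ℝ) 1) (m : ℕ) :
    0 ≤ sA p A x m ∧ 0 ≤ eA p A x m ∧
    sA p A x m ≤ 1 + ∑ i ∈ Finset.range m, (2 : ℝ) ^ ((i : ℝ) / p) ∧
    sA p A x m ^ p ≤ K ^ p * eA p A x m := by
  have hKp : 1 ≤ K ^ p := Real.one_le_rpow hK hp.le
  induction m with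
  | zero =>
    have h1 : sA p A x 0 = if 0 ∈ A then 1 else 0 := by
      unfold sA
      rw [pow_zero, Finset.sum_range_one, abs_haarFun_zero hx]
    have h2 : eA p A x 0 = if 0 ∈ A then 1 else 0 := by
      unfold eA
      rw [pow_zero, Finset.sum_range_one, abs_haarFun_zero hx, Real.one_rpow]
    rw [h1, h2]
    split_ifs
    · simp; exact hKp
    · simp [Real.zero_rpow hp.ne']
  | succ m ih =>
    obtain ⟨i0, i1, i2, i3⟩ := ih
    rw [sA_succ p A hx, eA_succ hp A hx, Finset.sum_range_succ]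
    have hpos : 0 < (2 : ℝ) ^ ((m : ℝ) / p) := by positivity
    by_cases h : idx m x ∈ A
    · rw [if_pos h, if_pos h]
      have hp2 : 0 < (2 : ℝ) ^ (m : ℝ) := by positivity
      refine ⟨by linarith, by linarith, by linarith, ?_⟩
      have h1 : sA p A x m + (2 : ℝ) ^ ((m : ℝ) / p) ≤ K * (2 : ℝ) ^ ((m : ℝ) / p) := by
        have := hg m
        rw [Finset.sum_range_succ] at this
        linarith
      calc (sA p A x m + (2 : ℝ) ^ ((m : ℝ) / p)) ^ p ≤ (K * (2 : ℝ) ^ ((m : ℝ) / p)) ^ p :=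
            Real.rpow_le_rpow (by positivity) h1 hp.le
        _ = K ^ p * (2 : ℝ) ^ (m : ℝ) := by
            rw [Real.mul_rpow (by linarith) hpos.le, ← Real.rpow_mul (by norm_num),
              div_mul_cancel₀ _ hp.ne']
        _ ≤ K ^ p * (eA p A x m + (2 : ℝ) ^ (m : ℝ)) := by
            apply mul_le_mul_of_nonneg_left _ (by positivity)
            linarith
    · rw [if_neg h, if_neg h, add_zero, add_zero]
      exact ⟨i0, i1, by linarith, i3⟩

/-- Each Haar function is normalised. -/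
lemma lint_haar_pow {p : ℝ} (hp : 0 < p) (j : ℕ) :
    ∫⁻ x, ENNReal.ofReal (|haarFun p j x| ^ p) ∂μ₀ = 1 := by
  rcases Nat.eq_zero_or_pos j with h0 | h0
  · subst h0
    have : ∫⁻ x, ENNReal.ofReal (|haarFun p 0 x| ^ p) ∂μ₀ = ∫⁻ x, 1 ∂μ₀ := by
      apply setLIntegral_congr_fun measurableSet_Ico
      intro x hx
      simp only
      rw [abs_haarFun_zero hx, Real.one_rpow, ENNReal.ofReal_one]
    rw [this, lintegral_const, Measure.restrict_apply MeasurableSet.univ]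
    simp
  · have hmem := mem_log h0
    set n := Nat.log 2 j with hn
    have : ∫⁻ x, ENNReal.ofReal (|haarFun p j x| ^ p) ∂μ₀
        = ∫⁻ x, (fun k => if k = j then ENNReal.ofReal (2 ^ n) else 0) (idx n x) ∂μ₀ := by
      apply setLIntegral_congr_fun measurableSet_Ico
      intro x hx
      simp only
      rw [abs_haarFun hmem hx]
      split_ifs with h
      · rw [← Real.rpow_mul (by norm_num), div_mul_cancel₀ _ hp.ne', Real.rpow_natCast]
      · rw [Real.zero_rpow hp.ne', ENNReal.ofReal_zero]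
    rw [this, lint_idx n (fun k => if k = j then ENNReal.ofReal (2 ^ n) else 0),
      Finset.sum_eq_single j]
    · rw [if_pos rfl, ← ENNReal.ofReal_mul (by positivity), mul_one_div_cancel (by positivity),
        ENNReal.ofReal_one]
    · intro k _ hk
      simp [hk]
    · intro h
      exact absurd hmem h

lemma measurable_haarFun (p : ℝ) (j : ℕ) : Measurable (haarFun p j) := by
  unfold haarFun
  split_ifs
  · exact Measurable.ite measurableSet_Ico measurable_const measurable_const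
  · exact Measurable.ite measurableSet_Ico measurable_const
      (Measurable.ite measurableSet_Ico measurable_const measurable_const)

variable {𝕜 : Type*} [RCLike 𝕜]

/-- Haar sums. -/
noncomputable def S (p : ℝ) (b : ℕ → 𝕜) (n : ℕ) (x : ℝ) : 𝕜 :=
  ∑ j ∈ Finset.range (2 ^ n), b j * (haarFun p j x : 𝕜)

lemma measurable_S (p : ℝ) (b : ℕ → 𝕜) (n : ℕ) : Measurable (S p b n) := by
  unfold S
  apply Finset.measurable_sum
  intro j _
  exact measurable_const.mul (RCLike.measurable_ofReal.comp (measurable_haarFun p j))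

lemma norm_S_le {p : ℝ} (A : Finset ℕ) (b : ℕ → 𝕜) (hb : ∀ j, ‖b j‖ ≤ if j ∈ A then 1 else 0)
    (n : ℕ) (x : ℝ) : ‖S p b n x‖ ≤ sA p A x n := by
  unfold S sA
  refine (norm_sum_le _ _).trans (Finset.sum_le_sum fun j _ => ?_)
  rw [norm_mul, RCLike.norm_ofReal]
  have h := hb j
  split_ifs at h ⊢ with hj
  · have := abs_nonneg (haarFun p j x)
    nlinarith
  · have h0 : ‖b j‖ = 0 := le_antisymm h (norm_nonneg _)
    rw [h0, zero_mul]

/-- Upper democracy estimate. -/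
theorem dem_upper {p : ℝ} (hp : 0 < p) : ∃ K : ℝ, 1 ≤ K ∧
    ∀ (A : Finset ℕ) (b : ℕ → 𝕜), (∀ j, ‖b j‖ ≤ if j ∈ A then 1 else 0) → ∀ n,
    ∫⁻ x, ‖S p b n x‖ₑ ^ p ∂μ₀ ≤ ENNReal.ofReal (K ^ p) * A.card := by
  obtain ⟨K, hK, hg⟩ := geom_bound hp
  refine ⟨K, hK, ?_⟩
  intro A b hb n
  have h1 : ∫⁻ x, ‖S p b n x‖ₑ ^ p ∂μ₀ ≤ ∫⁻ x, ENNReal.ofReal (K ^ p) *
      (∑ j ∈ Finset.range (2 ^ n), if j ∈ A then ENNReal.ofReal (|haarFun p j x| ^ p) else 0) ∂μ₀ := by
    apply setLIntegral_mono_ae' measurableSet_Ico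
    refine Filter.Eventually.of_forall fun x hx => ?_
    obtain ⟨i0, i1, -, i3⟩ := sA_pow_le hp hK hg A hx n
    have e1 : ‖S p b n x‖ₑ = ENNReal.ofReal ‖S p b n x‖ := (ofReal_norm _).symm
    rw [e1, ENNReal.ofReal_rpow_of_nonneg (norm_nonneg _) hp.le]
    have e2 : (∑ j ∈ Finset.range (2 ^ n), if j ∈ A then ENNReal.ofReal (|haarFun p j x| ^ p) else 0)
        = ENNReal.ofReal (eA p A x n) := by
      unfold eA
      rw [ENNReal.ofReal_sum_of_nonneg]
      · refine Finset.sum_congr rfl fun j _ => ?_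
        split_ifs
        · rfl
        · simp
      · intro j _
        split_ifs
        · positivity
        · exact le_rfl
    rw [e2, ← ENNReal.ofReal_mul (by positivity)]
    apply ENNReal.ofReal_le_ofReal
    exact (Real.rpow_le_rpow (norm_nonneg _) (norm_S_le A b hb n x) hp.le).trans i3
  refine h1.trans ?_
  rw [lintegral_const_mul, lintegral_finsetSum]
  · gcongr
    calc ∑ j ∈ Finset.range (2 ^ n), ∫⁻ x, (if j ∈ A then ENNReal.ofReal (|haarFun p j x| ^ p) else 0) ∂μ₀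
        = ∑ j ∈ Finset.range (2 ^ n), if j ∈ A then (1 : ℝ≥0∞) else 0 := by
          refine Finset.sum_congr rfl fun j _ => ?_
          split_ifs
          · exact lint_haar_pow hp j
          · simp
      _ = ((Finset.range (2 ^ n) ∩ A).card : ℝ≥0∞) := by
          rw [Finset.sum_ite_mem]
          simp
      _ ≤ A.card := by
          exact_mod_cast Finset.card_le_card Finset.inter_subset_right
  · intro j _
    split_ifs
    · exact ((measurable_haarFun p j).abs.pow_const p).ennreal_ofReal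
    · exact measurable_const
  · apply Finset.measurable_sum
    intro j _
    split_ifs
    · exact ((measurable_haarFun p j).abs.pow_const p).ennreal_ofReal
    · exact measurable_const

/-- Integrals of products of Haar sums. -/
lemma int_mul {p : ℝ} (hp : 1 < p) (b b' : ℕ → 𝕜) (n : ℕ) :
    ∫ x, S p b n x * S (p / (p - 1)) b' n x ∂μ₀ = ∑ j ∈ Finset.range (2 ^ n), b j * b' j := by
  have h1 : ∫ x, S p b n x * S (p / (p - 1)) b' n x ∂μ₀
      = ∫ x, (fun k => tree (scal p b) k * tree (scal (p / (p - 1)) b') k) (idx n x) ∂μ₀ := by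
    apply setIntegral_congr_fun measurableSet_Ico
    intro x hx
    simp only [S]
    rw [haar_sum p b n hx, haar_sum _ b' n hx]
  rw [h1, int_idx n (fun k => tree (scal p b) k * tree (scal (p / (p - 1)) b') k), parseval]
  have hr : ∑ j ∈ Finset.range (2 ^ n), b j * b' j
      = b 0 * b' 0 + ∑ j ∈ Finset.Ico 1 (2 ^ n), b j * b' j := by
    rw [Finset.range_eq_Ico, ← Finset.sum_Ico_consecutive _ (Nat.zero_le 1) Nat.one_le_two_pow]
    simp
  rw [hr]
  congr 1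
  refine Finset.sum_congr rfl fun j hj => ?_
  have h0 : j ≠ 0 := by have := (Finset.mem_Ico.1 hj).1; omega
  simp only [scal, h0, if_false]
  have h3 := conj_exp hp (Nat.log 2 j : ℝ)
  rw [Real.rpow_natCast] at h3
  have h4 : (((2 : ℝ) ^ ((Nat.log 2 j : ℝ) / p) : ℝ) : 𝕜)
      * (((2 : ℝ) ^ ((Nat.log 2 j : ℝ) / (p / (p - 1))) : ℝ) : 𝕜) = ((2 ^ Nat.log 2 j : ℝ) : 𝕜) := by
    rw [← h3]; push_cast; ring
  have h5 : ((1 / 2 ^ Nat.log 2 j : ℝ) : 𝕜) * ((2 ^ Nat.log 2 j : ℝ) : 𝕜) = 1 := by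
    rw [← RCLike.ofReal_mul]
    rw [one_div_mul_cancel (by positivity)]
    simp
  calc ((1 / 2 ^ Nat.log 2 j : ℝ) : 𝕜) * ((((2 : ℝ) ^ ((Nat.log 2 j : ℝ) / p) : ℝ) : 𝕜) * b j
        * ((((2 : ℝ) ^ ((Nat.log 2 j : ℝ) / (p / (p - 1))) : ℝ) : 𝕜) * b' j))
      = ((1 / 2 ^ Nat.log 2 j : ℝ) : 𝕜) * ((((2 : ℝ) ^ ((Nat.log 2 j : ℝ) / p) : ℝ) : 𝕜)
        * (((2 : ℝ) ^ ((Nat.log 2 j : ℝ) / (p / (p - 1))) : ℝ) : 𝕜)) * (b j * b' j) := by ring
    _ = b j * b' j := by rw [h4, h5, one_mul]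

/-- Lower democracy estimate. -/
theorem dem_lower {p : ℝ} (hp : 1 < p) : ∃ K : ℝ, 1 ≤ K ∧
    ∀ (A : Finset ℕ) (n : ℕ), (∀ j ∈ A, j < 2 ^ n) →
    (A.card : ℝ≥0∞) ^ (1 / p) ≤ ENNReal.ofReal K *
      (∫⁻ x, ‖S p (fun j => if j ∈ A then (1 : 𝕜) else 0) n x‖ₑ ^ p ∂μ₀) ^ (1 / p) := by
  have hp0 : 0 < p := by linarith
  have hp1 : 0 < p - 1 := by linarith
  have hq0 : 0 < p / (p - 1) := div_pos hp0 hp1
  obtain ⟨K, hK, hup⟩ := dem_upper (𝕜 := 𝕜) hq0
  refine ⟨K, hK, ?_⟩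
  intro A n hA
  rcases Finset.eq_empty_or_nonempty A with hAe | hAe
  · rw [hAe]
    simp [ENNReal.zero_rpow_of_pos (show 0 < p⁻¹ by positivity)]
  set b : ℕ → 𝕜 := fun j => if j ∈ A then (1 : 𝕜) else 0 with hb
  have hbn : ∀ j, ‖b j‖ ≤ if j ∈ A then 1 else 0 := by
    intro j
    simp only [hb]
    split_ifs <;> simp
  have hint := int_mul hp b b n
  have hsum : ∑ j ∈ Finset.range (2 ^ n), b j * b j = (A.card : 𝕜) := by
    have : ∀ j, b j * b j = if j ∈ A then (1 : 𝕜) else 0 := by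
      intro j; simp only [hb]; split_ifs <;> simp
    simp only [this]
    rw [Finset.sum_ite_mem, Finset.inter_eq_right.2 (fun j hj => Finset.mem_range.2 (hA j hj))]
    simp
  rw [hsum] at hint
  have hpq : p.HolderConjugate (p / (p - 1)) := by
    rw [Real.holderConjugate_iff]
    refine ⟨hp, ?_⟩
    field_simp
    ring
  have h1 : (A.card : ℝ≥0∞) ≤ ∫⁻ x, ‖S p b n x‖ₑ * ‖S (p / (p - 1)) b n x‖ₑ ∂μ₀ := by
    have h2 : ‖((A.card : ℕ) : 𝕜)‖ₑ = (A.card : ℝ≥0∞) := by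
      rw [← ofReal_norm]
      rw [RCLike.norm_natCast]
      simp
    rw [← h2, ← hint]
    refine (enorm_integral_le_lintegral_enorm _).trans (le_of_eq ?_)
    congr 1
    funext x
    rw [enorm_mul]
  have h2 := ENNReal.lintegral_mul_le_Lp_mul_Lq μ₀ hpq
    (f := fun x => ‖S p b n x‖ₑ) (g := fun x => ‖S (p / (p - 1)) b n x‖ₑ)
    ((measurable_S p b n).enorm.aemeasurable) ((measurable_S _ b n).enorm.aemeasurable)
  have h3 := hup A b hbn n
  set E := ∫⁻ x, ‖S p b n x‖ₑ ^ p ∂μ₀ with hE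
  set q := p / (p - 1) with hq
  have h4 : (∫⁻ x, ‖S q b n x‖ₑ ^ q ∂μ₀) ^ (1 / q) ≤ ENNReal.ofReal K * (A.card : ℝ≥0∞) ^ (1 / q) := by
    calc _ ≤ (ENNReal.ofReal (K ^ q) * A.card) ^ (1 / q) :=
          ENNReal.rpow_le_rpow h3 (by positivity)
      _ = ENNReal.ofReal K * (A.card : ℝ≥0∞) ^ (1 / q) := by
          rw [ENNReal.mul_rpow_of_nonneg _ _ (by positivity),
            ENNReal.ofReal_rpow_of_nonneg (by positivity) (by positivity),
            ← Real.rpow_mul (by linarith), mul_one_div_cancel hq0.ne', Real.rpow_one]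
  have h5 : (A.card : ℝ≥0∞) ≤ E ^ (1 / p) * (ENNReal.ofReal K * (A.card : ℝ≥0∞) ^ (1 / q)) :=
    h1.trans (h2.trans (by gcongr))
  have hc0 : (A.card : ℝ≥0∞) ≠ 0 := by
    have := Finset.card_pos.2 hAe
    exact_mod_cast this.ne'
  have hct : (A.card : ℝ≥0∞) ≠ ∞ := ENNReal.natCast_ne_top _
  have h6 : (A.card : ℝ≥0∞) = (A.card : ℝ≥0∞) ^ (1 / p) * (A.card : ℝ≥0∞) ^ (1 / q) := by
    rw [← ENNReal.rpow_add _ _ hc0 hct]
    have : 1 / p + 1 / q = 1 := by
      rw [hq]; field_simp; ring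
    rw [this, ENNReal.rpow_one]
  have h7 : (A.card : ℝ≥0∞) ^ (1 / p) * (A.card : ℝ≥0∞) ^ (1 / q)
      ≤ (ENNReal.ofReal K * E ^ (1 / p)) * (A.card : ℝ≥0∞) ^ (1 / q) := by
    rw [← h6]
    refine h5.trans (le_of_eq ?_)
    ring
  have hcq0 : (A.card : ℝ≥0∞) ^ (1 / q) ≠ 0 := by
    simp [ENNReal.rpow_eq_zero_iff, hc0, hct]
  have hcqt : (A.card : ℝ≥0∞) ^ (1 / q) ≠ ∞ :=
    ENNReal.rpow_ne_top_of_nonneg (by positivity) hct
  exact (ENNReal.mul_le_mul_iff_left hcq0 hcqt).1 h7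

end H12Haar
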