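import Pool.Agent.H12Haar.Leb

/-!
Convergence of Haar partial sums of bounded functions.
-/

open scoped BigOperators ENNReal NNReal Topology
open MeasureTheory Filter

namespace H12Haar

variable {𝕜 : Type*} [RCLike 𝕜]

lemma norm_S_le_of_bdd {p : ℝ} (hp : 1 < p) {f : ℝ → 𝕜} (hf : Integrable f μ₀) {K : ℝ}
    (hK : ∀ᵐ x ∂μ₀, ‖f x‖ ≤ K) (n : ℕ) {x : ℝ} (hx : x ∈ Set.Ico (0 : ℝ) 1) :
    ‖S p (coeff p f) n x‖ ≤ K := by
  have hSx : S p (coeff p f) n x = ((2 ^ n : ℝ) : 𝕜) * ∫ y in J n (idx n x), f y := by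
    unfold S
    rw [haar_sum p _ n hx, tree_coeff hp hf n _ (idx_mem n hx)]
  have hvol : volume.real (J n (idx n x)) = 1 / 2 ^ n := by
    rw [Measure.real, vol_J, ENNReal.toReal_ofReal (by positivity)]
  have h1 : ‖∫ y in J n (idx n x), f y‖ ≤ K * (1 / 2 ^ n) := by
    rw [← hvol]
    apply norm_setIntegral_le_of_norm_le_const_ae
    · rw [vol_J]; exact ENNReal.ofReal_lt_top
    · exact ae_mono (Measure.restrict_mono (J_subset (idx_mem n hx)) le_rfl) hK
  rw [hSx, norm_mul, RCLike.norm_ofReal, abs_of_pos (by positivity)]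
  calc (2 : ℝ) ^ n * ‖∫ y in J n (idx n x), f y‖ ≤ 2 ^ n * (K * (1 / 2 ^ n)) := by gcongr
    _ = K := by field_simp

lemma tendsto_bdd {p : ℝ} (hp : 1 < p) {f : ℝ → 𝕜} (hf : Integrable f μ₀) {K : ℝ}
    (hK : ∀ᵐ x ∂μ₀, ‖f x‖ ≤ K) :
    Tendsto (fun n => ∫⁻ x, ‖S p (coeff p f) n x - f x‖ₑ ^ p ∂μ₀) atTop (𝓝 0) := by
  have hp0 : 0 < p := by linarith
  have h := tendsto_lintegral_of_dominated_convergence' (μ := μ₀)
    (F := fun n x => ‖S p (coeff p f) n x - f x‖ₑ ^ p) (f := fun _ => 0)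
    (fun _ => (ENNReal.ofReal (2 * K)) ^ p) ?_ ?_ ?_ ?_
  · simpa using h
  · intro n
    exact (((measurable_S p _ n).aemeasurable.sub hf.aemeasurable).enorm).pow_const p
  · intro n
    filter_upwards [hK, ae_restrict_mem measurableSet_Ico] with x hx hx01
    apply ENNReal.rpow_le_rpow _ hp0.le
    rw [← ofReal_norm]
    apply ENNReal.ofReal_le_ofReal
    have h1 := norm_S_le_of_bdd hp hf hK n hx01
    calc ‖S p (coeff p f) n x - f x‖ ≤ ‖S p (coeff p f) n x‖ + ‖f x‖ := norm_sub_le _ _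
      _ ≤ 2 * K := by linarith
  · rw [lintegral_const]
    apply ENNReal.mul_ne_top
    · exact ENNReal.rpow_ne_top_of_nonneg hp0.le ENNReal.ofReal_ne_top
    · exact measure_ne_top _ _
  · filter_upwards [ae_lim hp hf] with x hx
    have h2 : Tendsto (fun n => S p (coeff p f) n x - f x) atTop (𝓝 0) := by
      have := hx.sub_const (f x)
      rwa [sub_self] at this
    have h3 := (ENNReal.continuous_rpow_const (y := p)).tendsto (0 : ℝ≥0∞)
    rw [ENNReal.zero_rpow_of_pos hp0] at h3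
    have h4 : Tendsto (fun n => ‖S p (coeff p f) n x - f x‖ₑ) atTop (𝓝 0) := by
      have := h2.enorm
      simpa using this
    exact h3.comp h4

end H12Haar
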