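import Pool.Agent.H12Haar.MNorm
import Pool.Agent.H12Haar.Exp

/-!
An equivalent `s`-norm on `L_p[0,1]` for which the Haar system is `1`-greedy.
-/

open scoped BigOperators ENNReal NNReal Topology
open MeasureTheory Filter

namespace H12Haar.Fin

/-- Lebesgue measure on `[0,1]`. -/
noncomputable abbrev mu01 : Measure ℝ := volume.restrict (Set.Icc (0 : ℝ) 1)

open H12Haar (haarFun)

lemma memLp_haar (𝕜 : Type*) [RCLike 𝕜] (p : ℝ) (j : ℕ) :
    MemLp (fun x => (haarFun p j x : 𝕜)) (ENNReal.ofReal p) mu01 := by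
  refine MemLp.of_bound (C := max 1 ((2 : ℝ) ^ ((Nat.log 2 j : ℝ) / p))) ?_ ?_
  · exact (RCLike.measurable_ofReal.comp (H12Haar.measurable_haarFun p j)).aestronglyMeasurable
  · refine Eventually.of_forall fun x => ?_
    rw [RCLike.norm_ofReal]
    unfold haarFun
    have hpos : (0 : ℝ) < (2 : ℝ) ^ ((Nat.log 2 j : ℝ) / p) := by positivity
    split_ifs
    · simp
    · simp
    · rw [abs_of_pos hpos]; exact le_max_right _ _
    · rw [abs_neg, abs_of_pos hpos]; exact le_max_right _ _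
    · simp

/-- The `j`-th Haar function as an element of `L_p[0,1]`. -/
noncomputable def haar (𝕜 : Type*) [RCLike 𝕜] (p : ℝ) (j : ℕ) :
    Lp 𝕜 (ENNReal.ofReal p) mu01 := (memLp_haar 𝕜 p j).toLp _

/-- `f = ∑ a_j h_j`: the partial sums `∑_{j < m} a_j h_j` converge to `f` in the norm of
`L_p[0,1]`. -/
def HasExpansion {𝕜 : Type*} [RCLike 𝕜] (p : ℝ) (f : Lp 𝕜 (ENNReal.ofReal p) mu01)
    (a : ℕ → 𝕜) : Prop :=
  Tendsto (fun m => ‖f - ∑ j ∈ Finset.range m, a j • haar 𝕜 p j‖) atTop (𝓝 0)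

/-- The `j`-th Haar coefficient of `f`: the integral of `f` against the `j`-th Haar function
normalised in `L_q`, `q = p/(p-1)`. -/
noncomputable def haarCoeff {𝕜 : Type*} [RCLike 𝕜] (p : ℝ)
    (f : Lp 𝕜 (ENNReal.ofReal p) mu01) (j : ℕ) : 𝕜 :=
  ∫ x, f x * (haarFun (p / (p - 1)) j x : 𝕜) ∂mu01

open H12Haar (μ₀ Mh Fin0)

lemma mu01_eq : mu01 = μ₀ := Measure.restrict_congr_set Ico_ae_eq_Icc.symm

section
variable {𝕜 : Type*} [RCLike 𝕜] {p : ℝ}

lemma coeff_eq (f : Lp 𝕜 (ENNReal.ofReal p) mu01) (j : ℕ) :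
    haarCoeff p f j = H12Haar.coeff p (f : ℝ → 𝕜) j := by
  have key : ∀ g : ℝ → 𝕜, ∫ x, g x ∂mu01 = ∫ x, g x ∂μ₀ := fun g => by rw [mu01_eq]
  exact key _

lemma integrable_mu01 (hp : 1 < p) (f : Lp 𝕜 (ENNReal.ofReal p) mu01) :
    Integrable (f : ℝ → 𝕜) mu01 :=
  (Lp.memLp f).integrable (by rw [ENNReal.one_le_ofReal]; exact hp.le)

lemma integrable_mul (hp : 1 < p) (f : Lp 𝕜 (ENNReal.ofReal p) mu01) (q : ℝ) (j : ℕ) :
    Integrable (fun x => f x * (haarFun q j x : 𝕜)) mu01 := by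
  refine (integrable_mu01 hp f).mul_bdd (c := max 1 ((2 : ℝ) ^ ((Nat.log 2 j : ℝ) / q))) ?_ ?_
  · exact (RCLike.measurable_ofReal.comp (H12Haar.measurable_haarFun q j)).aestronglyMeasurable
  · refine Eventually.of_forall fun x => ?_
    rw [RCLike.norm_ofReal]
    unfold haarFun
    have hpos : (0 : ℝ) < (2 : ℝ) ^ ((Nat.log 2 j : ℝ) / q) := by positivity
    split_ifs
    · simp
    · simp
    · rw [abs_of_pos hpos]; exact le_max_right _ _
    · rw [abs_neg, abs_of_pos hpos]; exact le_max_right _ _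
    · simp

lemma coeff_add (hp : 1 < p) (f g : Lp 𝕜 (ENNReal.ofReal p) mu01) (j : ℕ) :
    haarCoeff p (f + g) j = haarCoeff p f j + haarCoeff p g j := by
  unfold haarCoeff
  rw [← integral_add (integrable_mul hp f _ j) (integrable_mul hp g _ j)]
  apply integral_congr_ae
  filter_upwards [Lp.coeFn_add f g] with x hx
  rw [hx, Pi.add_apply]
  ring

lemma coeff_smul (c : 𝕜) (f : Lp 𝕜 (ENNReal.ofReal p) mu01) (j : ℕ) :
    haarCoeff p (c • f) j = c * haarCoeff p f j := by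
  unfold haarCoeff
  rw [← integral_const_mul]
  apply integral_congr_ae
  filter_upwards [Lp.coeFn_smul c f] with x hx
  rw [hx, Pi.smul_apply, smul_eq_mul]
  ring

lemma coeff_haar (hp : 1 < p) (i j : ℕ) :
    haarCoeff p (haar 𝕜 p j) i = if i = j then 1 else 0 := by
  obtain ⟨n, hi, hj⟩ : ∃ n, i < 2 ^ n ∧ j < 2 ^ n :=
    ⟨max i j, lt_of_le_of_lt (le_max_left i j) Nat.lt_two_pow_self,
      lt_of_le_of_lt (le_max_right i j) Nat.lt_two_pow_self⟩
  have h := H12Haar.biorth hp (H12Haar.single (𝕜 := 𝕜) j) hi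
  unfold H12Haar.single at h
  rw [← h, ← mu01_eq]
  unfold haarCoeff haar
  apply integral_congr_ae
  filter_upwards [(memLp_haar 𝕜 p j).coeFn_toLp] with x hx
  rw [hx]
  congr 1
  rw [Finset.sum_eq_single j]
  · simp
  · intro k _ hk
    simp [hk]
  · intro h
    exact absurd (Finset.mem_range.2 hj) h

lemma coeff_neg (f : Lp 𝕜 (ENNReal.ofReal p) mu01) (j : ℕ) :
    haarCoeff p (-f) j = -haarCoeff p f j := by
  have := coeff_smul (-1 : 𝕜) f j
  simpa using this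

lemma coeff_zero (j : ℕ) : haarCoeff p (0 : Lp 𝕜 (ENNReal.ofReal p) mu01) j = 0 := by
  have := coeff_smul (0 : 𝕜) (0 : Lp 𝕜 (ENNReal.ofReal p) mu01) j
  simpa using this

lemma coeff_sum (hp : 1 < p) (B : Finset ℕ) (b : ℕ → 𝕜) (i : ℕ) :
    haarCoeff p (∑ j ∈ B, b j • haar 𝕜 p j) i = if i ∈ B then b i else 0 := by
  classical
  induction B using Finset.induction_on with
  | empty => simp [coeff_zero]
  | insert a B ha ih =>
    rw [Finset.sum_insert ha, coeff_add hp, ih, coeff_smul, coeff_haar hp]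
    by_cases h : i = a
    · subst h
      simp [ha]
    · simp [h]

lemma coeff_sub (hp : 1 < p) (f : Lp 𝕜 (ENNReal.ofReal p) mu01) (B : Finset ℕ) (b : ℕ → 𝕜)
    (i : ℕ) : haarCoeff p (f - ∑ j ∈ B, b j • haar 𝕜 p j) i
      = haarCoeff p f i - if i ∈ B then b i else 0 := by
  rw [sub_eq_add_neg, coeff_add hp, coeff_neg, coeff_sum hp, sub_eq_add_neg]

/-- The sequence of moduli of the Haar coefficients. -/
noncomputable def seq (f : Lp 𝕜 (ENNReal.ofReal p) mu01) (j : ℕ) : ℝ≥0 := ‖haarCoeff p f j‖₊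

lemma enorm_eq (hp : 1 < p) (f : Lp 𝕜 (ENNReal.ofReal p) mu01) :
    ‖f‖ₑ = (∫⁻ x, ‖f x‖ₑ ^ p ∂μ₀) ^ (1 / p) := by
  have hp0 : 0 < p := by linarith
  rw [Lp.enorm_def, eLpNorm_eq_lintegral_rpow_enorm_toReal (by simpa using hp0)
    ENNReal.ofReal_ne_top, ENNReal.toReal_ofReal hp0.le]
  have key : ∀ g : ℝ → ℝ≥0∞, ∫⁻ x, g x ∂mu01 = ∫⁻ x, g x ∂μ₀ := fun g => by rw [mu01_eq]
  rw [key]

lemma lp_toReal (f : Lp 𝕜 (ENNReal.ofReal p) mu01) : ‖f‖ₑ.toReal = ‖f‖ := by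
  rw [Lp.enorm_def, Lp.norm_def]

lemma lp_ne_top (f : Lp 𝕜 (ENNReal.ofReal p) mu01) : ‖f‖ₑ ≠ ∞ := by
  rw [Lp.enorm_def]
  exact (Lp.memLp f).eLpNorm_ne_top

lemma Mh_upper (𝕜 : Type*) [RCLike 𝕜] (hp : 1 < p) : ∃ C : ℝ≥0, 0 < C ∧
    ∀ f : Lp 𝕜 (ENNReal.ofReal p) mu01, Mh 𝕜 p (seq f) ≤ C * ‖f‖ₑ := by
  have hp0 : 0 < p := by linarith
  obtain ⟨C, hC, h⟩ := H12Haar.uncond 𝕜 hp
  refine ⟨(C ^ (1 / p)).toNNReal, Real.toNNReal_pos.2 (by positivity), ?_⟩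
  intro f
  apply H12Haar.Mh_le
  intro n b hb
  have hint : Integrable (f : ℝ → 𝕜) μ₀ := by rw [← mu01_eq]; exact integrable_mu01 hp f
  have h1 := h f hint b (by
    intro j
    rw [← coeff_eq]
    exact hb j) n
  rw [enorm_eq hp]
  calc (∫⁻ t, ‖H12Haar.S p b n t‖ₑ ^ p ∂μ₀) ^ (1 / p)
      ≤ (ENNReal.ofReal C * ∫⁻ x, ‖f x‖ₑ ^ p ∂μ₀) ^ (1 / p) :=
        ENNReal.rpow_le_rpow h1 (by positivity)
    _ = _ := by
        rw [ENNReal.mul_rpow_of_nonneg _ _ (by positivity),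
          ENNReal.ofReal_rpow_of_nonneg hC.le (by positivity)]
        rfl

lemma Mh_lower (hp : 1 < p) (f : Lp 𝕜 (ENNReal.ofReal p) mu01) : ‖f‖ₑ ≤ Mh 𝕜 p (seq f) := by
  have hp0 : 0 < p := by linarith
  have hint : Integrable (f : ℝ → 𝕜) μ₀ := by rw [← mu01_eq]; exact integrable_mu01 hp f
  have h1 : ∫⁻ x, ‖f x‖ₑ ^ p ∂μ₀ ≤ (Mh 𝕜 p (seq f)) ^ p := by
    apply H12Haar.norm_le_of_sums hp hint
    intro n
    have h2 := H12Haar.le_Mh (p := p) (x := seq f) n (H12Haar.coeff p (f : ℝ → 𝕜)) (by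
      intro j
      rw [← coeff_eq]
      exact le_rfl)
    have h3 := ENNReal.rpow_le_rpow h2 hp0.le
    rwa [← ENNReal.rpow_mul, one_div_mul_cancel hp0.ne', ENNReal.rpow_one] at h3
  rw [enorm_eq hp]
  calc (∫⁻ x, ‖f x‖ₑ ^ p ∂μ₀) ^ (1 / p) ≤ ((Mh 𝕜 p (seq f)) ^ p) ^ (1 / p) :=
        ENNReal.rpow_le_rpow h1 (by positivity)
    _ = _ := by rw [← ENNReal.rpow_mul, mul_one_div_cancel hp0.ne', ENNReal.rpow_one]

lemma Mh_finite (hp : 1 < p) (f : Lp 𝕜 (ENNReal.ofReal p) mu01) : Mh 𝕜 p (seq f) ≠ ∞ := by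
  obtain ⟨C, -, h⟩ := Mh_upper 𝕜 hp
  exact ne_top_of_le_ne_top (ENNReal.mul_ne_top ENNReal.coe_ne_top (lp_ne_top f)) (h f)

lemma fin0_seq (hp : 1 < p) (f : Lp 𝕜 (ENNReal.ofReal p) mu01) : Fin0 (seq f) :=
  H12Haar.fin0_of_finite hp (Mh_finite hp f)

lemma fin0_put {x : ℕ → ℝ≥0} (hx : Fin0 x) (α : ℝ≥0) (A : Finset ℕ) :
    Fin0 (H12Haar.put x α A) := by
  intro t ht
  refine ((hx t ht).union A.finite_toSet).subset ?_
  intro j hj
  simp only [H12Haar.Lev, H12Haar.put, Set.mem_ofPred_eq] at hj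
  by_cases hjA : j ∈ A
  · right; exact hjA
  · left
    rw [if_neg hjA] at hj
    exact hj

theorem main (𝕜 : Type*) [RCLike 𝕜] {p : ℝ} (hp : 1 < p) :
    ∃ s : ℝ, 0 < s ∧ s < 1 ∧ ∃ Φ : Lp 𝕜 (ENNReal.ofReal p) mu01 → ℝ,
      ((∀ f, 0 ≤ Φ f) ∧ (∀ f, Φ f = 0 ↔ f = 0) ∧ (∀ (c : 𝕜) f, Φ (c • f) = ‖c‖ * Φ f) ∧
        (∀ f g, Φ (f + g) ^ s ≤ Φ f ^ s + Φ g ^ s) ∧
        ∃ c C : ℝ, 0 < c ∧ 0 < C ∧ ∀ f, c * ‖f‖ ≤ Φ f ∧ Φ f ≤ C * ‖f‖) ∧
      ∀ (f : Lp 𝕜 (ENNReal.ofReal p) mu01) (A : Finset ℕ), A.Nonempty →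
        (∀ i ∈ A, ∀ j ∉ A, ‖haarCoeff p f j‖ ≤ ‖haarCoeff p f i‖) →
        ∀ (B : Finset ℕ) (b : ℕ → 𝕜), B.card ≤ A.card →
          Φ (f - ∑ j ∈ A, haarCoeff p f j • haar 𝕜 p j) ≤ Φ (f - ∑ j ∈ B, b j • haar 𝕜 p j) := by
  obtain ⟨D, hD, hM⟩ := H12Haar.isSeqNorm_Mh (𝕜 := 𝕜) hp
  obtain ⟨C, hC, hup⟩ := Mh_upper 𝕜 hp
  have hDr : (1 : ℝ) ≤ D := by exact_mod_cast hD
  have hNfin : ∀ f : Lp 𝕜 (ENNReal.ofReal p) mu01, H12Haar.N (Mh 𝕜 p) (seq f) ≠ ∞ := by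
    intro f
    refine ne_top_of_le_ne_top ?_ (H12Haar.N_le hM (fin0_seq hp f))
    exact ENNReal.mul_ne_top (by simp) (Mh_finite hp f)
  refine ⟨1 / (3 * D + 1), by positivity, ?_, fun f => (H12Haar.N (Mh 𝕜 p) (seq f)).toReal, ?_, ?_⟩
  · rw [div_lt_one (by positivity)]; linarith
  · have hlow : ∀ f : Lp 𝕜 (ENNReal.ofReal p) mu01,
        ‖f‖ ≤ (H12Haar.N (Mh 𝕜 p) (seq f)).toReal := by
      intro f
      have h1 : ‖f‖ₑ ≤ H12Haar.N (Mh 𝕜 p) (seq f) :=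
        (Mh_lower hp f).trans (H12Haar.M_le_N (fin0_seq hp f))
      have h2 := ENNReal.toReal_mono (hNfin f) h1
      rwa [lp_toReal] at h2
    have hupp : ∀ f : Lp 𝕜 (ENNReal.ofReal p) mu01,
        (H12Haar.N (Mh 𝕜 p) (seq f)).toReal ≤ ((1 + D) * C) * ‖f‖ := by
      intro f
      have h1 : H12Haar.N (Mh 𝕜 p) (seq f) ≤ ((1 + D) * C : ℝ≥0) * ‖f‖ₑ := by
        refine (H12Haar.N_le hM (fin0_seq hp f)).trans ?_
        push_cast
        rw [mul_assoc]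
        gcongr
        exact hup f
      have h2 := ENNReal.toReal_mono (ENNReal.mul_ne_top ENNReal.coe_ne_top (lp_ne_top f)) h1
      rw [ENNReal.toReal_mul, lp_toReal, ENNReal.coe_toReal] at h2
      push_cast at h2
      exact h2
    refine ⟨fun f => ENNReal.toReal_nonneg, ?_, ?_, ?_, 1, (1 + D) * C, one_pos, by positivity, ?_⟩
    · intro f
      constructor
      · intro h
        have h1 := hlow f
        rw [show (H12Haar.N (Mh 𝕜 p) (seq f)).toReal = 0 from h] at h1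
        have hp0 : 0 < ENNReal.ofReal p := by
          rw [ENNReal.ofReal_pos]; linarith
        have h2 : 0 ≤ ‖f‖ := by rw [Lp.norm_def]; exact ENNReal.toReal_nonneg
        exact (Lp.norm_eq_zero_iff hp0).1 (le_antisymm h1 h2)
      · rintro rfl
        have := hupp (0 : Lp 𝕜 (ENNReal.ofReal p) mu01)
        rw [Lp.norm_zero, mul_zero] at this
        exact le_antisymm this ENNReal.toReal_nonneg
    · intro c f
      rcases eq_or_ne c 0 with rfl | hc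
      · have := hupp ((0 : 𝕜) • f)
        rw [zero_smul, Lp.norm_zero, mul_zero] at this
        rw [norm_zero, zero_mul, zero_smul]
        exact le_antisymm this ENNReal.toReal_nonneg
      · have hs : seq (c • f) = ‖c‖₊ • seq f := by
          funext j
          simp only [seq, Pi.smul_apply, smul_eq_mul]
          rw [coeff_smul, nnnorm_mul]
        simp only
        rw [hs, H12Haar.N_smul hM (by rwa [← norm_pos_iff] at hc), ENNReal.toReal_mul]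
        rfl
    · intro f g
      apply H12Haar.sub_pow hM hD (fin0_seq hp f) (fin0_seq hp g) (fin0_seq hp _) _ (hNfin f)
        (hNfin g)
      intro j
      simp only [seq, Pi.add_apply]
      rw [coeff_add hp]
      exact nnnorm_add_le _ _
    · intro f
      rw [one_mul]
      exact ⟨hlow f, hupp f⟩
  · intro f A hA hgreedy B b hcard
    apply ENNReal.toReal_mono (hNfin _)
    obtain ⟨i0, hi0, hmin⟩ := A.exists_min_image (fun j => ‖haarCoeff p f j‖₊) hA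
    set α : ℝ≥0 := ‖haarCoeff p f i0‖₊ with hα
    have hu : seq (f - ∑ j ∈ A, haarCoeff p f j • haar 𝕜 p j)
        = fun i => if i ∈ A then 0 else ‖haarCoeff p f i‖₊ := by
      funext i
      simp only [seq]
      rw [coeff_sub hp]
      split_ifs <;> simp
    rcases eq_or_lt_of_le (zero_le : 0 ≤ α) with h0 | h0
    · have : seq (f - ∑ j ∈ A, haarCoeff p f j • haar 𝕜 p j) = 0 := by
        rw [hu]
        funext i
        split_ifs with hi
        · rfl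
        · have h1 : ‖haarCoeff p f i‖ ≤ ‖haarCoeff p f i0‖ := hgreedy i0 hi0 i hi
          have h2 : ‖haarCoeff p f i‖₊ ≤ α := h1
          rw [← h0] at h2
          exact le_antisymm h2 zero_le
      rw [this, H12Haar.N_zero hM]
      exact zero_le
    · classical
      set x : ℕ → ℝ≥0 := fun j => if j ∈ A ∪ B then 0 else ‖haarCoeff p f j‖₊ with hx
      have hxf : Fin0 x := by
        refine (fin0_seq hp f).mono ?_
        intro j
        simp only [hx, seq]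
        split_ifs
        · exact zero_le
        · exact le_rfl
      have hxα : ∀ j, x j ≤ α := by
        intro j
        simp only [hx]
        split_ifs with hj
        · exact zero_le
        · exact hgreedy i0 hi0 j (fun h => hj (Finset.mem_union_left _ h))
      have hz : ∀ j, j ∈ A ∪ B → x j = 0 := fun j hj => by simp only [hx]; rw [if_pos hj]
      have hcard' : (B \ A).card ≤ (A \ B).card := by
        have h1 := Finset.card_inter_add_card_sdiff A B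
        have h2 := Finset.card_inter_add_card_sdiff B A
        rw [Finset.inter_comm] at h2
        omega
      have hex := H12Haar.exchange hM hxf h0 hxα (A := B \ A) (A' := A \ B)
        (fun j hj => hz j (Finset.mem_union_right _ (Finset.mem_sdiff.1 hj).1))
        (fun j hj => hz j (Finset.mem_union_left _ (Finset.mem_sdiff.1 hj).1)) hcard'
      refine (H12Haar.N_mono hM (fin0_put hxf α (B \ A)) ?_).trans
        (hex.trans (H12Haar.N_mono hM (fin0_seq hp _) ?_))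
      · rw [hu]
        intro j
        simp only [H12Haar.put, Finset.mem_sdiff, hx, Finset.mem_union]
        by_cases hjA : j ∈ A
        · simp [hjA]
        · by_cases hjB : j ∈ B
          · simp only [hjA, hjB, if_false, not_false_eq_true, and_self, if_true]
            exact hgreedy i0 hi0 j hjA
          · simp [hjA, hjB]
      · intro j
        simp only [H12Haar.put, Finset.mem_sdiff, hx, Finset.mem_union, seq]
        rw [coeff_sub hp]
        by_cases hjA : j ∈ A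
        · by_cases hjB : j ∈ B
          · simp [hjA, hjB]
          · simp only [hjA, hjB, if_false, not_false_eq_true, and_self, if_true, sub_zero]
            exact hmin j hjA
        · by_cases hjB : j ∈ B
          · simp [hjA, hjB]
          · simp [hjA, hjB]

/-! ### The Haar system is a basis -/

/-- The partial sum operator. -/
noncomputable def P (m : ℕ) (f : Lp 𝕜 (ENNReal.ofReal p) mu01) :
    Lp 𝕜 (ENNReal.ofReal p) mu01 := ∑ j ∈ Finset.range m, haarCoeff p f j • haar 𝕜 p j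

lemma P_add (hp : 1 < p) (m : ℕ) (f g : Lp 𝕜 (ENNReal.ofReal p) mu01) :
    P m (f + g) = P m f + P m g := by
  unfold P
  rw [← Finset.sum_add_distrib]
  refine Finset.sum_congr rfl fun j _ => ?_
  rw [coeff_add hp, add_smul]

lemma P_bound (𝕜 : Type*) [RCLike 𝕜] (hp : 1 < p) : ∃ C : ℝ, 0 < C ∧
    ∀ (m : ℕ) (f : Lp 𝕜 (ENNReal.ofReal p) mu01), ‖P m f‖ ≤ C * ‖f‖ := by
  obtain ⟨C, hC, hup⟩ := Mh_upper 𝕜 hp
  refine ⟨C, hC, fun m f => ?_⟩
  have h1 : ‖P m f‖ₑ ≤ C * ‖f‖ₑ := by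
    refine (Mh_lower hp (P m f)).trans ((H12Haar.Mh_mono _ _ ?_).trans (hup f))
    intro j
    simp only [seq, P]
    rw [coeff_sum hp]
    split_ifs
    · exact le_rfl
    · simp
  have h2 := ENNReal.toReal_mono (ENNReal.mul_ne_top ENNReal.coe_ne_top (lp_ne_top f)) h1
  rw [ENNReal.toReal_mul, lp_toReal, lp_toReal, ENNReal.coe_toReal] at h2
  exact h2

lemma P_P (hp : 1 < p) {m k : ℕ} (h : k ≤ m) (f : Lp 𝕜 (ENNReal.ofReal p) mu01) :
    P m (P k f) = P k f := by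
  unfold P
  rw [← Finset.sum_subset (Finset.range_mono h)]
  · refine Finset.sum_congr rfl fun j hj => ?_
    rw [coeff_sum hp, if_pos hj]
  · intro j _ hj
    rw [coeff_sum hp, if_neg hj, zero_smul]

lemma coeff_bound (𝕜 : Type*) [RCLike 𝕜] (hp : 1 < p) : ∃ C : ℝ, 0 < C ∧
    ∀ (i : ℕ) (f : Lp 𝕜 (ENNReal.ofReal p) mu01), ‖haarCoeff p f i‖ ≤ C * ‖f‖ := by
  obtain ⟨C, hC, hup⟩ := Mh_upper 𝕜 hp
  obtain ⟨K, L, hK, hL, h⟩ := H12Haar.Mh_dem (𝕜 := 𝕜) hp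
  have hL0 : 0 < L := lt_of_lt_of_le one_pos hL
  refine ⟨L * C, mul_pos hL0 hC, fun i f => ?_⟩
  have h1 : (‖haarCoeff p f i‖₊ : ℝ≥0∞) ≤ (L * C : ℝ≥0) * ‖f‖ₑ := by
    have h2 := (h {i}).2
    rw [Finset.card_singleton, Nat.cast_one, ENNReal.one_rpow] at h2
    calc (‖haarCoeff p f i‖₊ : ℝ≥0∞) = ‖haarCoeff p f i‖₊ * 1 := (mul_one _).symm
      _ ≤ ‖haarCoeff p f i‖₊ * (L * Mh 𝕜 p (H12Haar.ind {i})) := by gcongr
      _ = L * (‖haarCoeff p f i‖₊ * Mh 𝕜 p (H12Haar.ind {i})) := by ring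
      _ = L * Mh 𝕜 p (‖haarCoeff p f i‖₊ • H12Haar.ind {i}) := by
          rw [H12Haar.Mh_smul (by linarith)]
      _ ≤ L * Mh 𝕜 p (seq f) := by
          gcongr
          apply H12Haar.Mh_mono
          intro j
          simp only [H12Haar.ind, Pi.smul_apply, smul_eq_mul, Finset.mem_singleton, seq]
          split_ifs with hj
          · rw [hj, mul_one]
          · simp
      _ ≤ L * (C * ‖f‖ₑ) := by
          gcongr
          exact hup f
      _ = _ := by push_cast; ring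
  have h2 := ENNReal.toReal_mono (ENNReal.mul_ne_top ENNReal.coe_ne_top (lp_ne_top f)) h1
  rw [ENNReal.toReal_mul, lp_toReal, ENNReal.coe_toReal, ENNReal.coe_toReal] at h2
  push_cast at h2
  exact h2

lemma P_ae (m : ℕ) (f : Lp 𝕜 (ENNReal.ofReal p) mu01) :
    (P m f : ℝ → 𝕜) =ᵐ[mu01] fun x => ∑ j ∈ Finset.range m, haarCoeff p f j * (haarFun p j x : 𝕜) := by
  unfold P
  have h1 : ∀ᵐ x ∂mu01, ∀ j : ℕ, (haarCoeff p f j • haar 𝕜 p j : Lp 𝕜 (ENNReal.ofReal p) mu01) x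
      = haarCoeff p f j * (haarFun p j x : 𝕜) := by
    rw [ae_all_iff]
    intro j
    filter_upwards [Lp.coeFn_smul (haarCoeff p f j) (haar 𝕜 p j),
      (memLp_haar 𝕜 p j).coeFn_toLp] with x hx hx'
    rw [hx, Pi.smul_apply, smul_eq_mul]
    unfold haar
    rw [hx']
  filter_upwards [Lp.coeFn_finsetSum (Finset.range m) (fun j => haarCoeff p f j • haar 𝕜 p j), h1]
    with x hx hx'
  rw [hx, Finset.sum_apply]
  exact Finset.sum_congr rfl fun j _ => hx' j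

lemma tendsto_bdd (hp : 1 < p) {f : Lp 𝕜 (ENNReal.ofReal p) mu01} {K : ℝ}
    (hK : ∀ᵐ x ∂mu01, ‖f x‖ ≤ K) :
    Tendsto (fun n => ‖f - P (2 ^ n) f‖) atTop (𝓝 0) := by
  have hp0 : 0 < p := by linarith
  have hint : Integrable (f : ℝ → 𝕜) μ₀ := by rw [← mu01_eq]; exact integrable_mu01 hp f
  have hK' : ∀ᵐ x ∂μ₀, ‖f x‖ ≤ K := by rw [← mu01_eq]; exact hK
  have h1 := H12Haar.tendsto_bdd hp hint hK'
  have h2 : ∀ n, ‖f - P (2 ^ n) f‖ₑ
      = (∫⁻ x, ‖H12Haar.S p (H12Haar.coeff p (f : ℝ → 𝕜)) n x - f x‖ₑ ^ p ∂μ₀) ^ (1 / p) := by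
    intro n
    rw [enorm_eq hp]
    congr 1
    apply lintegral_congr_ae
    have h3 := Lp.coeFn_sub f (P (2 ^ n) f)
    have h4 := P_ae (2 ^ n) f
    rw [← mu01_eq]
    filter_upwards [h3, h4] with x hx hx'
    rw [hx, Pi.sub_apply, hx', ← enorm_neg, neg_sub]
    congr 2
    congr 1
    unfold H12Haar.S
    refine Finset.sum_congr rfl fun j _ => ?_
    rw [coeff_eq]
  have h3 := (ENNReal.continuous_rpow_const (y := 1 / p)).tendsto (0 : ℝ≥0∞)
  rw [ENNReal.zero_rpow_of_pos (by positivity)] at h3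
  have h4 : Tendsto (fun n => ‖f - P (2 ^ n) f‖ₑ) atTop (𝓝 0) := by
    simp only [h2]
    exact h3.comp h1
  have h5 := (ENNReal.tendsto_toReal ENNReal.zero_ne_top).comp h4
  rw [ENNReal.toReal_zero] at h5
  refine h5.congr fun n => ?_
  exact lp_toReal _

lemma hasExpansion (hp : 1 < p) (f : Lp 𝕜 (ENNReal.ofReal p) mu01) :
    HasExpansion p f (haarCoeff p f) := by
  have : Fact (1 ≤ ENNReal.ofReal p) := ⟨by rw [ENNReal.one_le_ofReal]; exact hp.le⟩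
  obtain ⟨C, hC, hb⟩ := P_bound 𝕜 hp
  unfold HasExpansion
  rw [Metric.tendsto_atTop]
  intro ε hε
  set η : ℝ := ε / (2 * (1 + C)) with hη
  have hη0 : 0 < η := by positivity
  -- bounded approximation
  obtain ⟨g, K, hg, hK⟩ : ∃ (g : Lp 𝕜 (ENNReal.ofReal p) mu01) (K : ℝ), ‖f - g‖ < η ∧
      ∀ᵐ x ∂mu01, ‖g x‖ ≤ K := by
    obtain ⟨g, hg1, hg2⟩ := (Lp.memLp f).exists_simpleFunc_eLpNorm_sub_lt ENNReal.ofReal_ne_top
      (ε := ENNReal.ofReal η) (by simpa using hη0)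
    obtain ⟨K, hK⟩ := g.exists_forall_norm_le
    refine ⟨hg2.toLp g, K, ?_, ?_⟩
    · have h1 : f - hg2.toLp g = ((Lp.memLp f).sub hg2).toLp ((f : ℝ → 𝕜) - (g : ℝ → 𝕜)) := by
        rw [MemLp.toLp_sub (Lp.memLp f) hg2, Lp.toLp_coeFn]
      rw [h1, Lp.norm_toLp]
      exact (ENNReal.toReal_lt_of_lt_ofReal hg1)
    · filter_upwards [hg2.coeFn_toLp] with x hx
      rw [hx]; exact hK x
  obtain ⟨n, hn⟩ : ∃ n, ‖g - P (2 ^ n) g‖ < η := by
    have := tendsto_bdd hp hK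
    exact (this.eventually (gt_mem_nhds hη0)).exists
  refine ⟨2 ^ n, fun m hm => ?_⟩
  rw [Real.dist_eq, sub_zero, abs_of_nonneg (norm_nonneg _)]
  have key : f - P m f = (f - P (2 ^ n) g) - P m (f - P (2 ^ n) g) := by
    have h1 : P m f = P m (f - P (2 ^ n) g) + P m (P (2 ^ n) g) := by
      rw [← P_add hp, sub_add_cancel]
    rw [h1, P_P hp hm]
    abel
  have h2 : ‖f - P (2 ^ n) g‖ < 2 * η := by
    calc ‖f - P (2 ^ n) g‖ = ‖(f - g) + (g - P (2 ^ n) g)‖ := by congr 1; abel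
      _ ≤ ‖f - g‖ + ‖g - P (2 ^ n) g‖ := norm_add_le _ _
      _ < 2 * η := by linarith
  have h3 : ‖f - P m f‖ < ε := by
    rw [key]
    calc ‖(f - P (2 ^ n) g) - P m (f - P (2 ^ n) g)‖
        ≤ ‖f - P (2 ^ n) g‖ + ‖P m (f - P (2 ^ n) g)‖ := norm_sub_le _ _
      _ ≤ ‖f - P (2 ^ n) g‖ + C * ‖f - P (2 ^ n) g‖ := by gcongr; exact hb _ _
      _ = (1 + C) * ‖f - P (2 ^ n) g‖ := by ring
      _ < (1 + C) * (2 * η) := by gcongr
      _ = ε := by rw [hη]; field_simp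
  exact h3

lemma hasExpansion_unique (hp : 1 < p) {f : Lp 𝕜 (ENNReal.ofReal p) mu01} {a : ℕ → 𝕜}
    (h : HasExpansion p f a) : a = haarCoeff p f := by
  obtain ⟨C, hC, hb⟩ := coeff_bound 𝕜 hp
  funext i
  have h1 : ∀ᶠ m in atTop, ‖haarCoeff p f i - a i‖
      ≤ C * ‖f - ∑ j ∈ Finset.range m, a j • haar 𝕜 p j‖ := by
    filter_upwards [eventually_gt_atTop i] with m hm
    have h2 := hb i (f - ∑ j ∈ Finset.range m, a j • haar 𝕜 p j)
    rwa [coeff_sub hp, if_pos (Finset.mem_range.2 hm)] at h2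
  have h2 : Tendsto (fun m => C * ‖f - ∑ j ∈ Finset.range m, a j • haar 𝕜 p j‖) atTop (𝓝 0) := by
    have := Tendsto.const_mul C h
    rwa [mul_zero] at this
  have h3 : ‖haarCoeff p f i - a i‖ ≤ 0 := ge_of_tendsto h2 h1
  have h4 : haarCoeff p f i - a i = 0 := norm_le_zero_iff.1 h3
  exact (sub_eq_zero.1 h4).symm

end

theorem final (𝕜 : Type*) [RCLike 𝕜] (p : ℝ) (hp : 1 < p) :
    ∃ s : ℝ, 0 < s ∧ s < 1 ∧ ∃ Φ : Lp 𝕜 (ENNReal.ofReal p) mu01 → ℝ,
      ((∀ f, 0 ≤ Φ f) ∧ (∀ f, Φ f = 0 ↔ f = 0) ∧ (∀ (c : 𝕜) f, Φ (c • f) = ‖c‖ * Φ f) ∧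
        (∀ f g, Φ (f + g) ^ s ≤ Φ f ^ s + Φ g ^ s) ∧
        ∃ c C : ℝ, 0 < c ∧ 0 < C ∧ ∀ f, c * ‖f‖ ≤ Φ f ∧ Φ f ≤ C * ‖f‖) ∧
      (∀ f : Lp 𝕜 (ENNReal.ofReal p) mu01, ∃! a : ℕ → 𝕜, HasExpansion p f a) ∧
      ∀ (f : Lp 𝕜 (ENNReal.ofReal p) mu01) (a : ℕ → 𝕜), HasExpansion p f a →
        ∀ A : Finset ℕ, A.Nonempty → (∀ i ∈ A, ∀ j ∉ A, ‖a j‖ ≤ ‖a i‖) →
          ∀ (B : Finset ℕ) (b : ℕ → 𝕜), B.card ≤ A.card →
            Φ (f - ∑ j ∈ A, a j • haar 𝕜 p j) ≤ Φ (f - ∑ j ∈ B, b j • haar 𝕜 p j) := by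
  obtain ⟨s, hs0, hs1, Φ, hΦ, hgr⟩ := main 𝕜 hp
  refine ⟨s, hs0, hs1, Φ, hΦ, ?_, ?_⟩
  · intro f
    exact ⟨haarCoeff p f, hasExpansion hp f, fun a ha => hasExpansion_unique hp ha⟩
  · intro f a ha A hA hmin B b hcard
    have := hasExpansion_unique hp ha
    subst this
    exact hgr f A hA hmin B b hcard

end H12Haar.Fin
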