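import Pool.Agent.H12Haar.Tree

open scoped BigOperators ENNReal NNReal
open MeasureTheory

/-!
Integration of functions of the dyadic index, biorthogonality.
-/

namespace H12Haar

/-- Lebesgue measure on `[0,1)`. -/
noncomputable abbrev μ₀ : Measure ℝ := volume.restrict (Set.Ico (0 : ℝ) 1)

lemma measurableSet_J (n k : ℕ) : MeasurableSet (J n k) := measurableSet_Ico

lemma J_subset {n k : ℕ} (hk : k ∈ Finset.Ico (2 ^ n) (2 ^ (n + 1))) :
    J n k ⊆ Set.Ico (0 : ℝ) 1 := fun x hx => ((mem_J_iff hk x).1 hx).1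

lemma vol_J (n k : ℕ) : volume (J n k) = ENNReal.ofReal (1 / 2 ^ n) := by
  unfold J
  rw [Real.volume_Ico]
  congr 1
  field_simp
  ring

lemma mu_J {n k : ℕ} (hk : k ∈ Finset.Ico (2 ^ n) (2 ^ (n + 1))) :
    μ₀ (J n k) = ENNReal.ofReal (1 / 2 ^ n) := by
  rw [Measure.restrict_apply (measurableSet_J n k), Set.inter_eq_left.2 (J_subset hk), vol_J]

lemma sum_ind {E : Type*} [AddCommMonoid E] (n : ℕ) (g : ℕ → E) {x : ℝ}
    (hx : x ∈ Set.Ico (0 : ℝ) 1) :
    g (idx n x) = ∑ k ∈ Finset.Ico (2 ^ n) (2 ^ (n + 1)), (J n k).indicator (fun _ => g k) x := by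
  classical
  rw [Finset.sum_eq_single (idx n x)]
  · rw [Set.indicator_of_mem]
    exact (mem_J_iff (idx_mem n hx) x).2 ⟨hx, rfl⟩
  · intro k hk hne
    rw [Set.indicator_of_notMem]
    intro hmem
    exact hne ((mem_J_iff hk x).1 hmem).2.symm
  · intro h
    exact absurd (idx_mem n hx) h

lemma lint_idx (n : ℕ) (g : ℕ → ℝ≥0∞) :
    ∫⁻ x, g (idx n x) ∂μ₀
      = ∑ k ∈ Finset.Ico (2 ^ n) (2 ^ (n + 1)), g k * ENNReal.ofReal (1 / 2 ^ n) := by
  have h1 : ∫⁻ x, g (idx n x) ∂μ₀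
      = ∫⁻ x, ∑ k ∈ Finset.Ico (2 ^ n) (2 ^ (n + 1)), (J n k).indicator (fun _ => g k) x ∂μ₀ := by
    apply setLIntegral_congr_fun measurableSet_Ico
    intro x hx
    exact sum_ind n g hx
  rw [h1, lintegral_finsetSum]
  · refine Finset.sum_congr rfl fun k hk => ?_
    rw [lintegral_indicator_const (measurableSet_J n k), mu_J hk]
  · intro k _
    exact measurable_const.indicator (measurableSet_J n k)

lemma int_idx {𝕜 : Type*} [RCLike 𝕜] (n : ℕ) (g : ℕ → 𝕜) :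
    ∫ x, g (idx n x) ∂μ₀
      = ∑ k ∈ Finset.Ico (2 ^ n) (2 ^ (n + 1)), ((1 / 2 ^ n : ℝ) : 𝕜) * g k := by
  have h1 : ∫ x, g (idx n x) ∂μ₀
      = ∫ x, ∑ k ∈ Finset.Ico (2 ^ n) (2 ^ (n + 1)), (J n k).indicator (fun _ => g k) x ∂μ₀ := by
    apply setIntegral_congr_fun measurableSet_Ico
    intro x hx
    exact sum_ind n g hx
  rw [h1, integral_finsetSum]
  · refine Finset.sum_congr rfl fun k hk => ?_
    rw [integral_indicator_const _ (measurableSet_J n k), Measure.real, mu_J hk,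
      ENNReal.toReal_ofReal (by positivity), RCLike.real_smul_eq_coe_mul]
  · intro k _
    exact (integrable_const _).indicator (measurableSet_J n k)

/-- Splitting a dyadic block of indices into children, general version. -/
lemma sum_children' {E : Type*} [AddCommMonoid E] (n : ℕ) (f : ℕ → E) :
    ∑ j ∈ Finset.Ico (2 ^ (n + 1)) (2 ^ (n + 2)), f j
      = ∑ j ∈ Finset.Ico (2 ^ n) (2 ^ (n + 1)), (f (2 * j) + f (2 * j + 1)) := by
  have h : ∀ a b : ℕ, a ≤ b → ∑ j ∈ Finset.Ico (2 * a) (2 * b), f j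
      = ∑ j ∈ Finset.Ico a b, (f (2 * j) + f (2 * j + 1)) := by
    intro a b hab
    induction b, hab using Nat.le_induction with
    | base => simp
    | succ m hm ih =>
      rw [Finset.sum_Ico_succ_top hm, ← ih, show 2 * (m + 1) = 2 * m + 1 + 1 by ring,
        Finset.sum_Ico_succ_top (by omega), Finset.sum_Ico_succ_top (by omega), add_assoc]
  have := h (2 ^ n) (2 ^ (n + 1)) (Nat.pow_le_pow_right (by norm_num) (by omega))
  rw [← this]
  congr 2 <;> ring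

/-- Parseval on trees. -/
lemma parseval {𝕜 : Type*} [RCLike 𝕜] (c c' : ℕ → 𝕜) (n : ℕ) :
    ∑ k ∈ Finset.Ico (2 ^ n) (2 ^ (n + 1)), ((1 / 2 ^ n : ℝ) : 𝕜) * (tree c k * tree c' k)
      = c 0 * c' 0 + ∑ j ∈ Finset.Ico 1 (2 ^ n), ((1 / 2 ^ (Nat.log 2 j) : ℝ) : 𝕜) * (c j * c' j) := by
  induction n with
  | zero => simp [tree_one]
  | succ n ih =>
    have hle : 2 ^ n ≤ 2 ^ (n + 1) := Nat.pow_le_pow_right (by norm_num) (by omega)
    rw [sum_children', ← Finset.sum_Ico_consecutive _ Nat.one_le_two_pow hle, ← add_assoc, ← ih,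
      ← Finset.sum_add_distrib]
    refine Finset.sum_congr rfl fun j hj => ?_
    have hj1 : 1 ≤ j := le_trans Nat.one_le_two_pow (Finset.mem_Ico.1 hj).1
    rw [tree_even _ hj1, tree_even _ hj1, tree_odd _ hj1, tree_odd _ hj1, log_of_mem hj, pow_succ]
    push_cast
    field_simp
    ring

lemma conj_exp {p : ℝ} (hp : 1 < p) (n : ℝ) :
    (2 : ℝ) ^ (n / p) * (2 : ℝ) ^ (n / (p / (p - 1))) = 2 ^ n := by
  rw [← Real.rpow_add two_pos]
  congr 1
  have h1 : p ≠ 0 := by linarith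
  have h2 : p - 1 ≠ 0 := by linarith
  field_simp
  ring

/-- The single coefficient sequence. -/
def single {𝕜 : Type*} [RCLike 𝕜] (j : ℕ) (i : ℕ) : 𝕜 := if i = j then 1 else 0

lemma haar_single {𝕜 : Type*} [RCLike 𝕜] (p : ℝ) {n j : ℕ} (hj : j < 2 ^ n) {x : ℝ}
    (hx : x ∈ Set.Ico (0 : ℝ) 1) :
    (haarFun p j x : 𝕜) = tree (scal p (single (𝕜 := 𝕜) j)) (idx n x) := by
  rw [← haar_sum p _ n hx, Finset.sum_eq_single j]
  · simp [single]
  · intro i _ hi
    simp [single, hi]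
  · intro h
    exact absurd (Finset.mem_range.2 hj) h

/-- Biorthogonality. -/
lemma biorth {𝕜 : Type*} [RCLike 𝕜] {p : ℝ} (hp : 1 < p) (b : ℕ → 𝕜) {n j : ℕ} (hj : j < 2 ^ n) :
    ∫ x, (∑ i ∈ Finset.range (2 ^ n), b i * (haarFun p i x : 𝕜))
      * (haarFun (p / (p - 1)) j x : 𝕜) ∂μ₀ = b j := by
  have h1 : ∫ x, (∑ i ∈ Finset.range (2 ^ n), b i * (haarFun p i x : 𝕜))
      * (haarFun (p / (p - 1)) j x : 𝕜) ∂μ₀
      = ∫ x, (fun k => tree (scal p b) k * tree (scal (p / (p - 1)) (single (𝕜 := 𝕜) j)) k)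
          (idx n x) ∂μ₀ := by
    apply setIntegral_congr_fun measurableSet_Ico
    intro x hx
    simp only
    rw [haar_sum p b n hx, haar_single (p / (p - 1)) hj hx]
  rw [h1, int_idx n (fun k => tree (scal p b) k * tree (scal (p / (p - 1)) (single (𝕜 := 𝕜) j)) k),
    parseval]
  rcases Nat.eq_zero_or_pos j with h0 | h0
  · subst h0
    rw [Finset.sum_eq_zero]
    · simp [scal, single]
    · intro i hi
      have : i ≠ 0 := by have := (Finset.mem_Ico.1 hi).1; omega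
      simp [scal, single, this]
  · rw [Finset.sum_eq_single j]
    · have h2 : j ≠ 0 := by omega
      simp only [scal, single, h2, if_false, if_true, mul_one]
      rw [if_neg (Ne.symm h2), mul_zero, zero_add]
      have h3 := conj_exp hp (Nat.log 2 j : ℝ)
      rw [Real.rpow_natCast] at h3
      have h4 : (((2 : ℝ) ^ ((Nat.log 2 j : ℝ) / p) : ℝ) : 𝕜)
          * (((2 : ℝ) ^ ((Nat.log 2 j : ℝ) / (p / (p - 1))) : ℝ) : 𝕜) = ((2 ^ Nat.log 2 j : ℝ) : 𝕜) := by
        rw [← h3]; push_cast; ring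
      have h5 : ((1 / 2 ^ Nat.log 2 j : ℝ) : 𝕜) * ((2 ^ Nat.log 2 j : ℝ) : 𝕜) = 1 := by
        rw [← RCLike.ofReal_mul]
        rw [one_div_mul_cancel (by positivity)]
        simp
      calc ((1 / 2 ^ Nat.log 2 j : ℝ) : 𝕜) * ((((2 : ℝ) ^ ((Nat.log 2 j : ℝ) / p) : ℝ) : 𝕜) * b j
            * (((2 : ℝ) ^ ((Nat.log 2 j : ℝ) / (p / (p - 1))) : ℝ) : 𝕜))
          = ((1 / 2 ^ Nat.log 2 j : ℝ) : 𝕜) * ((((2 : ℝ) ^ ((Nat.log 2 j : ℝ) / p) : ℝ) : 𝕜)
            * (((2 : ℝ) ^ ((Nat.log 2 j : ℝ) / (p / (p - 1))) : ℝ) : 𝕜)) * b j := by ring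
        _ = b j := by rw [h4, h5, one_mul]
    · intro i hi hne
      have : i ≠ 0 := by have := (Finset.mem_Ico.1 hi).1; omega
      simp [scal, single, this, hne]
    · intro h
      exact absurd (Finset.mem_Ico.2 ⟨h0, hj⟩) h

end H12Haar
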