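import Pool.Agent.H12Haar.Unc

/-!
Lebesgue differentiation along dyadic intervals and the lower norm bound.
-/

open scoped BigOperators ENNReal NNReal Topology
open MeasureTheory Filter

namespace H12Haar

variable {𝕜 : Type*} [RCLike 𝕜]

lemma ae_lim {p : ℝ} (hp : 1 < p) {f : ℝ → 𝕜} (hf : Integrable f μ₀) :
    ∀ᵐ x ∂μ₀, Tendsto (fun n => S p (coeff p f) n x) atTop (𝓝 (f x)) := by
  set g : ℝ → 𝕜 := (Set.Ico (0 : ℝ) 1).indicator f with hg
  have hgi : Integrable g := by
    rw [hg, integrable_indicator_iff measurableSet_Ico]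
    exact hf
  have hae := IsUnifLocDoublingMeasure.ae_tendsto_average (μ := (volume : Measure ℝ))
    hgi.locallyIntegrable 1
  have hae' : ∀ᵐ x ∂μ₀, ∀ {ι : Type} {l : Filter ι} (w : ι → ℝ) (δ : ι → ℝ),
      Tendsto δ l (𝓝[>] 0) → (∀ᶠ j in l, x ∈ Metric.closedBall (w j) (1 * δ j)) →
      Tendsto (fun j => ⨍ y in Metric.closedBall (w j) (δ j), g y) l (𝓝 (g x)) :=
    ae_restrict_of_ae hae
  filter_upwards [hae', ae_restrict_mem measurableSet_Ico] with x hx hx01
  have hgx : g x = f x := by rw [hg, Set.indicator_of_mem hx01]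
  rw [← hgx]
  -- centre and radius
  set a : ℕ → ℝ := fun n => ((idx n x : ℝ) - 2 ^ n) / 2 ^ n with ha
  set δ : ℕ → ℝ := fun n => (1 / 2) ^ (n + 1) with hδ
  set w : ℕ → ℝ := fun n => a n + δ n with hw
  have hball : ∀ n, Metric.closedBall (w n) (δ n) = Set.Icc (a n) (a n + 1 / 2 ^ n) := by
    intro n
    rw [Real.closedBall_eq_Icc]
    have h1 : w n - δ n = a n := by simp [hw]
    have h2 : w n + δ n = a n + 1 / 2 ^ n := by
      simp only [hw, hδ]
      rw [add_assoc]
      congr 1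
      rw [pow_succ, one_div_pow]
      ring
    rw [h1, h2]
  have hJ : ∀ n, J n (idx n x) = Set.Ico (a n) (a n + 1 / 2 ^ n) := by
    intro n
    unfold J
    have : ((idx n x : ℝ) - 2 ^ n + 1) / 2 ^ n = a n + 1 / 2 ^ n := by
      simp only [ha]; rw [add_div]
    rw [this]
  have hmemJ : ∀ n, x ∈ J n (idx n x) := fun n => (mem_J_iff (idx_mem n hx01) x).2 ⟨hx01, rfl⟩
  have hlim := hx w δ (by
    rw [tendsto_nhdsWithin_iff]
    constructor
    · simp only [hδ]
      exact (tendsto_pow_atTop_nhds_zero_of_lt_one (by norm_num) (by norm_num)).comp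
        (tendsto_add_atTop_nat 1)
    · exact Eventually.of_forall fun n => by
        simp only [hδ, Set.mem_Ioi]; positivity) (by
    refine Eventually.of_forall fun n => ?_
    rw [one_mul, hball]
    have := hmemJ n
    rw [hJ] at this
    exact Set.Ico_subset_Icc_self this)
  refine hlim.congr fun n => ?_
  rw [hball, setAverage_eq]
  have hvol : volume.real (Set.Icc (a n) (a n + 1 / 2 ^ n)) = 1 / 2 ^ n := by
    rw [Measure.real, Real.volume_Icc, add_sub_cancel_left, ENNReal.toReal_ofReal (by positivity)]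
  rw [hvol, integral_Icc_eq_integral_Ico, ← hJ]
  have hSx : S p (coeff p f) n x = ((2 ^ n : ℝ) : 𝕜) * ∫ y in J n (idx n x), f y := by
    unfold S
    rw [haar_sum p _ n hx01, tree_coeff hp hf n _ (idx_mem n hx01)]
  rw [hSx, RCLike.real_smul_eq_coe_mul]
  congr 1
  · congr 1
    rw [one_div, inv_inv]
  · apply setIntegral_congr_fun (measurableSet_J _ _)
    intro y hy
    rw [hg, Set.indicator_of_mem (J_subset (idx_mem n hx01) hy)]

/-- Lower bound for the norm through Haar partial sums. -/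
theorem norm_le_of_sums {p : ℝ} (hp : 1 < p) {f : ℝ → 𝕜} (hf : Integrable f μ₀) {R : ℝ≥0∞}
    (hR : ∀ n, ∫⁻ x, ‖S p (coeff p f) n x‖ₑ ^ p ∂μ₀ ≤ R) : ∫⁻ x, ‖f x‖ₑ ^ p ∂μ₀ ≤ R := by
  have hp0 : 0 < p := by linarith
  have h1 : ∫⁻ x, ‖f x‖ₑ ^ p ∂μ₀
      ≤ ∫⁻ x, liminf (fun n => ‖S p (coeff p f) n x‖ₑ ^ p) atTop ∂μ₀ := by
    apply lintegral_mono_ae
    filter_upwards [ae_lim hp hf] with x hx
    have h2 : Tendsto (fun n => ‖S p (coeff p f) n x‖ₑ ^ p) atTop (𝓝 (‖f x‖ₑ ^ p)) := by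
      have h3 := (ENNReal.continuous_rpow_const (y := p)).tendsto ‖f x‖ₑ
      exact h3.comp (hx.enorm)
    rw [h2.liminf_eq]
  refine h1.trans ((lintegral_liminf_le fun n => ((measurable_S p _ n).enorm.pow_const p)).trans ?_)
  refine (liminf_le_liminf (Eventually.of_forall hR)).trans ?_
  simp

end H12Haar
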