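import Pool.Agent.H12Haar.Seq
import Pool.Agent.H12Haar.Leb

/-!
The sequence norm attached to the Haar system.
-/

open scoped BigOperators ENNReal NNReal Topology
open MeasureTheory Filter

namespace H12Haar

/-- The lattice norm of a coefficient sequence. -/
noncomputable def Mh (𝕜 : Type*) [RCLike 𝕜] (p : ℝ) (x : ℕ → ℝ≥0) : ℝ≥0∞ :=
  ⨆ (n : ℕ) (b : ℕ → 𝕜) (_ : ∀ j, ‖b j‖ ≤ x j), (∫⁻ t, ‖S p b n t‖ₑ ^ p ∂μ₀) ^ (1 / p)

variable {𝕜 : Type*} [RCLike 𝕜]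

lemma le_Mh {p : ℝ} {x : ℕ → ℝ≥0} (n : ℕ) (b : ℕ → 𝕜) (hb : ∀ j, ‖b j‖ ≤ x j) :
    (∫⁻ t, ‖S p b n t‖ₑ ^ p ∂μ₀) ^ (1 / p) ≤ Mh 𝕜 p x := by
  unfold Mh
  exact le_iSup_of_le n (le_iSup₂_of_le b hb le_rfl)

lemma Mh_le {p : ℝ} {x : ℕ → ℝ≥0} {R : ℝ≥0∞}
    (h : ∀ (n : ℕ) (b : ℕ → 𝕜), (∀ j, ‖b j‖ ≤ x j) →
      (∫⁻ t, ‖S p b n t‖ₑ ^ p ∂μ₀) ^ (1 / p) ≤ R) : Mh 𝕜 p x ≤ R := by
  unfold Mh
  exact iSup_le fun n => iSup₂_le fun b hb => h n b hb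

lemma k_split (z : 𝕜) {u v : ℝ} (hu : 0 ≤ u) (hv : 0 ≤ v) (h : ‖z‖ ≤ u + v) :
    ∃ a b : 𝕜, z = a + b ∧ ‖a‖ ≤ u ∧ ‖b‖ ≤ v := by
  rcases eq_or_lt_of_le (add_nonneg hu hv) with h0 | h0
  · have hz : z = 0 := norm_le_zero_iff.1 (h.trans h0.ge)
    exact ⟨0, 0, by simp [hz], by simpa using hu, by simpa using hv⟩
  · refine ⟨((u / (u + v) : ℝ) : 𝕜) * z, ((v / (u + v) : ℝ) : 𝕜) * z, ?_, ?_, ?_⟩
    · rw [← add_mul, ← RCLike.ofReal_add, ← add_div, div_self h0.ne']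
      simp
    · rw [norm_mul, RCLike.norm_ofReal, abs_of_nonneg (by positivity)]
      calc u / (u + v) * ‖z‖ ≤ u / (u + v) * (u + v) := by gcongr
        _ = u := div_mul_cancel₀ _ h0.ne'
    · rw [norm_mul, RCLike.norm_ofReal, abs_of_nonneg (by positivity)]
      calc v / (u + v) * ‖z‖ ≤ v / (u + v) * (u + v) := by gcongr
        _ = v := div_mul_cancel₀ _ h0.ne'

lemma S_add (p : ℝ) (b b' : ℕ → 𝕜) (n : ℕ) (x : ℝ) :
    S p (fun j => b j + b' j) n x = S p b n x + S p b' n x := by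
  unfold S
  rw [← Finset.sum_add_distrib]
  exact Finset.sum_congr rfl fun j _ => by ring

lemma S_smul (p : ℝ) (c : 𝕜) (b : ℕ → 𝕜) (n : ℕ) (x : ℝ) :
    S p (fun j => c * b j) n x = c * S p b n x := by
  unfold S
  rw [Finset.mul_sum]
  exact Finset.sum_congr rfl fun j _ => by ring

lemma Mh_mono {p : ℝ} (x y : ℕ → ℝ≥0) (h : x ≤ y) : Mh 𝕜 p x ≤ Mh 𝕜 p y :=
  Mh_le fun n b hb => le_Mh n b fun j => (hb j).trans (by exact_mod_cast h j)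

lemma Mh_add {p : ℝ} (hp : 1 ≤ p) (x y : ℕ → ℝ≥0) :
    Mh 𝕜 p (x + y) ≤ Mh 𝕜 p x + Mh 𝕜 p y := by
  apply Mh_le
  intro n b hb
  have h1 : ∀ j, ∃ a c : 𝕜, b j = a + c ∧ ‖a‖ ≤ x j ∧ ‖c‖ ≤ y j := by
    intro j
    apply k_split _ (x j).2 (y j).2
    have := hb j
    simpa using this
  choose a c hac ha hc using h1
  have hb' : b = fun j => a j + c j := funext hac
  have hp0 : 0 < p := by linarith
  have h2 : ∫⁻ t, ‖S p b n t‖ₑ ^ p ∂μ₀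
      ≤ ∫⁻ t, ((fun t => ‖S p a n t‖ₑ) + fun t => ‖S p c n t‖ₑ) t ^ p ∂μ₀ := by
    apply lintegral_mono
    intro t
    simp only [Pi.add_apply]
    rw [hb', S_add]
    exact ENNReal.rpow_le_rpow (enorm_add_le _ _) hp0.le
  calc (∫⁻ t, ‖S p b n t‖ₑ ^ p ∂μ₀) ^ (1 / p)
      ≤ (∫⁻ t, ((fun t => ‖S p a n t‖ₑ) + fun t => ‖S p c n t‖ₑ) t ^ p ∂μ₀) ^ (1 / p) :=
        ENNReal.rpow_le_rpow h2 (by positivity)
    _ ≤ (∫⁻ t, ‖S p a n t‖ₑ ^ p ∂μ₀) ^ (1 / p) + (∫⁻ t, ‖S p c n t‖ₑ ^ p ∂μ₀) ^ (1 / p) :=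
        ENNReal.lintegral_Lp_add_le (measurable_S p a n).enorm.aemeasurable
          (measurable_S p c n).enorm.aemeasurable hp
    _ ≤ _ := add_le_add (le_Mh n a ha) (le_Mh n c hc)

lemma Mh_smul_le {p : ℝ} (hp : 0 < p) {c : ℝ≥0} (hc : 0 < c) (x : ℕ → ℝ≥0) :
    Mh 𝕜 p (c • x) ≤ c * Mh 𝕜 p x := by
  apply Mh_le
  intro n b hb
  have hc' : (0 : ℝ) < c := hc
  set b' : ℕ → 𝕜 := fun j => (((c : ℝ)⁻¹ : ℝ) : 𝕜) * b j with hb'
  have hcne : ((c : ℝ) : 𝕜) ≠ 0 := by exact_mod_cast hc'.ne'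
  have hbb : b = fun j => ((c : ℝ) : 𝕜) * b' j := by
    funext j
    rw [hb', RCLike.ofReal_inv]
    field_simp
  have hb'n : ∀ j, ‖b' j‖ ≤ x j := by
    intro j
    rw [hb', norm_mul, RCLike.norm_ofReal, abs_of_pos (by positivity)]
    have := hb j
    simp only [Pi.smul_apply, smul_eq_mul, NNReal.coe_mul] at this
    rw [inv_mul_le_iff₀ hc']
    exact this
  have h1 : ∀ t, ‖S p b n t‖ₑ ^ p = (c : ℝ≥0∞) ^ p * ‖S p b' n t‖ₑ ^ p := by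
    intro t
    rw [hbb, S_smul, enorm_mul, ENNReal.mul_rpow_of_nonneg _ _ hp.le]
    congr 2
    rw [← ofReal_norm, RCLike.norm_ofReal, abs_of_pos hc', ENNReal.ofReal_coe_nnreal]
  simp only [h1]
  rw [lintegral_const_mul _ ((measurable_S p b' n).enorm.pow_const p),
    ENNReal.mul_rpow_of_nonneg _ _ (by positivity), ← ENNReal.rpow_mul,
    mul_one_div_cancel hp.ne', ENNReal.rpow_one]
  gcongr
  exact le_Mh n b' hb'n

lemma Mh_smul {p : ℝ} (hp : 0 < p) (c : ℝ≥0) (x : ℕ → ℝ≥0) :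
    Mh 𝕜 p (c • x) = c * Mh 𝕜 p x := by
  rcases eq_or_lt_of_le (zero_le : 0 ≤ c) with h0 | h0
  · rw [← h0]
    simp only [zero_smul, ENNReal.coe_zero, zero_mul]
    apply le_antisymm _ zero_le
    apply Mh_le
    intro n b hb
    have hb0 : ∀ j, b j = 0 := fun j => norm_le_zero_iff.1 (by simpa using hb j)
    have : ∀ t, S p b n t = 0 := by
      intro t; unfold S; simp [hb0]
    simp [this, hp]
  · apply le_antisymm (Mh_smul_le hp h0 x)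
    have h := Mh_smul_le (𝕜 := 𝕜) hp (inv_pos.2 h0) (c • x)
    rw [smul_smul, inv_mul_cancel₀ h0.ne', one_smul] at h
    calc (c : ℝ≥0∞) * Mh 𝕜 p x ≤ c * ((c⁻¹ : ℝ≥0) * Mh 𝕜 p (c • x)) := by gcongr
      _ = Mh 𝕜 p (c • x) := by
        rw [← mul_assoc, ← ENNReal.coe_mul, mul_inv_cancel₀ h0.ne', ENNReal.coe_one, one_mul]

/-- Two sided democracy estimate. -/
lemma Mh_dem {p : ℝ} (hp : 1 < p) : ∃ K L : ℝ≥0, 1 ≤ K ∧ 1 ≤ L ∧ ∀ A : Finset ℕ,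
    Mh 𝕜 p (ind A) ≤ K * (A.card : ℝ≥0∞) ^ (1 / p) ∧
    (A.card : ℝ≥0∞) ^ (1 / p) ≤ L * Mh 𝕜 p (ind A) := by
  have hp0 : 0 < p := by linarith
  obtain ⟨K, hK, hup⟩ := dem_upper (𝕜 := 𝕜) hp0
  obtain ⟨L, hL, hlow⟩ := dem_lower (𝕜 := 𝕜) hp
  refine ⟨K.toNNReal, L.toNNReal, ?_, ?_, ?_⟩
  · rw [← Real.toNNReal_one]; exact Real.toNNReal_le_toNNReal hK
  · rw [← Real.toNNReal_one]; exact Real.toNNReal_le_toNNReal hL
  intro A
  constructor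
  · apply Mh_le
    intro n b hb
    have hb' : ∀ j, ‖b j‖ ≤ if j ∈ A then 1 else 0 := by
      intro j
      refine (hb j).trans (le_of_eq ?_)
      unfold ind
      split_ifs <;> simp
    calc (∫⁻ t, ‖S p b n t‖ₑ ^ p ∂μ₀) ^ (1 / p)
        ≤ (ENNReal.ofReal (K ^ p) * A.card) ^ (1 / p) :=
          ENNReal.rpow_le_rpow (hup A b hb' n) (by positivity)
      _ = ENNReal.ofReal K * (A.card : ℝ≥0∞) ^ (1 / p) := by
          rw [ENNReal.mul_rpow_of_nonneg _ _ (by positivity),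
            ENNReal.ofReal_rpow_of_nonneg (by positivity) (by positivity),
            ← Real.rpow_mul (by linarith), mul_one_div_cancel hp0.ne', Real.rpow_one]
  · obtain ⟨n, hn⟩ : ∃ n, ∀ j ∈ A, j < 2 ^ n := by
      refine ⟨A.sup id, fun j hj => ?_⟩
      exact lt_of_le_of_lt (Finset.le_sup (f := id) hj) Nat.lt_two_pow_self
    refine (hlow A n hn).trans ?_
    have : (ENNReal.ofReal L) = ((L.toNNReal : ℝ≥0) : ℝ≥0∞) := rfl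
    rw [this]
    gcongr
    apply le_Mh
    intro j
    unfold ind
    split_ifs <;> simp

lemma isSeqNorm_Mh {p : ℝ} (hp : 1 < p) : ∃ D : ℝ≥0, 1 ≤ D ∧ IsSeqNorm (Mh 𝕜 p) D := by
  have hp0 : 0 < p := by linarith
  obtain ⟨K, L, hK, hL, h⟩ := Mh_dem (𝕜 := 𝕜) hp
  refine ⟨K * L, one_le_mul hK hL, Mh_mono, Mh_add hp.le, Mh_smul hp0, ?_⟩
  intro A B hAB
  calc Mh 𝕜 p (ind A) ≤ K * (A.card : ℝ≥0∞) ^ (1 / p) := (h A).1
    _ ≤ K * (B.card : ℝ≥0∞) ^ (1 / p) := by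
        gcongr
    _ ≤ K * (L * Mh 𝕜 p (ind B)) := by
        gcongr
        exact (h B).2
    _ = _ := by push_cast; ring

/-- Sequences of finite norm have finite level sets. -/
lemma fin0_of_finite {p : ℝ} (hp : 1 < p) {x : ℕ → ℝ≥0} (hx : Mh 𝕜 p x ≠ ∞) : Fin0 x := by
  have hp0 : 0 < p := by linarith
  obtain ⟨K, L, hK, hL, h⟩ := Mh_dem (𝕜 := 𝕜) hp
  intro t ht
  by_contra hinf
  have hinf' : (Lev x t).Infinite := hinf
  have hbound : ∀ N : ℕ, (N : ℝ≥0∞) ^ (1 / p) ≤ L * ((t⁻¹ : ℝ≥0) * Mh 𝕜 p x) := by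
    intro N
    obtain ⟨A, hA, hAc⟩ := hinf'.exists_subset_card_eq N
    have h1 : t * Mh 𝕜 p (ind A) ≤ Mh 𝕜 p x := by
      rw [← Mh_smul hp0]
      apply Mh_mono
      intro j
      simp only [ind, Pi.smul_apply, smul_eq_mul]
      split_ifs with hj
      · rw [mul_one]; exact hA hj
      · simp
    have h2 := (h A).2
    rw [hAc] at h2
    refine h2.trans ?_
    gcongr
    calc Mh 𝕜 p (ind A) = (t⁻¹ : ℝ≥0) * (t * Mh 𝕜 p (ind A)) := by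
          rw [← mul_assoc, ← ENNReal.coe_mul, inv_mul_cancel₀ ht.ne', ENNReal.coe_one, one_mul]
      _ ≤ _ := by gcongr
  set R : ℝ≥0∞ := L * ((t⁻¹ : ℝ≥0) * Mh 𝕜 p x) with hR
  have hRt : R ≠ ∞ := ENNReal.mul_ne_top ENNReal.coe_ne_top
    (ENNReal.mul_ne_top ENNReal.coe_ne_top hx)
  have hRp : R ^ p ≠ ∞ := ENNReal.rpow_ne_top_of_nonneg hp0.le hRt
  obtain ⟨N, hN⟩ := ENNReal.exists_nat_gt hRp
  have h1 := ENNReal.rpow_le_rpow (hbound N) hp0.le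
  rw [← ENNReal.rpow_mul, one_div_mul_cancel hp0.ne', ENNReal.rpow_one] at h1
  exact absurd hN (not_lt.2 h1)

end H12Haar
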