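import Pool.Agent.H12Haar.Final

/-!
An equivalent `s`-norm on `L_p[0,1]` for which the Haar system is `1`-greedy.
-/

open scoped BigOperators Topology
open MeasureTheory Filter

namespace H12Haar.SNormLp

/-- Lebesgue measure on `[0,1]`. -/
noncomputable def mu01 : Measure ℝ := volume.restrict (Set.Icc (0 : ℝ) 1)

/-- For `j = 2^n + k` with `0 ≤ k < 2^n` this is the point `(k + t)/2^n`. -/
noncomputable def dyad (j : ℕ) (t : ℝ) : ℝ :=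
  (((j - 2 ^ Nat.log 2 j : ℕ) : ℝ) + t) / 2 ^ Nat.log 2 j

/-- The number `2^(n/p)`, where `2^n ≤ j < 2^(n+1)`. -/
noncomputable def amp (p : ℝ) (j : ℕ) : ℝ := (2 : ℝ) ^ ((Nat.log 2 j : ℝ) / p)

/-- The `j`-th Haar function, normalised in `L_p`. For `j = 0` it is the indicator of `[0,1)`; for
`j = 2^n + k` with `0 ≤ k < 2^n` it is `2^(n/p)` on `[k/2^n, (k+1/2)/2^n)`, `-2^(n/p)` on
`[(k+1/2)/2^n, (k+1)/2^n)` and `0` elsewhere. -/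
noncomputable def haarFun (p : ℝ) (j : ℕ) (x : ℝ) : ℝ :=
  if j = 0 then (if 0 ≤ x ∧ x < 1 then 1 else 0)
  else if dyad j 0 ≤ x ∧ x < dyad j (1 / 2) then amp p j
  else if dyad j (1 / 2) ≤ x ∧ x < dyad j 1 then -amp p j
  else 0

/-- The space `L_p[0,1]`. -/
def Lp01 (𝕜 : Type*) [RCLike 𝕜] (p : ℝ) : Type _ := Lp 𝕜 (ENNReal.ofReal p) mu01

noncomputable instance (𝕜 : Type*) [RCLike 𝕜] (p : ℝ) : AddCommGroup (Lp01 𝕜 p) :=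
  (inferInstance : AddCommGroup (Lp 𝕜 (ENNReal.ofReal p) mu01))

noncomputable instance (𝕜 : Type*) [RCLike 𝕜] (p : ℝ) : Module 𝕜 (Lp01 𝕜 p) :=
  (inferInstance : Module 𝕜 (Lp 𝕜 (ENNReal.ofReal p) mu01))

noncomputable instance (𝕜 : Type*) [RCLike 𝕜] (p : ℝ) : Norm (Lp01 𝕜 p) :=
  (inferInstance : Norm (Lp 𝕜 (ENNReal.ofReal p) mu01))

lemma haarFun_eq_helper : haarFun = H12Haar.haarFun := by
  funext p j x
  unfold haarFun H12Haar.haarFun dyad amp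
  rw [add_zero]

lemma memLp_haar (𝕜 : Type*) [RCLike 𝕜] (p : ℝ) (j : ℕ) :
    MemLp (fun x => (haarFun p j x : 𝕜)) (ENNReal.ofReal p) mu01 := by
  rw [haarFun_eq_helper]
  exact H12Haar.Fin.memLp_haar 𝕜 p j

/-- The `j`-th Haar function as an element of `L_p[0,1]`. -/
noncomputable def haar (𝕜 : Type*) [RCLike 𝕜] (p : ℝ) (j : ℕ) : Lp01 𝕜 p :=
  (memLp_haar 𝕜 p j).toLp _

/-- The finite sum `∑_{j ∈ A} a_j h_j`. -/
noncomputable def haarSum {𝕜 : Type*} [RCLike 𝕜] (p : ℝ) (A : Finset ℕ) (a : ℕ → 𝕜) : Lp01 𝕜 p :=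
  ∑ j ∈ A, a j • haar 𝕜 p j

/-- `f = ∑ a_j h_j`: the partial sums `∑_{j < m} a_j h_j` converge to `f` in the norm of
`L_p[0,1]`. -/
def HasExpansion {𝕜 : Type*} [RCLike 𝕜] (p : ℝ) (f : Lp01 𝕜 p) (a : ℕ → 𝕜) : Prop :=
  Tendsto (fun m => ‖f - haarSum p (Finset.range m) a‖) atTop (𝓝 0)

/-- `Φ` is an `s`-norm on `L_p[0,1]`, equivalent to the usual norm. -/
def IsEquivSNorm {𝕜 : Type*} [RCLike 𝕜] (p s : ℝ) (Φ : Lp01 𝕜 p → ℝ) : Prop :=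
  (∀ f, 0 ≤ Φ f) ∧ (∀ f, Φ f = 0 ↔ f = 0) ∧ (∀ (c : 𝕜) f, Φ (c • f) = ‖c‖ * Φ f) ∧
  (∀ f g, Φ (f + g) ^ s ≤ Φ f ^ s + Φ g ^ s) ∧
  ∃ c C : ℝ, 0 < c ∧ 0 < C ∧ ∀ f, c * ‖f‖ ≤ Φ f ∧ Φ f ≤ C * ‖f‖

/-- The Haar system is a basis of `L_p[0,1]` and it is `1`-greedy with respect to `Φ`. -/
def IsOneGreedy {𝕜 : Type*} [RCLike 𝕜] (p : ℝ) (Φ : Lp01 𝕜 p → ℝ) : Prop :=
  (∀ f : Lp01 𝕜 p, ∃! a : ℕ → 𝕜, HasExpansion p f a) ∧
  ∀ (f : Lp01 𝕜 p) (a : ℕ → 𝕜), HasExpansion p f a →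
    ∀ A : Finset ℕ, A.Nonempty → (∀ i ∈ A, ∀ j ∉ A, ‖a j‖ ≤ ‖a i‖) →
      ∀ (B : Finset ℕ) (b : ℕ → 𝕜), B.card ≤ A.card →
        Φ (f - haarSum p A a) ≤ Φ (f - haarSum p B b)

lemma haar_eq (𝕜 : Type*) [RCLike 𝕜] (p : ℝ) (j : ℕ) : haar 𝕜 p j = H12Haar.Fin.haar 𝕜 p j := by
  unfold haar H12Haar.Fin.haar
  congr 1
  rw [haarFun_eq_helper]

/-- For every `1 < p < ∞`, over the real and over the complex scalars, there are `0 < s < 1` and an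
`s`-norm on `L_p[0,1]`, equivalent to the usual norm, for which the Haar system is `1`-greedy. -/
theorem snorm_lp (𝕜 : Type*) [RCLike 𝕜] (p : ℝ) (hp : 1 < p) :
    ∃ s : ℝ, 0 < s ∧ s < 1 ∧ ∃ Φ : Lp01 𝕜 p → ℝ, IsEquivSNorm p s Φ ∧ IsOneGreedy p Φ := by
  obtain ⟨s, hs0, hs1, Φ, hΦ, h1, h2⟩ := H12Haar.Fin.final 𝕜 p hp
  have hE : ∀ (f : Lp01 𝕜 p) (a : ℕ → 𝕜), HasExpansion p f a ↔ H12Haar.Fin.HasExpansion p f a := by
    intro f a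
    unfold HasExpansion H12Haar.Fin.HasExpansion haarSum
    simp only [haar_eq]
    exact Iff.rfl
  refine ⟨s, hs0, hs1, Φ, hΦ, ?_, ?_⟩
  · intro f
    simp only [hE]
    exact h1 f
  · intro f a ha A hA hmin B b hcard
    have := h2 f a ((hE f a).1 ha) A hA hmin B b hcard
    unfold haarSum
    simp only [haar_eq]
    exact this

end H12Haar.SNormLp
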