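import Mathlib

/-!
Sequence level: from a lattice norm with the democracy property to an `s`-norm with the greedy
exchange property.
-/

open scoped ENNReal NNReal

namespace H12Haar

variable {ι : Type*} [DecidableEq ι]

/-- The sequence equal to `t` on `B`, to `x` off `B` where `x < t`, and to `0` elsewhere. -/
noncomputable def U (x : ι → ℝ≥0) (t : ℝ≥0) (B : Finset ι) : ι → ℝ≥0 := fun j =>
  if j ∈ B then t else if x j < t then x j else 0

/-- The level set. -/
def Lev (x : ι → ℝ≥0) (t : ℝ≥0) : Set ι := {j | t ≤ x j}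

/-- Indicator sequence. -/
def ind (A : Finset ι) : ι → ℝ≥0 := fun j => if j ∈ A then 1 else 0

/-- Sequences all of whose level sets are finite. -/
def Fin0 (x : ι → ℝ≥0) : Prop := ∀ t : ℝ≥0, 0 < t → (Lev x t).Finite

/-- Lattice norms on sequences with the democracy property. -/
structure IsSeqNorm (M : (ι → ℝ≥0) → ℝ≥0∞) (D : ℝ≥0) : Prop where
  mono : ∀ x y, x ≤ y → M x ≤ M y
  add : ∀ x y, M (x + y) ≤ M x + M y
  smul : ∀ (c : ℝ≥0) (x : ι → ℝ≥0), M (c • x) = c * M x
  dem : ∀ A B : Finset ι, A.card ≤ B.card → M (ind A) ≤ D * M (ind B)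

/-- The greedy functional. -/
noncomputable def N (M : (ι → ℝ≥0) → ℝ≥0∞) (x : ι → ℝ≥0) : ℝ≥0∞ :=
  ⨆ (t : ℝ≥0) (_ : 0 < t) (B : Finset ι) (_ : B.card ≤ (Lev x t).ncard), M (U x t B)

variable {M : (ι → ℝ≥0) → ℝ≥0∞} {D : ℝ≥0}

omit [DecidableEq ι] in
lemma Fin0.mono {x y : ι → ℝ≥0} (hy : Fin0 y) (h : x ≤ y) : Fin0 x := fun t ht =>
  (hy t ht).subset fun _ hj => le_trans hj (h _)

omit [DecidableEq ι] in
lemma Fin0.bdd {x : ι → ℝ≥0} (hx : Fin0 x) : ∃ T : ℝ≥0, 0 < T ∧ ∀ j, x j < T := by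
  have h1 := hx 1 one_pos
  obtain ⟨S, hS⟩ := (h1.image x).bddAbove
  refine ⟨S + 1 + 1, by positivity, fun j => ?_⟩
  by_cases hj : 1 ≤ x j
  · have : x j ≤ S := hS ⟨j, hj, rfl⟩
    calc x j ≤ S := this
      _ < S + 1 + 1 := by
        rw [add_assoc]
        exact lt_add_of_pos_right _ (by positivity)
  · push Not at hj
    calc x j < 1 := hj
      _ ≤ S + 1 + 1 := by
        exact le_add_self

lemma le_N (t : ℝ≥0) (ht : 0 < t) (x : ι → ℝ≥0) (B : Finset ι)
    (hB : B.card ≤ (Lev x t).ncard) : M (U x t B) ≤ N M x := by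
  unfold N
  exact le_iSup₂_of_le t ht (le_iSup₂_of_le B hB le_rfl)

lemma N_le_of {x : ι → ℝ≥0} {R : ℝ≥0∞}
    (h : ∀ t : ℝ≥0, 0 < t → ∀ B : Finset ι, B.card ≤ (Lev x t).ncard → M (U x t B) ≤ R) :
    N M x ≤ R := by
  unfold N
  exact iSup₂_le fun t ht => iSup₂_le fun B hB => h t ht B hB

lemma M_le_N {x : ι → ℝ≥0} (hx : Fin0 x) : M x ≤ N M x := by
  obtain ⟨T, hT, h⟩ := hx.bdd
  have : U x T ∅ = x := by
    funext j
    simp [U, h j]
  conv_lhs => rw [← this]
  exact le_N T hT x ∅ (by simp)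

lemma N_le (hM : IsSeqNorm M D) {x : ι → ℝ≥0} (hx : Fin0 x) : N M x ≤ (1 + D) * M x := by
  apply N_le_of
  intro t ht B hB
  have h1 : U x t B ≤ x + t • ind B := by
    intro j
    simp only [U, ind, Pi.add_apply, Pi.smul_apply, smul_eq_mul]
    by_cases hj : j ∈ B
    · simp [hj]
    · simp only [hj, if_false]
      split_ifs <;> simp
  have hfin := hx t ht
  have h2 : M (ind B) ≤ D * M (ind hfin.toFinset) := by
    apply hM.dem
    rwa [← Set.ncard_eq_toFinset_card _ hfin]
  have h3 : t * M (ind hfin.toFinset) ≤ M x := by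
    rw [← hM.smul]
    apply hM.mono
    intro j
    simp only [ind, Pi.smul_apply, smul_eq_mul, Set.Finite.mem_toFinset]
    split_ifs with h
    · rw [mul_one]
      exact hfin.mem_toFinset.1 h
    · simp
  calc M (U x t B) ≤ M (x + t • ind B) := hM.mono _ _ h1
    _ ≤ M x + M (t • ind B) := hM.add _ _
    _ = M x + t * M (ind B) := by rw [hM.smul]
    _ ≤ M x + t * (D * M (ind hfin.toFinset)) := by gcongr
    _ = M x + D * (t * M (ind hfin.toFinset)) := by ring
    _ ≤ M x + D * M x := by gcongr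
    _ = (1 + D) * M x := by ring

lemma N_mono (hM : IsSeqNorm M D) {x y : ι → ℝ≥0} (hy : Fin0 y) (h : x ≤ y) :
    N M x ≤ N M y := by
  apply N_le_of
  intro t ht B hB
  have hfin := hy t ht
  have hsub : Lev x t ⊆ Lev y t := fun j hj => le_trans hj (h j)
  have hfx := hfin.subset hsub
  let B' : Finset ι := B ∪ (hfin.toFinset \ hfx.toFinset)
  have hcard : B'.card ≤ (Lev y t).ncard := by
    rw [Set.ncard_eq_toFinset_card _ hfin]
    rw [Set.ncard_eq_toFinset_card _ hfx] at hB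
    have hs : hfx.toFinset ⊆ hfin.toFinset := by
      intro j hj
      simp only [Set.Finite.mem_toFinset] at hj ⊢
      exact hsub hj
    have := Finset.card_sdiff_add_card_eq_card hs
    calc B'.card ≤ B.card + (hfin.toFinset \ hfx.toFinset).card := Finset.card_union_le _ _
      _ ≤ _ := by omega
  refine le_trans (hM.mono _ _ ?_) (le_N t ht y B' hcard)
  intro j
  have hB' : j ∈ B' ↔ j ∈ B ∨ (t ≤ y j ∧ ¬ t ≤ x j) := by
    simp only [B', Finset.mem_union, Finset.mem_sdiff, Set.Finite.mem_toFinset, Lev,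
      Set.mem_ofPred_eq]
  simp only [U]
  by_cases hjB : j ∈ B
  · have : j ∈ B' := hB'.2 (Or.inl hjB)
    simp [hjB, this]
  · by_cases hj' : j ∈ B'
    · simp only [hjB, hj', if_true, if_false]
      split_ifs with h1
      · exact h1.le
      · simp
    · simp only [hjB, hj', if_false]
      rw [hB'] at hj'
      push Not at hj'
      by_cases h1 : x j < t
      · have h2 : y j < t := by
          by_contra hcon
          push Not at hcon
          exact absurd (hj'.2 hcon) (not_le.2 h1)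
        simp only [h1, h2, if_true]
        exact h j
      · simp [h1]

/-- Sequence equal to `α` on `A` and `x` elsewhere. -/
def put (x : ι → ℝ≥0) (α : ℝ≥0) (A : Finset ι) : ι → ℝ≥0 := fun j => if j ∈ A then α else x j

lemma exchange (hM : IsSeqNorm M D) {x : ι → ℝ≥0} (hx : Fin0 x) {α : ℝ≥0} (hα : 0 < α)
    (hxα : ∀ j, x j ≤ α) {A A' : Finset ι} (hA : ∀ j ∈ A, x j = 0) (hA' : ∀ j ∈ A', x j = 0)
    (hcard : A.card ≤ A'.card) : N M (put x α A) ≤ N M (put x α A') := by
  have hlev : ∀ (C : Finset ι) (_ : ∀ j ∈ C, x j = 0) (t : ℝ≥0) (ht : 0 < t) (_ : t ≤ α),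
      Lev (put x α C) t = ↑((hx t ht).toFinset ∪ C) ∧
        Disjoint (hx t ht).toFinset C := by
    intro C hC t ht htα
    constructor
    · ext j
      simp only [Lev, put, Set.mem_ofPred_eq, Finset.coe_union, Set.Finite.coe_toFinset,
        Set.mem_union, Finset.mem_coe]
      by_cases hj : j ∈ C
      · simp [hj, htα]
      · simp [hj]
    · rw [Finset.disjoint_left]
      intro j hj hjC
      simp only [Set.Finite.mem_toFinset, Lev, Set.mem_ofPred_eq] at hj
      rw [hC j hjC] at hj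
      exact absurd hj (not_le.2 ht)
  have hnc : ∀ (C : Finset ι) (_ : ∀ j ∈ C, x j = 0) (t : ℝ≥0) (ht : 0 < t) (_ : t ≤ α),
      (Lev (put x α C) t).ncard = (hx t ht).toFinset.card + C.card := by
    intro C hC t ht htα
    obtain ⟨h1, h2⟩ := hlev C hC t ht htα
    rw [h1, Set.ncard_coe_finset, Finset.card_union_of_disjoint h2]
  apply N_le_of
  intro t ht B hB
  by_cases htα : t ≤ α
  · refine le_trans (hM.mono _ _ ?_) (le_N t ht _ B ?_)
    · intro j
      simp only [U]
      by_cases hjB : j ∈ B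
      · simp [hjB]
      · simp only [hjB, if_false, put]
        by_cases hjA : j ∈ A
        · simp [hjA, not_lt.2 htα]
        · by_cases hjA' : j ∈ A'
          · simp [hjA, hjA', hA' j hjA', ht]
          · simp [hjA, hjA']
    · rw [hnc A hA t ht htα] at hB
      rw [hnc A' hA' t ht htα]
      omega
  · push Not at htα
    have hempty : Lev (put x α A) t = ∅ := by
      ext j
      simp only [Lev, put, Set.mem_ofPred_eq, Set.mem_empty_iff_false, iff_false, not_le]
      split_ifs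
      · exact htα
      · exact lt_of_le_of_lt (hxα j) htα
    rw [hempty, Set.ncard_empty, Nat.le_zero, Finset.card_eq_zero] at hB
    subst hB
    refine le_trans (hM.mono _ _ ?_) (le_N α hα _ ((hx α hα).toFinset ∪ A) ?_)
    · intro j
      simp only [U, Finset.notMem_empty, if_false, put, Finset.mem_union, Set.Finite.mem_toFinset,
        Lev, Set.mem_ofPred_eq]
      by_cases hjA : j ∈ A
      · simp [hjA, htα]
      · by_cases hxj : α ≤ x j
        · simp only [hjA, hxj, if_false, true_or, if_true]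
          split_ifs
          · exact hxα j
          · simp
        · have hxj' := not_le.1 hxj
          by_cases hjA' : j ∈ A'
          · simp [hjA, hA' j hjA', hjA']
          · simp [hjA, hxj', hxj, hjA', hxj'.trans htα]
    · rw [hnc A' hA' α hα le_rfl]
      calc ((hx α hα).toFinset ∪ A).card ≤ (hx α hα).toFinset.card + A.card :=
            Finset.card_union_le _ _
        _ ≤ _ := by omega

lemma N_smul_le (hM : IsSeqNorm M D) {c : ℝ≥0} (hc : 0 < c) (x : ι → ℝ≥0) :
    N M (c • x) ≤ c * N M x := by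
  apply N_le_of
  intro t ht B hB
  have hlev : Lev (c • x) t = Lev x (c⁻¹ * t) := by
    ext j
    simp only [Lev, Pi.smul_apply, smul_eq_mul, Set.mem_ofPred_eq]
    rw [inv_mul_le_iff₀ hc]
  have hU : U (c • x) t B = c • U x (c⁻¹ * t) B := by
    funext j
    have h1 : c * (c⁻¹ * t) = t := by
      rw [← mul_assoc, mul_inv_cancel₀ hc.ne', one_mul]
    simp only [U, Pi.smul_apply, smul_eq_mul]
    have h2 : (c * x j < t) ↔ (x j < c⁻¹ * t) := by
      rw [lt_inv_mul_iff₀ hc]
    simp only [h2]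
    split_ifs
    · exact h1.symm
    · rfl
    · simp
  rw [hU, hM.smul]
  gcongr
  exact le_N _ (by positivity) x B (by rwa [← hlev])

lemma N_smul (hM : IsSeqNorm M D) {c : ℝ≥0} (hc : 0 < c) (x : ι → ℝ≥0) :
    N M (c • x) = c * N M x := by
  apply le_antisymm (N_smul_le hM hc x)
  have h := N_smul_le hM (inv_pos.2 hc) (c • x)
  rw [smul_smul, inv_mul_cancel₀ hc.ne', one_smul] at h
  calc (c : ℝ≥0∞) * N M x ≤ c * ((c⁻¹ : ℝ≥0) * N M (c • x)) := by gcongr
    _ = N M (c • x) := by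
      rw [← mul_assoc, ← ENNReal.coe_mul, mul_inv_cancel₀ hc.ne', ENNReal.coe_one, one_mul]

lemma N_zero (hM : IsSeqNorm M D) : N M (0 : ι → ℝ≥0) = 0 := by
  have h0 : M (0 : ι → ℝ≥0) = 0 := by
    have := hM.smul 0 (0 : ι → ℝ≥0)
    simpa using this
  apply le_antisymm _ zero_le
  apply N_le_of
  intro t ht B hB
  have : Lev (0 : ι → ℝ≥0) t = ∅ := by
    ext j
    simp [Lev, ht.ne']
  rw [this, Set.ncard_empty, Nat.le_zero, Finset.card_eq_zero] at hB
  subst hB
  have : U (0 : ι → ℝ≥0) t ∅ = 0 := by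
    funext j
    simp [U]
  rw [this, h0]

lemma holder (hM : IsSeqNorm M D) {x y z : ι → ℝ≥0} (hx : Fin0 x)
    (hz : Fin0 z) (hle : z ≤ x + y) {ρ σ : ℝ≥0} (hρ : 0 < ρ) (hσ : 2⁻¹ ≤ σ) (hs : σ + ρ = 1) :
    N M z ≤ N M x + 2 * D * ρ * M x + (D * (ρ⁻¹ : ℝ≥0) + 1) * M y := by
  have hσ0 : 0 < σ := lt_of_lt_of_le (by positivity) hσ
  apply N_le_of
  intro t ht B hB
  have ht' : 0 < σ * t := mul_pos hσ0 ht
  have htt : σ * t + ρ * t = t := by rw [← add_mul, hs, one_mul]
  set S := (hz t ht).toFinset with hS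
  set S' := (hx (σ * t) ht').toFinset with hS'
  have mS : ∀ j, j ∈ S ↔ t ≤ z j := fun j => by
    simp only [hS, Set.Finite.mem_toFinset, Lev, Set.mem_ofPred_eq]
  have mS' : ∀ j, j ∈ S' ↔ σ * t ≤ x j := fun j => by
    simp only [hS', Set.Finite.mem_toFinset, Lev, Set.mem_ofPred_eq]
  rw [Set.ncard_eq_toFinset_card _ (hz t ht), ← hS] at hB
  have hJS : (S ∩ S').card + (S \ S').card = S.card := Finset.card_inter_add_card_sdiff _ _
  have hJS' : (S ∩ S').card + (S' \ S).card = S'.card := by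
    rw [Finset.inter_comm]; exact Finset.card_inter_add_card_sdiff _ _
  obtain ⟨B0, hB0B, hB0c⟩ := Finset.exists_subset_card_eq (min_le_left B.card (S ∩ S').card)
  have hBB0 : (B \ B0).card ≤ (S \ S').card := by
    have := Finset.card_sdiff_add_card_eq_card hB0B
    rw [hB0c] at this
    rcases le_total B.card (S ∩ S').card with h | h
    · rw [min_eq_left h] at this; omega
    · rw [min_eq_right h] at this; omega
  have hB0' : B0.card ≤ (S ∩ S').card := by rw [hB0c]; exact min_le_right _ _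
  have hB'c : (B0 ∪ (S' \ S)).card ≤ S'.card := by
    have := Finset.card_union_le B0 (S' \ S)
    omega
  have hdom : U z t B ≤
      U x (σ * t) (B0 ∪ (S' \ S)) + (ρ * t) • ind (B0 ∪ (S' \ S)) + t • ind (B \ B0) + y := by
    intro j
    have key : ∀ (a b c d e : ℝ≥0), e ≤ a + b → e ≤ a + b + c + d := fun a b c d e h =>
      h.trans (by rw [add_assoc]; exact le_self_add)
    simp only [Pi.add_apply, Pi.smul_apply, smul_eq_mul]
    by_cases hjB : j ∈ B
    · by_cases hj0 : j ∈ B0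
      · simp only [U, ind, hjB, hj0, if_true, Finset.mem_union, true_or, mul_one]
        apply key
        exact htt.ge
      · simp only [U, ind, hjB, hj0, if_true, Finset.mem_sdiff, not_false_eq_true, and_self,
          mul_one]
        refine le_trans ?_ (le_self_add)
        exact le_add_self
    · have e1 : U z t B j = if z j < t then z j else 0 := by simp [U, hjB]
      rw [e1]
      split_ifs with hzj
      · by_cases hjB' : j ∈ B0 ∪ (S' \ S)
        · simp only [U, ind, hjB', if_true, mul_one]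
          apply key
          rw [htt]
          exact hzj.le
        · have hxj : x j < σ * t := by
            by_contra hcon
            push Not at hcon
            apply hjB'
            rw [Finset.mem_union, Finset.mem_sdiff]
            right
            exact ⟨(mS' j).2 hcon, fun h => absurd ((mS j).1 h) (not_le.2 hzj)⟩
          simp only [U, hjB', if_false, hxj, if_true]
          refine (hle j).trans ?_
          simp only [Pi.add_apply]
          gcongr
          rw [add_assoc]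
          exact le_self_add
      · exact zero_le
  have hJ : t * M (ind (B \ B0)) ≤ D * ((ρ⁻¹ : ℝ≥0) * M y) := by
    have h1 : M (ind (B \ B0)) ≤ D * M (ind (S \ S')) := hM.dem _ _ hBB0
    have h2 : ((ρ * t : ℝ≥0) : ℝ≥0∞) * M (ind (S \ S')) ≤ M y := by
      rw [← hM.smul]
      apply hM.mono
      intro j
      simp only [ind, Pi.smul_apply, smul_eq_mul, Finset.mem_sdiff, mS, mS']
      split_ifs with h
      · rw [mul_one]
        have h3 : σ * t + ρ * t ≤ x j + y j := by
          rw [htt]; exact h.1.trans (hle j)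
        have h4 := not_le.1 h.2
        by_contra hcon
        push Not at hcon
        exact absurd h3 (not_le.2 (add_lt_add h4 hcon))
      · simp
    have h3 : (t : ℝ≥0∞) * M (ind (S \ S')) ≤ (ρ⁻¹ : ℝ≥0) * M y := by
      calc (t : ℝ≥0∞) * M (ind (S \ S'))
          = (ρ⁻¹ : ℝ≥0) * (((ρ * t : ℝ≥0) : ℝ≥0∞) * M (ind (S \ S'))) := by
            rw [← mul_assoc, ← ENNReal.coe_mul, ← mul_assoc, inv_mul_cancel₀ hρ.ne', one_mul]
        _ ≤ _ := by gcongr
    calc t * M (ind (B \ B0)) ≤ t * (D * M (ind (S \ S'))) := by gcongr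
      _ = D * (t * M (ind (S \ S'))) := by ring
      _ ≤ _ := by gcongr
  have hE : t * M (ind (B0 ∪ (S' \ S))) ≤ D * (2 * M x) := by
    have h1 : M (ind (B0 ∪ (S' \ S))) ≤ D * M (ind S') := hM.dem _ _ hB'c
    have h2 : ((σ * t : ℝ≥0) : ℝ≥0∞) * M (ind S') ≤ M x := by
      rw [← hM.smul]
      apply hM.mono
      intro j
      simp only [ind, Pi.smul_apply, smul_eq_mul, mS']
      split_ifs with h
      · rw [mul_one]; exact h
      · simp
    have h3 : (t : ℝ≥0∞) * M (ind S') ≤ 2 * M x := by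
      calc (t : ℝ≥0∞) * M (ind S')
          = (σ⁻¹ : ℝ≥0) * (((σ * t : ℝ≥0) : ℝ≥0∞) * M (ind S')) := by
            rw [← mul_assoc, ← ENNReal.coe_mul, ← mul_assoc, inv_mul_cancel₀ hσ0.ne', one_mul]
        _ ≤ (2 : ℝ≥0) * M x := by
            gcongr
            rw [inv_le_comm₀ hσ0 (by norm_num)]
            exact hσ
        _ = 2 * M x := by norm_num
    calc t * M (ind (B0 ∪ (S' \ S))) ≤ t * (D * M (ind S')) := by gcongr
      _ = D * (t * M (ind S')) := by ring
      _ ≤ _ := by gcongr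
  have hNx : M (U x (σ * t) (B0 ∪ (S' \ S))) ≤ N M x :=
    le_N _ ht' _ _ (by rw [Set.ncard_eq_toFinset_card _ (hx (σ * t) ht')]; exact hB'c)
  calc M (U z t B) ≤ M (U x (σ * t) (B0 ∪ (S' \ S)) + (ρ * t) • ind (B0 ∪ (S' \ S))
        + t • ind (B \ B0) + y) := hM.mono _ _ hdom
    _ ≤ M (U x (σ * t) (B0 ∪ (S' \ S))) + M ((ρ * t) • ind (B0 ∪ (S' \ S)))
        + M (t • ind (B \ B0)) + M y := by
        refine (hM.add _ _).trans ?_
        gcongr
        refine (hM.add _ _).trans ?_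
        gcongr
        exact hM.add _ _
    _ = M (U x (σ * t) (B0 ∪ (S' \ S))) + ρ * (t * M (ind (B0 ∪ (S' \ S))))
        + t * M (ind (B \ B0)) + M y := by
        rw [hM.smul, hM.smul, ENNReal.coe_mul, mul_assoc]
    _ ≤ N M x + ρ * (D * (2 * M x)) + D * ((ρ⁻¹ : ℝ≥0) * M y) + M y := by gcongr
    _ = _ := by ring

lemma real_aux {K r : ℝ} (hK : 2 ≤ K) (hr : 0 < r) (hr1 : r ≤ 1) :
    (1 + K * r) ^ (1 / K) ≤ 1 + (r ^ 2) ^ (1 / K) := by
  have hK0 : 0 < K := by linarith
  set u : ℝ := (r ^ 2) ^ (1 / K) with hu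
  have hu0 : 0 ≤ u := by positivity
  have hru : r ≤ u := by
    have h1 : (r ^ 2) ^ (1 / K) = r ^ (2 * (1 / K)) := by
      rw [← Real.rpow_natCast r 2, ← Real.rpow_mul hr.le]
      norm_num
    rw [hu, h1]
    calc r = r ^ (1 : ℝ) := (Real.rpow_one r).symm
      _ ≤ r ^ (2 * (1 / K)) := by
        apply Real.rpow_le_rpow_of_exponent_ge hr hr1
        rw [mul_one_div, div_le_one hK0]
        exact hK
  have h2 : 1 + K * u ≤ (1 + u) ^ K :=
    one_add_mul_self_le_rpow_one_add (by linarith) (by linarith)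
  have h3 : 1 + K * r ≤ (1 + u) ^ K := by
    have : K * r ≤ K * u := mul_le_mul_of_nonneg_left hru hK0.le
    linarith
  calc (1 + K * r) ^ (1 / K) ≤ ((1 + u) ^ K) ^ (1 / K) :=
        Real.rpow_le_rpow (by positivity) h3 (by positivity)
    _ = 1 + u := by
      rw [← Real.rpow_mul (by positivity), mul_one_div_cancel hK0.ne', Real.rpow_one]

lemma sub_aux (hM : IsSeqNorm M D) (hD : 1 ≤ D) {x y z : ι → ℝ≥0} (hx : Fin0 x) (hy : Fin0 y)
    (hz : Fin0 z) (hle : z ≤ x + y) (hfx : N M x ≠ ∞) (hyx : N M y ≤ N M x) :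
    (N M z).toReal ^ (1 / (3 * D + 1) : ℝ)
      ≤ (N M x).toReal ^ (1 / (3 * D + 1) : ℝ) + (N M y).toReal ^ (1 / (3 * D + 1) : ℝ) := by
  have hfy : N M y ≠ ∞ := ne_top_of_le_ne_top hfx hyx
  obtain ⟨a, ha⟩ : ∃ a : ℝ≥0, (a : ℝ≥0∞) = N M x := ⟨_, ENNReal.coe_toNNReal hfx⟩
  obtain ⟨b, hb⟩ : ∃ b : ℝ≥0, (b : ℝ≥0∞) = N M y := ⟨_, ENNReal.coe_toNNReal hfy⟩
  have hMx : M x ≤ a := by rw [ha]; exact M_le_N hx
  have hMy : M y ≤ b := by rw [hb]; exact M_le_N hy
  have hba : b ≤ a := by rw [← ha, ← hb] at hyx; exact_mod_cast hyx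
  have hDr : (1 : ℝ) ≤ D := by exact_mod_cast hD
  -- general bound
  have gen : ∀ ρ : ℝ≥0, 0 < ρ → ρ ≤ 2⁻¹ →
      N M z ≤ ((a + 2 * D * ρ * a + (D * ρ⁻¹ + 1) * b : ℝ≥0) : ℝ≥0∞) := by
    intro ρ hρ hρ2
    have hρr : (ρ : ℝ) ≤ 2⁻¹ := by
      have := NNReal.coe_le_coe.2 hρ2
      simpa using this
    have hρ1 : ρ ≤ 1 := by
      rw [← NNReal.coe_le_coe, NNReal.coe_one]
      linarith
    have h1 : (1 - ρ) + ρ = 1 := tsub_add_cancel_of_le hρ1
    have hσ : 2⁻¹ ≤ 1 - ρ := by
      rw [← NNReal.coe_le_coe, NNReal.coe_sub hρ1]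
      push_cast
      linarith
    have h := holder hM hx hz hle hρ hσ h1 (y := y)
    refine h.trans ?_
    rw [← ha]
    push_cast
    gcongr
  rcases eq_or_lt_of_le (zero_le : 0 ≤ b) with hb0 | hb0
  · -- b = 0
    have hN : N M z ≤ a := by
      apply ENNReal.le_of_forall_pos_le_add
      intro ε hε _
      have hpos : 0 < 2 * D * a + 1 := by positivity
      set ρ : ℝ≥0 := min 2⁻¹ (ε / (2 * D * a + 1)) with hρ
      have hρ0 : 0 < ρ := lt_min (by positivity) (div_pos hε hpos)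
      have h := gen ρ hρ0 (min_le_left _ _)
      refine h.trans ?_
      rw [← ENNReal.coe_add, ENNReal.coe_le_coe, ← hb0, mul_zero, add_zero]
      gcongr
      calc 2 * D * ρ * a = 2 * D * a * ρ := by ring
        _ ≤ 2 * D * a * (ε / (2 * D * a + 1)) := by gcongr; exact min_le_right _ _
        _ ≤ (2 * D * a + 1) * (ε / (2 * D * a + 1)) := by gcongr; exact le_self_add
        _ = ε := mul_div_cancel₀ _ hpos.ne'
    have h2 : (N M z).toReal ≤ (N M x).toReal := by
      rw [← ha] at *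
      exact ENNReal.toReal_mono ENNReal.coe_ne_top hN
    have h3 : (N M z).toReal ^ (1 / (3 * D + 1) : ℝ) ≤ (N M x).toReal ^ (1 / (3 * D + 1) : ℝ) :=
      Real.rpow_le_rpow ENNReal.toReal_nonneg h2 (by positivity)
    have h4 : 0 ≤ (N M y).toReal ^ (1 / (3 * D + 1) : ℝ) := by positivity
    linarith
  · have ha0 : 0 < a := lt_of_lt_of_le hb0 hba
    have ha0' : (0 : ℝ) < a := by exact_mod_cast ha0
    have hb0' : (0 : ℝ) < b := by exact_mod_cast hb0
    have hba' : (b : ℝ) ≤ a := by exact_mod_cast hba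
    set r : ℝ := Real.sqrt (b / a) with hr
    have hr0 : 0 < r := Real.sqrt_pos.2 (by positivity)
    have hr1 : r ≤ 1 := by
      rw [hr]
      exact Real.sqrt_le_one.2 ((div_le_one ha0').2 hba')
    have hr2 : r ^ 2 = b / a := Real.sq_sqrt (by positivity)
    obtain ⟨ρ, hρ⟩ : ∃ ρ : ℝ≥0, (ρ : ℝ) = r / 2 := ⟨⟨r / 2, by positivity⟩, rfl⟩
    have hρ0 : 0 < ρ := by
      rw [← NNReal.coe_pos, hρ]; positivity
    have hρ2 : ρ ≤ 2⁻¹ := by
      rw [← NNReal.coe_le_coe, hρ]; push_cast; linarith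
    have h := gen ρ hρ0 hρ2
    have h1 : (N M z).toReal ≤ a + 2 * D * (r / 2) * a + (D * (r / 2)⁻¹ + 1) * b := by
      have := ENNReal.toReal_mono ENNReal.coe_ne_top h
      rw [ENNReal.coe_toReal] at this
      push_cast at this
      rwa [hρ] at this
    have hbr : (b : ℝ) = r ^ 2 * a := by rw [hr2]; field_simp
    have h2 : a + 2 * D * (r / 2) * a + (D * (r / 2)⁻¹ + 1) * b
        = a * (1 + 3 * D * r + r ^ 2) := by
      rw [hbr]
      field_simp
      ring
    have h3 : (N M z).toReal ≤ a * (1 + (3 * D + 1) * r) := by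
      refine h1.trans ?_
      rw [h2]
      apply mul_le_mul_of_nonneg_left _ ha0'.le
      nlinarith
    have h4 := real_aux (K := 3 * D + 1) (r := r) (by linarith) hr0 hr1
    have e1 : (N M x).toReal = a := by rw [← ha]; rfl
    have e2 : (N M y).toReal = b := by rw [← hb]; rfl
    rw [e1, e2]
    calc (N M z).toReal ^ (1 / (3 * D + 1) : ℝ)
        ≤ (a * (1 + (3 * D + 1) * r)) ^ (1 / (3 * D + 1) : ℝ) :=
          Real.rpow_le_rpow ENNReal.toReal_nonneg h3 (by positivity)
      _ = (a : ℝ) ^ (1 / (3 * D + 1) : ℝ) * (1 + (3 * D + 1) * r) ^ (1 / (3 * D + 1) : ℝ) :=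
          Real.mul_rpow ha0'.le (by positivity)
      _ ≤ (a : ℝ) ^ (1 / (3 * D + 1) : ℝ) * (1 + (r ^ 2) ^ (1 / (3 * D + 1) : ℝ)) := by gcongr
      _ = (a : ℝ) ^ (1 / (3 * D + 1) : ℝ) + (b : ℝ) ^ (1 / (3 * D + 1) : ℝ) := by
          rw [mul_add, mul_one, hbr, mul_comm (r ^ 2), Real.mul_rpow ha0'.le (by positivity)]

lemma sub_pow (hM : IsSeqNorm M D) (hD : 1 ≤ D) {x y z : ι → ℝ≥0} (hx : Fin0 x) (hy : Fin0 y)
    (hz : Fin0 z) (hle : z ≤ x + y) (hfx : N M x ≠ ∞) (hfy : N M y ≠ ∞) :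
    (N M z).toReal ^ (1 / (3 * D + 1) : ℝ)
      ≤ (N M x).toReal ^ (1 / (3 * D + 1) : ℝ) + (N M y).toReal ^ (1 / (3 * D + 1) : ℝ) := by
  rcases le_total (N M y) (N M x) with h | h
  · exact sub_aux hM hD hx hy hz hle hfx h
  · rw [add_comm ((N M x).toReal ^ _)]
    exact sub_aux hM hD hy hx hz (by rwa [add_comm]) hfy h

end H12Haar
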