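import Mathlib
import Pool.Agent.H12Haar.Bellman

/-!
Dyadic trees and Haar functions.
-/

open scoped BigOperators ENNReal NNReal
open MeasureTheory

namespace H12Haar

/-- The `j`-th Haar function, normalised in `L_p`. For `j = 0` it is the indicator of `[0,1)`; for
`j = 2^n + k` with `0 ≤ k < 2^n` it is `2^(n/p)` on `[k/2^n, (k+1/2)/2^n)`, `-2^(n/p)` on
`[(k+1/2)/2^n, (k+1)/2^n)` and `0` elsewhere. -/
noncomputable def haarFun (p : ℝ) (j : ℕ) (x : ℝ) : ℝ :=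
  if j = 0 then (if 0 ≤ x ∧ x < 1 then 1 else 0)
  else
    if ((j - 2 ^ Nat.log 2 j : ℕ) : ℝ) / 2 ^ Nat.log 2 j ≤ x ∧
        x < (((j - 2 ^ Nat.log 2 j : ℕ) : ℝ) + 1 / 2) / 2 ^ Nat.log 2 j then
      (2 : ℝ) ^ ((Nat.log 2 j : ℝ) / p)
    else if (((j - 2 ^ Nat.log 2 j : ℕ) : ℝ) + 1 / 2) / 2 ^ Nat.log 2 j ≤ x ∧
        x < (((j - 2 ^ Nat.log 2 j : ℕ) : ℝ) + 1) / 2 ^ Nat.log 2 j then
      -(2 : ℝ) ^ ((Nat.log 2 j : ℝ) / p)
    else 0

/-- Heap index at level `n` of the dyadic interval containing `x`. -/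
noncomputable def idx (n : ℕ) (x : ℝ) : ℕ := 2 ^ n + ⌊2 ^ n * x⌋₊

/-- The dyadic interval at level `n` with heap index `k`. -/
def J (n k : ℕ) : Set ℝ := Set.Ico (((k : ℝ) - 2 ^ n) / 2 ^ n) (((k : ℝ) - 2 ^ n + 1) / 2 ^ n)

lemma idx_succ_div (n : ℕ) {x : ℝ} : idx (n + 1) x / 2 = idx n x := by
  unfold idx
  have h1 : ⌊2 ^ n * x⌋₊ = ⌊2 ^ (n + 1) * x⌋₊ / 2 := by
    have := Nat.floor_div_natCast (2 ^ (n + 1) * x) 2
    rw [← this]
    congr 1
    rw [pow_succ]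
    push_cast
    ring
  rw [h1, pow_succ, mul_comm (2 ^ n) 2]
  omega

lemma idx_zero {x : ℝ} (hx : x ∈ Set.Ico (0 : ℝ) 1) : idx 0 x = 1 := by
  unfold idx
  have : ⌊x⌋₊ = 0 := Nat.floor_eq_zero.2 hx.2
  simp [this]

lemma idx_mem (n : ℕ) {x : ℝ} (hx : x ∈ Set.Ico (0 : ℝ) 1) :
    idx n x ∈ Finset.Ico (2 ^ n) (2 ^ (n + 1)) := by
  unfold idx
  rw [Finset.mem_Ico]
  refine ⟨Nat.le_add_right _ _, ?_⟩
  have h1 : 2 ^ n * x < 2 ^ n := by
    have : (0 : ℝ) < 2 ^ n := by positivity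
    nlinarith [hx.2]
  have h2 : ⌊2 ^ n * x⌋₊ < 2 ^ n := by
    rw [Nat.floor_lt (by have := hx.1; positivity)]
    push_cast
    exact h1
  rw [pow_succ]
  omega

lemma mem_J_iff {n k : ℕ} (hk : k ∈ Finset.Ico (2 ^ n) (2 ^ (n + 1))) (x : ℝ) :
    x ∈ J n k ↔ x ∈ Set.Ico (0 : ℝ) 1 ∧ idx n x = k := by
  rw [Finset.mem_Ico] at hk
  have h2 : (0 : ℝ) < 2 ^ n := by positivity
  have hk1 : ((2 ^ n : ℕ) : ℝ) ≤ k := by exact_mod_cast hk.1
  have hk2 : (k : ℝ) + 1 ≤ 2 * 2 ^ n := by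
    have : k + 1 ≤ 2 ^ (n + 1) := hk.2
    have h3 : ((k + 1 : ℕ) : ℝ) ≤ ((2 ^ (n + 1) : ℕ) : ℝ) := by exact_mod_cast this
    push_cast at h3
    rw [pow_succ] at h3
    linarith
  push_cast at hk1
  unfold J
  rw [Set.mem_Ico, Set.mem_Ico, div_le_iff₀ h2, lt_div_iff₀ h2]
  constructor
  · rintro ⟨ha, hb⟩
    have hx0 : 0 ≤ x := by
      by_contra hcon
      push Not at hcon
      have : x * 2 ^ n < 0 := mul_neg_of_neg_of_pos hcon h2
      linarith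
    have hx1 : x < 1 := by
      by_contra hcon
      push Not at hcon
      have : 1 * 2 ^ n ≤ x * 2 ^ n := mul_le_mul_of_nonneg_right hcon h2.le
      linarith
    refine ⟨⟨hx0, hx1⟩, ?_⟩
    unfold idx
    have : ⌊2 ^ n * x⌋₊ = k - 2 ^ n := by
      rw [Nat.floor_eq_iff (by positivity)]
      rw [Nat.cast_sub hk.1]
      push_cast
      constructor
      · linarith
      · linarith
    rw [this]
    omega
  · rintro ⟨⟨hx0, hx1⟩, hi⟩
    unfold idx at hi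
    have h3 : (⌊2 ^ n * x⌋₊ : ℝ) = k - 2 ^ n := by
      rw [← hi]; push_cast; ring
    have h4 := Nat.floor_le (show 0 ≤ 2 ^ n * x by positivity)
    have h5 := Nat.lt_floor_add_one (2 ^ n * x)
    rw [h3] at h4 h5
    constructor <;> linarith

lemma log_of_mem {n k : ℕ} (hk : k ∈ Finset.Ico (2 ^ n) (2 ^ (n + 1))) : Nat.log 2 k = n := by
  rw [Finset.mem_Ico] at hk
  exact Nat.log_eq_of_pow_le_of_lt_pow hk.1 hk.2

lemma mem_log {j : ℕ} (hj : 1 ≤ j) : j ∈ Finset.Ico (2 ^ Nat.log 2 j) (2 ^ (Nat.log 2 j + 1)) := by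
  rw [Finset.mem_Ico]
  exact ⟨Nat.pow_log_le_self 2 (by omega), Nat.lt_pow_succ_log_self (by norm_num) j⟩

lemma child_mem {n k : ℕ} (hk : k ∈ Finset.Ico (2 ^ n) (2 ^ (n + 1))) :
    2 * k ∈ Finset.Ico (2 ^ (n + 1)) (2 ^ (n + 1 + 1)) ∧
    2 * k + 1 ∈ Finset.Ico (2 ^ (n + 1)) (2 ^ (n + 1 + 1)) := by
  rw [Finset.mem_Ico] at *
  rw [Finset.mem_Ico]
  have h1 : 2 ^ (n + 1) = 2 * 2 ^ n := by rw [pow_succ]; ring
  have h2 : 2 ^ (n + 1 + 1) = 2 * 2 ^ (n + 1) := by rw [pow_succ]; ring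
  omega

/-- Haar functions through heap indices. -/
lemma haarFun_eq {p : ℝ} {n j : ℕ} (hj : j ∈ Finset.Ico (2 ^ n) (2 ^ (n + 1))) {x : ℝ}
    (hx : x ∈ Set.Ico (0 : ℝ) 1) :
    haarFun p j x = if idx (n + 1) x = 2 * j then (2 : ℝ) ^ ((n : ℝ) / p)
      else if idx (n + 1) x = 2 * j + 1 then -(2 : ℝ) ^ ((n : ℝ) / p) else 0 := by
  have hlog := log_of_mem hj
  have hj0 : j ≠ 0 := by
    have := (Finset.mem_Ico.1 hj).1
    have : 0 < 2 ^ n := by positivity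
    omega
  have hc := child_mem hj
  have e1 := mem_J_iff hc.1 x
  have e2 := mem_J_iff hc.2 x
  simp only [hx, true_and] at e1 e2
  have hjn : 2 ^ n ≤ j := (Finset.mem_Ico.1 hj).1
  have h2 : (0 : ℝ) < 2 ^ n := by positivity
  unfold haarFun
  rw [if_neg hj0, hlog]
  have f1 : (((j - 2 ^ n : ℕ) : ℝ) / 2 ^ n ≤ x ∧ x < (((j - 2 ^ n : ℕ) : ℝ) + 1 / 2) / 2 ^ n)
      ↔ idx (n + 1) x = 2 * j := by
    rw [← e1]
    unfold J
    rw [Set.mem_Ico, Nat.cast_sub hjn]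
    push_cast
    have a1 : (2 * (j : ℝ) - 2 ^ (n + 1)) / 2 ^ (n + 1) = ((j : ℝ) - 2 ^ n) / 2 ^ n := by
      rw [pow_succ]; field_simp
    have a2 : (2 * (j : ℝ) - 2 ^ (n + 1) + 1) / 2 ^ (n + 1) = ((j : ℝ) - 2 ^ n + 1 / 2) / 2 ^ n := by
      rw [pow_succ]; field_simp
    rw [a1, a2]
  have f2 : ((((j - 2 ^ n : ℕ) : ℝ) + 1 / 2) / 2 ^ n ≤ x ∧ x < (((j - 2 ^ n : ℕ) : ℝ) + 1) / 2 ^ n)
      ↔ idx (n + 1) x = 2 * j + 1 := by
    rw [← e2]
    unfold J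
    rw [Set.mem_Ico, Nat.cast_sub hjn]
    push_cast
    have a1 : (2 * (j : ℝ) + 1 - 2 ^ (n + 1)) / 2 ^ (n + 1) = ((j : ℝ) - 2 ^ n + 1 / 2) / 2 ^ n := by
      rw [pow_succ]; field_simp; ring
    have a2 : (2 * (j : ℝ) + 1 - 2 ^ (n + 1) + 1) / 2 ^ (n + 1) = ((j : ℝ) - 2 ^ n + 1) / 2 ^ n := by
      rw [pow_succ]; field_simp; ring
    rw [a1, a2]
  simp only [f1, f2]

/-- The tree with differences `c`. -/
noncomputable def tree {𝕜 : Type*} [AddCommGroup 𝕜] (c : ℕ → 𝕜) (j : ℕ) : 𝕜 :=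
  if h : j ≤ 1 then c 0
  else
    have : j / 2 < j := Nat.div_lt_self (by omega) (by norm_num)
    tree c (j / 2) + (if j % 2 = 0 then c (j / 2) else -c (j / 2))

section tree
variable {𝕜 : Type*} [AddCommGroup 𝕜]

lemma tree_one (c : ℕ → 𝕜) : tree c 1 = c 0 := by
  rw [tree]; simp

lemma tree_even (c : ℕ → 𝕜) {j : ℕ} (hj : 1 ≤ j) : tree c (2 * j) = tree c j + c j := by
  rw [tree, dif_neg (by omega)]
  have h1 : 2 * j / 2 = j := by omega
  have h2 : 2 * j % 2 = 0 := by omega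
  show tree c (2 * j / 2) + (if 2 * j % 2 = 0 then c (2 * j / 2) else -c (2 * j / 2)) = _
  rw [h1, if_pos h2]

lemma tree_odd (c : ℕ → 𝕜) {j : ℕ} (hj : 1 ≤ j) : tree c (2 * j + 1) = tree c j - c j := by
  rw [tree, dif_neg (by omega)]
  have h1 : (2 * j + 1) / 2 = j := by omega
  have h2 : ¬ (2 * j + 1) % 2 = 0 := by omega
  show tree c ((2 * j + 1) / 2) +
    (if (2 * j + 1) % 2 = 0 then c ((2 * j + 1) / 2) else -c ((2 * j + 1) / 2)) = _
  rw [h1, if_neg h2, sub_eq_add_neg]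

lemma tree_induct {P : ℕ → Prop} (h1 : P 1) (he : ∀ j, 1 ≤ j → P j → P (2 * j))
    (ho : ∀ j, 1 ≤ j → P j → P (2 * j + 1)) : ∀ j, 1 ≤ j → P j := by
  intro j
  induction j using Nat.strong_induction_on with
  | _ j ih =>
    intro hj
    rcases Nat.lt_or_ge j 2 with h | h
    · have : j = 1 := by omega
      rwa [this]
    · rcases Nat.even_or_odd' j with ⟨m, hm | hm⟩
      · rw [hm]; exact he m (by omega) (ih m (by omega) (by omega))
      · rw [hm]; exact ho m (by omega) (ih m (by omega) (by omega))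

lemma tree_add (c c' : ℕ → 𝕜) {j : ℕ} (hj : 1 ≤ j) :
    tree (fun i => c i + c' i) j = tree c j + tree c' j := by
  refine tree_induct (P := fun j => tree (fun i => c i + c' i) j = tree c j + tree c' j)
    ?_ ?_ ?_ j hj
  · simp only [tree_one]
  · intro i hi h
    rw [tree_even _ hi, tree_even _ hi, tree_even _ hi, h]; abel
  · intro i hi h
    rw [tree_odd _ hi, tree_odd _ hi, tree_odd _ hi, h]; abel

lemma tree_map {𝕜' : Type*} [AddCommGroup 𝕜'] (φ : 𝕜 →+ 𝕜') (c : ℕ → 𝕜) {j : ℕ} (hj : 1 ≤ j) :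
    tree (fun i => φ (c i)) j = φ (tree c j) := by
  refine tree_induct (P := fun j => tree (fun i => φ (c i)) j = φ (tree c j)) ?_ ?_ ?_ j hj
  · simp only [tree_one]
  · intro i hi h
    rw [tree_even _ hi, tree_even _ hi, h, map_add]
  · intro i hi h
    rw [tree_odd _ hi, tree_odd _ hi, h, map_sub]

end tree

/-- The scaled difference sequence attached to Haar coefficients. -/
noncomputable def scal {𝕜 : Type*} [RCLike 𝕜] (p : ℝ) (b : ℕ → 𝕜) (j : ℕ) : 𝕜 :=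
  if j = 0 then b 0 else (((2 : ℝ) ^ ((Nat.log 2 j : ℝ) / p) : ℝ) : 𝕜) * b j

/-- Haar sums are tree values. -/
lemma haar_sum {𝕜 : Type*} [RCLike 𝕜] (p : ℝ) (b : ℕ → 𝕜) (n : ℕ) {x : ℝ}
    (hx : x ∈ Set.Ico (0 : ℝ) 1) :
    ∑ j ∈ Finset.range (2 ^ n), b j * (haarFun p j x : 𝕜) = tree (scal p b) (idx n x) := by
  induction n with
  | zero =>
    rw [idx_zero hx, tree_one]
    simp [haarFun, scal, hx.1, hx.2]
  | succ n ih =>
    have hle : 2 ^ n ≤ 2 ^ (n + 1) := Nat.pow_le_pow_right (by norm_num) (by omega)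
    rw [← Finset.sum_range_add_sum_Ico _ hle, ih]
    have hmem := idx_mem n hx
    have hdiv := idx_succ_div n (x := x)
    set i := idx n x with hi
    have hi1 : 1 ≤ i := le_trans Nat.one_le_two_pow (Finset.mem_Ico.1 hmem).1
    have hzero : ∀ j ∈ Finset.Ico (2 ^ n) (2 ^ (n + 1)), j ≠ i → b j * (haarFun p j x : 𝕜) = 0 := by
      intro j hj hne
      rw [haarFun_eq hj hx, if_neg (by omega), if_neg (by omega)]
      simp
    rw [Finset.sum_eq_single i hzero (fun h => absurd hmem h), haarFun_eq hmem hx]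
    have hlog := log_of_mem hmem
    have hs : scal p b i = (((2 : ℝ) ^ ((n : ℝ) / p) : ℝ) : 𝕜) * b i := by
      unfold scal
      rw [if_neg (by omega), hlog]
    rcases Nat.even_or_odd' (idx (n + 1) x) with ⟨m, hm | hm⟩
    · have : m = i := by omega
      rw [hm, this, if_pos rfl, tree_even _ hi1, hs]
      ring
    · have : m = i := by omega
      rw [hm, this, if_neg (by omega), if_pos rfl, tree_odd _ hi1, hs]
      push_cast
      ring

end H12Haar
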