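import Pool.Agent.H12Haar.Dem

/-!
Averages, unconditionality and Lebesgue differentiation along dyadic intervals.
-/

open scoped BigOperators ENNReal NNReal Topology
open MeasureTheory

namespace H12Haar

variable {𝕜 : Type*} [RCLike 𝕜]

/-- Haar coefficients. -/
noncomputable def coeff (p : ℝ) (f : ℝ → 𝕜) (j : ℕ) : 𝕜 :=
  ∫ x, f x * (haarFun (p / (p - 1)) j x : 𝕜) ∂μ₀

lemma J_split {n j : ℕ} (hj : j ∈ Finset.Ico (2 ^ n) (2 ^ (n + 1))) :
    J n j = J (n + 1) (2 * j) ∪ J (n + 1) (2 * j + 1) ∧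
      Disjoint (J (n + 1) (2 * j)) (J (n + 1) (2 * j + 1)) := by
  have hc := child_mem hj
  constructor
  · ext x
    rw [Set.mem_union, mem_J_iff hj, mem_J_iff hc.1, mem_J_iff hc.2]
    have hdiv := idx_succ_div n (x := x)
    constructor
    · rintro ⟨hx, h⟩
      rcases Nat.even_or_odd' (idx (n + 1) x) with ⟨m, hm | hm⟩
      · left; exact ⟨hx, by omega⟩
      · right; exact ⟨hx, by omega⟩
    · rintro (⟨hx, h⟩ | ⟨hx, h⟩)
      · exact ⟨hx, by omega⟩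
      · exact ⟨hx, by omega⟩
  · rw [Set.disjoint_left]
    intro x h1 h2
    rw [mem_J_iff hc.1] at h1
    rw [mem_J_iff hc.2] at h2
    omega

lemma int_split {n j : ℕ} (hj : j ∈ Finset.Ico (2 ^ n) (2 ^ (n + 1))) {f : ℝ → 𝕜}
    (hf : Integrable f μ₀) :
    ∫ x in J n j, f x = (∫ x in J (n + 1) (2 * j), f x) + ∫ x in J (n + 1) (2 * j + 1), f x := by
  have hc := child_mem hj
  obtain ⟨h1, h2⟩ := J_split hj
  have hf' : IntegrableOn f (Set.Ico (0 : ℝ) 1) := hf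
  rw [h1, setIntegral_union h2 (measurableSet_J _ _) (hf'.mono_set (J_subset hc.1))
    (hf'.mono_set (J_subset hc.2))]

lemma coeff_eq (p : ℝ) {n j : ℕ} (hj : j ∈ Finset.Ico (2 ^ n) (2 ^ (n + 1))) {f : ℝ → 𝕜}
    (hf : Integrable f μ₀) :
    coeff p f j = (((2 : ℝ) ^ ((n : ℝ) / (p / (p - 1))) : ℝ) : 𝕜) *
      ((∫ x in J (n + 1) (2 * j), f x) - ∫ x in J (n + 1) (2 * j + 1), f x) := by
  have hc := child_mem hj
  set c : ℝ := (2 : ℝ) ^ ((n : ℝ) / (p / (p - 1))) with hcdef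
  have h1 : coeff p f j = ∫ x, ((J (n + 1) (2 * j)).indicator (fun x => (c : 𝕜) * f x) x
      - (J (n + 1) (2 * j + 1)).indicator (fun x => (c : 𝕜) * f x) x) ∂μ₀ := by
    unfold coeff
    apply setIntegral_congr_fun measurableSet_Ico
    intro x hx
    simp only
    rw [haarFun_eq hj hx]
    have e1 := mem_J_iff hc.1 x
    have e2 := mem_J_iff hc.2 x
    simp only [hx, true_and] at e1 e2
    by_cases h1 : idx (n + 1) x = 2 * j
    · rw [if_pos h1, Set.indicator_of_mem (e1.2 h1), Set.indicator_of_notMem]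
      · rw [sub_zero, mul_comm]
      · rw [e2]; omega
    · rw [if_neg h1, Set.indicator_of_notMem (fun h => h1 (e1.1 h))]
      by_cases h2 : idx (n + 1) x = 2 * j + 1
      · rw [if_pos h2, Set.indicator_of_mem (e2.2 h2)]
        push_cast
        ring
      · rw [if_neg h2, Set.indicator_of_notMem (fun h => h2 (e2.1 h))]
        simp
  have hcf : Integrable (fun x => (c : 𝕜) * f x) μ₀ := hf.const_mul _
  rw [h1, integral_sub (hcf.indicator (measurableSet_J _ _)) (hcf.indicator (measurableSet_J _ _)),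
    setIntegral_indicator (measurableSet_J _ _), setIntegral_indicator (measurableSet_J _ _),
    Set.inter_eq_right.2 (J_subset hc.1), Set.inter_eq_right.2 (J_subset hc.2),
    integral_const_mul, integral_const_mul]
  ring

lemma J_one : J 0 1 = Set.Ico (0 : ℝ) 1 := by
  unfold J; norm_num

lemma tree_coeff {p : ℝ} (hp : 1 < p) {f : ℝ → 𝕜} (hf : Integrable f μ₀) (n : ℕ) :
    ∀ k ∈ Finset.Ico (2 ^ n) (2 ^ (n + 1)),
      tree (scal p (coeff p f)) k = ((2 ^ n : ℝ) : 𝕜) * ∫ x in J n k, f x := by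
  induction n with
  | zero =>
    intro k hk
    have : k = 1 := by
      rw [Finset.mem_Ico] at hk; omega
    subst this
    rw [tree_one, J_one]
    simp only [scal, if_true, coeff]
    rw [pow_zero, RCLike.ofReal_one, one_mul]
    apply setIntegral_congr_fun measurableSet_Ico
    intro x hx
    simp [haarFun, hx.1, hx.2]
  | succ n ih =>
    intro k hk
    -- parent
    have hj : k / 2 ∈ Finset.Ico (2 ^ n) (2 ^ (n + 1)) := by
      rw [Finset.mem_Ico] at hk ⊢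
      have h1 : 2 ^ (n + 1) = 2 * 2 ^ n := by rw [pow_succ]; ring
      have h2 : 2 ^ (n + 1 + 1) = 2 * 2 ^ (n + 1) := by rw [pow_succ]; ring
      omega
    set j := k / 2 with hjdef
    have hj1 : 1 ≤ j := le_trans Nat.one_le_two_pow (Finset.mem_Ico.1 hj).1
    have hT := ih j hj
    rw [int_split hj hf] at hT
    have hsc : scal p (coeff p f) j = ((2 ^ n : ℝ) : 𝕜) *
        ((∫ x in J (n + 1) (2 * j), f x) - ∫ x in J (n + 1) (2 * j + 1), f x) := by
      unfold scal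
      rw [if_neg (by omega), log_of_mem hj, coeff_eq p hj hf, ← mul_assoc, ← RCLike.ofReal_mul,
        conj_exp hp, Real.rpow_natCast]
    rcases Nat.even_or_odd' k with ⟨m, hm | hm⟩
    · have : k = 2 * j := by omega
      rw [this, tree_even _ hj1, hT, hsc, pow_succ]
      push_cast
      ring
    · have : k = 2 * j + 1 := by omega
      rw [this, tree_odd _ hj1, hT, hsc, pow_succ]
      push_cast
      ring

lemma jensen_one {p : ℝ} (hp : 1 < p) {f : ℝ → 𝕜} (hf : AEStronglyMeasurable f μ₀) {n k : ℕ}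
    (hk : k ∈ Finset.Ico (2 ^ n) (2 ^ (n + 1))) :
    ‖((2 ^ n : ℝ) : 𝕜) * ∫ x in J n k, f x‖ₑ ^ p * ENNReal.ofReal (1 / 2 ^ n)
      ≤ ∫⁻ x in J n k, ‖f x‖ₑ ^ p := by
  have hp0 : 0 < p := by linarith
  have hp1 : 0 < p - 1 := by linarith
  have hpq : p.HolderConjugate (p / (p - 1)) := by
    rw [Real.holderConjugate_iff]
    refine ⟨hp, ?_⟩
    field_simp
    ring
  have hfm : AEStronglyMeasurable f (volume.restrict (J n k)) :=
    hf.mono_measure (Measure.restrict_mono_set _ (J_subset hk))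
  have h1 : ‖∫ x in J n k, f x‖ₑ ≤ ∫⁻ x in J n k, ‖f x‖ₑ := enorm_integral_le_lintegral_enorm _
  have h2 := ENNReal.lintegral_mul_le_Lp_mul_Lq (volume.restrict (J n k)) hpq
    (f := fun x => ‖f x‖ₑ) (g := fun _ => 1) hfm.enorm aemeasurable_const
  simp only [Pi.mul_apply, mul_one, ENNReal.one_rpow, lintegral_const,
    Measure.restrict_apply MeasurableSet.univ, Set.univ_inter, one_mul, vol_J] at h2
  have h3 : ‖∫ x in J n k, f x‖ₑ ^ p ≤ (∫⁻ x in J n k, ‖f x‖ₑ ^ p) *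
      ENNReal.ofReal (1 / 2 ^ n) ^ (p - 1) := by
    calc ‖∫ x in J n k, f x‖ₑ ^ p ≤ ((∫⁻ x in J n k, ‖f x‖ₑ ^ p) ^ (1 / p) *
          ENNReal.ofReal (1 / 2 ^ n) ^ (1 / (p / (p - 1)))) ^ p :=
          ENNReal.rpow_le_rpow (h1.trans h2) hp0.le
      _ = _ := by
          rw [ENNReal.mul_rpow_of_nonneg _ _ hp0.le, ← ENNReal.rpow_mul, ← ENNReal.rpow_mul,
            one_div_mul_cancel hp0.ne', ENNReal.rpow_one]
          congr 2
          field_simp
  have h4 : ‖((2 ^ n : ℝ) : 𝕜)‖ₑ = ENNReal.ofReal (2 ^ n) := by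
    rw [← ofReal_norm, RCLike.norm_ofReal, abs_of_pos (by positivity)]
  rw [enorm_mul, ENNReal.mul_rpow_of_nonneg _ _ hp0.le, h4]
  calc ENNReal.ofReal (2 ^ n) ^ p * ‖∫ x in J n k, f x‖ₑ ^ p * ENNReal.ofReal (1 / 2 ^ n)
      ≤ ENNReal.ofReal (2 ^ n) ^ p * ((∫⁻ x in J n k, ‖f x‖ₑ ^ p) *
          ENNReal.ofReal (1 / 2 ^ n) ^ (p - 1)) * ENNReal.ofReal (1 / 2 ^ n) := by gcongr
    _ = (ENNReal.ofReal (2 ^ n) ^ p * ENNReal.ofReal (1 / 2 ^ n) ^ (p - 1) *
          ENNReal.ofReal (1 / 2 ^ n)) * ∫⁻ x in J n k, ‖f x‖ₑ ^ p := by ring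
    _ = ∫⁻ x in J n k, ‖f x‖ₑ ^ p := by
        rw [ENNReal.ofReal_rpow_of_nonneg (by positivity) hp0.le,
          ENNReal.ofReal_rpow_of_nonneg (by positivity) hp1.le, ← ENNReal.ofReal_mul (by positivity),
          ← ENNReal.ofReal_mul (by positivity)]
        have : ((2 : ℝ) ^ n) ^ p * (1 / 2 ^ n) ^ (p - 1) * (1 / 2 ^ n) = 1 := by
          have e : ((1 : ℝ) / 2 ^ n) ^ (p - 1) * (1 / 2 ^ n) = (1 / 2 ^ n) ^ p := by
            nth_rewrite 2 [← Real.rpow_one ((1 : ℝ) / 2 ^ n)]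
            rw [← Real.rpow_add (by positivity)]
            congr 1; ring
          rw [mul_assoc, e, ← Real.mul_rpow (by positivity) (by positivity),
            mul_one_div_cancel (by positivity), Real.one_rpow]
        rw [this, ENNReal.ofReal_one, one_mul]

lemma sum_lint (n : ℕ) (g : ℝ → ℝ≥0∞) :
    ∑ k ∈ Finset.Ico (2 ^ n) (2 ^ (n + 1)), ∫⁻ x in J n k, g x ≤ ∫⁻ x, g x ∂μ₀ := by
  classical
  have hdisj : Set.PairwiseDisjoint (↑(Finset.Ico (2 ^ n) (2 ^ (n + 1))) : Set ℕ) (J n) := by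
    intro a ha b hb hab
    rw [Function.onFun, Set.disjoint_left]
    intro x h1 h2
    rw [mem_J_iff ha] at h1
    rw [mem_J_iff hb] at h2
    exact hab (h1.2.symm.trans h2.2)
  rw [← lintegral_biUnion_finset hdisj (fun k _ => measurableSet_J n k)]
  apply lintegral_mono_set
  intro x hx
  simp only [Set.mem_iUnion] at hx
  obtain ⟨k, hk, hx⟩ := hx
  exact J_subset hk hx

lemma enorm_rpow_eq {p : ℝ} (hp : 0 ≤ p) (z : 𝕜) : ‖z‖ₑ ^ p = ENNReal.ofReal (‖z‖ ^ p) := by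
  rw [← ofReal_norm, ENNReal.ofReal_rpow_of_nonneg (norm_nonneg _) hp]

lemma lint_S {p : ℝ} (hp : 0 ≤ p) (b : ℕ → 𝕜) (n : ℕ) :
    ∫⁻ x, ‖S p b n x‖ₑ ^ p ∂μ₀ = ENNReal.ofReal
      (∑ k ∈ Finset.Ico (2 ^ n) (2 ^ (n + 1)), ‖tree (scal p b) k‖ ^ p) * ENNReal.ofReal (1 / 2 ^ n) := by
  have h1 : ∫⁻ x, ‖S p b n x‖ₑ ^ p ∂μ₀
      = ∫⁻ x, (fun k => ENNReal.ofReal (‖tree (scal p b) k‖ ^ p)) (idx n x) ∂μ₀ := by
    apply setLIntegral_congr_fun measurableSet_Ico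
    intro x hx
    simp only [S]
    rw [haar_sum p b n hx, enorm_rpow_eq hp]
  rw [h1, lint_idx n (fun k => ENNReal.ofReal (‖tree (scal p b) k‖ ^ p)), ← Finset.sum_mul,
    ENNReal.ofReal_sum_of_nonneg (fun k _ => by positivity)]

/-- Unconditionality of the Haar system. -/
theorem uncond (𝕜 : Type*) [RCLike 𝕜] {p : ℝ} (hp : 1 < p) : ∃ C : ℝ, 0 < C ∧
    ∀ f : ℝ → 𝕜, Integrable f μ₀ →
    ∀ b : ℕ → 𝕜, (∀ j, ‖b j‖ ≤ ‖coeff p f j‖) → ∀ n,
    ∫⁻ x, ‖S p b n x‖ₑ ^ p ∂μ₀ ≤ ENNReal.ofReal C * ∫⁻ x, ‖f x‖ₑ ^ p ∂μ₀ := by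
  obtain ⟨C, hC, hT⟩ := tree_ineq_k 𝕜 hp
  have hp0 : 0 < p := by linarith
  refine ⟨C, hC, ?_⟩
  intro f hf b hb n
  have hscal : ∀ j, ‖scal p b j‖ ≤ ‖scal p (coeff p f) j‖ := by
    intro j
    unfold scal
    split_ifs
    · exact hb 0
    · rw [norm_mul, norm_mul]
      exact mul_le_mul_of_nonneg_left (hb j) (norm_nonneg _)
  have h1 := hT (scal p (coeff p f)) (scal p b) hscal n
  rw [lint_S hp0.le]
  calc ENNReal.ofReal (∑ k ∈ Finset.Ico (2 ^ n) (2 ^ (n + 1)), ‖tree (scal p b) k‖ ^ p) *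
        ENNReal.ofReal (1 / 2 ^ n)
      ≤ ENNReal.ofReal (C * ∑ k ∈ Finset.Ico (2 ^ n) (2 ^ (n + 1)),
          ‖tree (scal p (coeff p f)) k‖ ^ p) * ENNReal.ofReal (1 / 2 ^ n) := by
        gcongr
    _ = ENNReal.ofReal C * ∑ k ∈ Finset.Ico (2 ^ n) (2 ^ (n + 1)),
          (‖tree (scal p (coeff p f)) k‖ₑ ^ p * ENNReal.ofReal (1 / 2 ^ n)) := by
        rw [ENNReal.ofReal_mul hC.le, ENNReal.ofReal_sum_of_nonneg (fun k _ => by positivity),
          mul_assoc, Finset.sum_mul]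
        simp only [enorm_rpow_eq hp0.le]
    _ ≤ ENNReal.ofReal C * ∑ k ∈ Finset.Ico (2 ^ n) (2 ^ (n + 1)),
          ∫⁻ x in J n k, ‖f x‖ₑ ^ p := by
        gcongr with k hk
        rw [tree_coeff hp hf n k hk]
        exact jensen_one hp hf.aestronglyMeasurable hk
    _ ≤ ENNReal.ofReal C * ∫⁻ x, ‖f x‖ₑ ^ p ∂μ₀ := by
        gcongr
        exact sum_lint n _

end H12Haar
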